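import Pool.Agent.R60.FK.Stm
import Pool.Agent.R60.SC.Main

/-! # Project FK, piece ALL: every vertex can be the last one -/

namespace Pool.Agent.R60.FK

open Pool.Agent.R60.SC

namespace AllAux

variable {ι : Type} [DecidableEq ι]

theorem skew_mut' {B : ι → ι → ℤ} (hB : Skew B) (k : ι) : Skew (mutB k B) := by
  intro i j
  unfold mutB
  by_cases h : i = k ∨ j = k
  · have h' : j = k ∨ i = k := h.symm
    rw [if_pos h, if_pos h', hB i j]
  · have h' : ¬ (j = k ∨ i = k) := fun e => h e.symm
    rw [if_neg h, if_neg h']
    have e1 : B i k = - B k i := hB i k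
    have e2 : B k j = - B j k := hB k j
    rw [hB i j, e1, e2, neg_neg, neg_neg]
    ring

theorem skew_run {w : List ι} : ∀ {B : ι → ι → ℤ}, Skew B → Skew (runB w B) := by
  induction w with
  | nil => intro B hB; exact hB
  | cons k w ih => intro B hB; exact ih (skew_mut' hB k)

end AllAux

open AllAux

theorem all_main : StepStm → WarkStm → LastStm → AllStm := by
  intro hStep hWark hLast V _ _ B hB hconn hinf u
  obtain ⟨w, r, hF⟩ := hWark V B hB hconn hinf
  have hsF : Skew (runB w B) := skew_run hB
  have h1 : Lst (runB w B) u := by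
    by_cases hur : u = r
    · rw [hur]
      exact (hLast V _ hsF).2 r hF
    · have hF' : ForkOn 2 (mutB u (runB w B)) Finset.univ u :=
        hStep V 2 (runB w B) Finset.univ r u le_rfl hsF hF (Finset.mem_univ _) hur
      have hs' := skew_mut' hsF u
      have hL : Lst (mutB u (runB w B)) u := (hLast V _ hs').2 u hF'
      have h2 := (hLast V _ hs').1 u u (sign_coherence V _ hs')
        (sign_coherence V _ (skew_mut' hs' u)) hL
      rwa [KK.mutB_mutB] at h2
  have back : ∀ (w : List V) (B : V → V → ℤ), Skew B → Lst (runB w B) u → Lst B u := by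
    intro w
    induction w with
    | nil => intro B _ h; exact h
    | cons k w ih =>
      intro B hB h
      have hs' := skew_mut' hB k
      have h2 : Lst (mutB k B) u := ih (mutB k B) hs' h
      have h3 := (hLast V _ hs').1 k u (sign_coherence V _ hs')
        (sign_coherence V _ (skew_mut' hs' k)) h2
      rwa [KK.mutB_mutB] at h3
  exact back w B hB h1

end Pool.Agent.R60.FK
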