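import Pool.Agent.R60.FK.Stm
import Pool.Agent.R60.SC.K

/-! # FK-CON: mutations keep connectedness -/

namespace Pool.Agent.R60.FK

open Pool.Agent.R60.SC

namespace CON

variable {V : Type} [DecidableEq V]

theorem skew_mut (k : V) (B : V → V → ℤ) (hS : Skew B) : Skew (mutB k B) := by
  intro i j
  unfold mutB
  by_cases h : i = k ∨ j = k
  · rw [if_pos h, if_pos h.symm, hS i j]
  · have h' : ¬ (j = k ∨ i = k) := fun e => h e.symm
    rw [if_neg h, if_neg h', hS i j, hS i k, hS k j]
    simp only [neg_neg]
    ring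

theorem conn_mut (k : V) (B : V → V → ℤ) (hC : Conn B) : Conn (mutB k B) := by
  intro X hX hU
  by_contra h
  push Not at h
  obtain ⟨x, hx, y, hy, hne⟩ := hC X hX hU
  apply hne
  rw [← KK.mutB_mutB k B]
  set B' := mutB k B with hB'
  show mutB k B' x y = 0
  unfold mutB
  have hxy := h x hx y hy
  split_ifs
  · rw [hxy]; rfl
  · by_cases hk : k ∈ X
    · rw [hxy, h k hk y hy]
      simp [pos]
    · rw [hxy, h x hx k hk]
      simp [pos]

end CON

theorem con_main : ConStm := by
  intro V _ B hS hC w
  induction w generalizing B with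
  | nil => exact hC
  | cons k w ih => exact ih (mutB k B) (CON.skew_mut k B hS) (CON.conn_mut k B hC)

end Pool.Agent.R60.FK
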