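import Pool.Agent.R60.FK.Stm

/-!
# FK-EXT: the extension of a fork by one vertex, from FK-INIT and FK-RED
-/

namespace Pool.Agent.R60.FK

open Pool.Agent.R60.SC

namespace Ext46

variable {V : Type} [DecidableEq V]

theorem skew_mutB (k : V) (B : V → V → ℤ) (h : Skew B) : Skew (mutB k B) := by
  intro i j
  unfold mutB
  by_cases hi : i = k ∨ j = k
  · have hj : j = k ∨ i = k := hi.symm
    rw [if_pos hi, if_pos hj, h i j]
  · have hj : ¬ (j = k ∨ i = k) := fun h => hi h.symm
    rw [if_neg hi, if_neg hj, h j i, h j k, h k i, neg_neg, neg_neg]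
    ring

theorem skew_runB (w : List V) : ∀ (B : V → V → ℤ), Skew B → Skew (runB w B) := by
  induction w with
  | nil => intro B h; exact h
  | cons k w ih => intro B h; exact ih _ (skew_mutB k B h)

theorem runB_append (w₁ w₂ : List V) : ∀ (B : V → V → ℤ),
    runB (w₁ ++ w₂) B = runB w₂ (runB w₁ B) := by
  induction w₁ with
  | nil => intro B; rfl
  | cons k w ih => intro B; exact ih (mutB k B)

theorem reach_trans {S : Finset V} {B B' B'' : V → V → ℤ} (h₁ : ReachIn S B B')
    (h₂ : ReachIn S B' B'') : ReachIn S B B'' := by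
  obtain ⟨w₁, hw₁, e₁⟩ := h₁
  obtain ⟨w₂, hw₂, e₂⟩ := h₂
  refine ⟨w₁ ++ w₂, ?_, ?_⟩
  · intro k hk
    rcases List.mem_append.1 hk with h | h
    · exact hw₁ k h
    · exact hw₂ k h
  · rw [runB_append, ← e₁]; exact e₂

theorem skew_reach {S : Finset V} {B B' : V → V → ℤ} (hB : Skew B) (h : ReachIn S B B') :
    Skew B' := by
  obtain ⟨w, _, e⟩ := h
  rw [e]; exact skew_runB w B hB

/-- The end of the induction: no uncontrolled vertices. -/
theorem end_fork {N : ℤ} {B : V → V → ℤ} {S : Finset V} {k v : V} (hB : Skew B)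
    (hv : v ∉ S) (h : St N B S k v ∅) : ForkOn (N - 1) B (insert v S) k := by
  have hvv : B v v = 0 := by have := hB v v; omega
  have hcyc : ∀ a ∈ insert v S, ∀ b ∈ insert v S, 0 < B v a → 0 < B a b → 0 < B b v →
      a = k ∨ b = k := by
    intro a ha b hb h1 h2 h3
    have hav : a ≠ v := by rintro rfl; omega
    have hbv : b ≠ v := by rintro rfl; omega
    have ha' : a ∈ S := Finset.mem_of_mem_insert_of_ne ha hav
    have hb' : b ∈ S := Finset.mem_of_mem_insert_of_ne hb hbv
    by_contra hcon
    push Not at hcon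
    have h4 : 0 < B b a := h.pn b hb' a ha' (by simp) (by simp) hcon.2 hcon.1 h3
      (by have := hB a v; omega)
    have := hB a b
    omega
  refine ⟨Finset.mem_insert_of_mem h.fork.mem, ?_, ?_, ?_, ?_, ?_⟩
  · intro x hx y hy hxy
    rcases Finset.mem_insert.1 hx with rfl | hx'
    · have hy' : y ∈ S := Finset.mem_of_mem_insert_of_ne hy (Ne.symm hxy)
      have h1 := h.known y hy' (by simp)
      have h2 := hB x y
      omega
    · rcases Finset.mem_insert.1 hy with rfl | hy'
      · have h1 := h.known x hx' (by simp)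
        have h2 := hB y x
        omega
      · have := h.fork.ab x hx' y hy' hxy
        omega
  · intro x hx y hy h1 h2
    rcases Finset.mem_insert.1 hx with rfl | hx'
    · have e1 := hB x k
      rcases Finset.mem_insert.1 hy with rfl | hy'
      · omega
      · rcases h.side with ⟨_, hs⟩ | ⟨hs, _⟩
        · have := hs y hy' h2
          omega
        · omega
    · rcases Finset.mem_insert.1 hy with rfl | hy'
      · rcases h.side with ⟨hs, _⟩ | ⟨_, hs⟩
        · omega
        · have h3 := hs x hx' h1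
          have e1 := hB x y
          omega
      · exact h.fork.big x hx' y hy' h1 h2
  · intro x hx y hy z hz h1 h2 h3
    by_cases hxv : x = v
    · subst hxv
      rcases hcyc y hy z hz h1 h2 h3 with h | h
      · exact Or.inr (Or.inl h)
      · exact Or.inr (Or.inr h)
    · by_cases hyv : y = v
      · subst hyv
        rcases hcyc z hz x hx h2 h3 h1 with h | h
        · exact Or.inr (Or.inr h)
        · exact Or.inl h
      · by_cases hzv : z = v
        · subst hzv
          rcases hcyc x hx y hy h3 h1 h2 with h | h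
          · exact Or.inl h
          · exact Or.inr (Or.inl h)
        · exact h.fork.cyc x (Finset.mem_of_mem_insert_of_ne hx hxv) y
            (Finset.mem_of_mem_insert_of_ne hy hyv) z
            (Finset.mem_of_mem_insert_of_ne hz hzv) h1 h2 h3
  · obtain ⟨x, hx, h1⟩ := h.fork.hp
    exact ⟨x, Finset.mem_insert_of_mem hx, h1⟩
  · obtain ⟨x, hx, h1⟩ := h.fork.hs
    exact ⟨x, Finset.mem_insert_of_mem hx, h1⟩

end Ext46

/-- FK-EXT from FK-INIT and FK-RED. -/
theorem ext_main : MirrorStm → InitStm → RedStm → ExtStm := by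
  intro _ hI hR V _ N B S r v hN hB hF hv hx
  obtain ⟨B₁, k₁, U₁, hreach, hSt⟩ := hI V N B S r v hN hB hF hv hx
  have key : ∀ n : ℕ, ∀ (B₁ : V → V → ℤ) (k₁ : V) (U₁ : Finset V), U₁.card = n →
      ReachIn S B B₁ → St N B₁ S k₁ v U₁ →
      ∃ (B' : V → V → ℤ) (k : V), ReachIn S B B' ∧ ForkOn (N - 1) B' (insert v S) k := by
    intro n
    induction n using Nat.strong_induction_on with
    | _ n ih =>
      intro B₁ k₁ U₁ hc hr hst
      have hs : Skew B₁ := Ext46.skew_reach hB hr
      rcases U₁.eq_empty_or_nonempty with he | hne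
      · subst he
        exact ⟨B₁, k₁, hr, Ext46.end_fork hs hv hst⟩
      · obtain ⟨B₂, k₂, U₂, hr2, hst2, hlt⟩ := hR V N B₁ S k₁ v U₁ hN hs hv hst hne
        exact ih U₂.card (hc ▸ hlt) B₂ k₂ U₂ rfl (Ext46.reach_trans hr hr2) hst2
  exact key _ B₁ k₁ U₁ rfl hreach hSt

end Pool.Agent.R60.FK
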