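import Mathlib
import Pool.Agent.R60.SC.Comb

/-!
# Project FK: forks and the last green vertex. Definitions and statements
-/

namespace Pool.Agent.R60.FK

open Pool.Agent.R60.SC

section
variable {V : Type} [DecidableEq V]

/-- `S` carries a fork with point of return `r`, all multiplicities in `S` are at least `N`. -/
structure ForkOn (N : ℤ) (B : V → V → ℤ) (S : Finset V) (r : V) : Prop where
  mem : r ∈ S
  ab : ∀ x ∈ S, ∀ y ∈ S, x ≠ y → N ≤ B x y ∨ N ≤ B y x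
  big : ∀ x ∈ S, ∀ y ∈ S, 0 < B x r → 0 < B r y → B x r < B y x ∧ B r y < B y x
  cyc : ∀ x ∈ S, ∀ y ∈ S, ∀ z ∈ S, 0 < B x y → 0 < B y z → 0 < B z x → x = r ∨ y = r ∨ z = r
  hp : ∃ x ∈ S, 0 < B x r
  hs : ∃ y ∈ S, 0 < B r y

/-- `B'` is obtained from `B` by mutations at vertices of `S`. -/
def ReachIn (S : Finset V) (B B' : V → V → ℤ) : Prop :=
  ∃ w : List V, (∀ k ∈ w, k ∈ S) ∧ B' = runB w B

/-- The state in the extension of a fork on `S` by the vertex `v`; `U` is the set of vertices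
`x` of `S` for which the sign of `B x v` is not controlled. -/
structure St (N : ℤ) (B : V → V → ℤ) (S : Finset V) (k v : V) (U : Finset V) : Prop where
  fork : ForkOn N B S k
  sub : U ⊆ S.erase k
  known : ∀ x ∈ S, x ∉ U → N - 1 ≤ B x v ∨ B x v ≤ -(N - 1)
  pu : ∀ x ∈ S, ∀ u ∈ U, x ∉ U → x ≠ k → 0 < B x v → 0 < B x u
  pn : ∀ x ∈ S, ∀ y ∈ S, x ∉ U → y ∉ U → x ≠ k → y ≠ k → 0 < B x v → B y v < 0 → 0 < B x y
  un : ∀ u ∈ U, ∀ y ∈ S, y ∉ U → y ≠ k → B y v < 0 → 0 < B u y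
  side : (B k v < 0 ∧ ∀ y ∈ S, 0 < B k y → y ∉ U ∧ - B k v < B y v ∧ B k y < B y v) ∨
    (0 < B k v ∧ ∀ x ∈ S, 0 < B x k → x ∉ U ∧ B k v < - B x v ∧ B x k < - B x v)

/-- Connected: no proper nonempty set of vertices is separated from its complement. -/
def Conn (B : V → V → ℤ) : Prop :=
  ∀ X : Set V, X.Nonempty → X ≠ Set.univ → ∃ x ∈ X, ∃ y ∉ X, B x y ≠ 0

/-- Infinite mutation class. -/
def MutInf (B : V → V → ℤ) : Prop := Set.Infinite {B' : V → V → ℤ | ∃ w : List V, B' = runB w B}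

/-- Some word makes all vertices other than `u` red. -/
def Lst (B : V → V → ℤ) (u : V) : Prop :=
  ∃ w : List V, ∀ i, i ≠ u → ∃ j, cRow w B j i < 0

end

/-- FK-STEP. -/
def StepStm : Prop := ∀ (V : Type) [DecidableEq V] (N : ℤ) (B : V → V → ℤ) (S : Finset V)
  (r k : V), 2 ≤ N → Skew B → ForkOn N B S r → k ∈ S → k ≠ r → ForkOn N (mutB k B) S k

/-- FK-MIRROR. -/
def MirrorStm : Prop := ∀ (V : Type) [DecidableEq V] (N : ℤ) (B : V → V → ℤ) (S : Finset V)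
  (k v : V) (U : Finset V), Skew B →
  (∀ (w : List V), runB w (fun i j => - B i j) = fun i j => - runB w B i j) ∧
  (ForkOn N B S k → ForkOn N (fun i j => - B i j) S k) ∧
  (St N B S k v U → St N (fun i j => - B i j) S k v U)

/-- FK-INIT. -/
def InitStm : Prop := ∀ (V : Type) [DecidableEq V] (N : ℤ) (B : V → V → ℤ) (S : Finset V)
  (r v : V), 3 ≤ N → Skew B → ForkOn N B S r → v ∉ S → (∃ x ∈ S, B x v ≠ 0) →
  ∃ (B' : V → V → ℤ) (k : V) (U : Finset V), ReachIn S B B' ∧ St N B' S k v U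

/-- FK-RED. -/
def RedStm : Prop := ∀ (V : Type) [DecidableEq V] (N : ℤ) (B : V → V → ℤ) (S : Finset V)
  (k v : V) (U : Finset V), 3 ≤ N → Skew B → v ∉ S → St N B S k v U → U.Nonempty →
  ∃ (B' : V → V → ℤ) (k' : V) (U' : Finset V), ReachIn S B B' ∧ St N B' S k' v U' ∧
    U'.card < U.card

/-- FK-EXT. -/
def ExtStm : Prop := ∀ (V : Type) [DecidableEq V] (N : ℤ) (B : V → V → ℤ) (S : Finset V)
  (r v : V), 3 ≤ N → Skew B → ForkOn N B S r → v ∉ S → (∃ x ∈ S, B x v ≠ 0) →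
  ∃ (B' : V → V → ℤ) (k : V), ReachIn S B B' ∧ ForkOn (N - 1) B' (insert v S) k

/-- FK-R3. -/
def Rank3Stm : Prop := ∀ (V : Type) [DecidableEq V] (N : ℤ) (B : V → V → ℤ) (i j k : V),
  3 ≤ N → Skew B → i ≠ j → i ≠ k → j ≠ k → N + 1 ≤ B i j → (B i k ≠ 0 ∨ B j k ≠ 0) →
  ∃ (B' : V → V → ℤ) (r : V), ReachIn {i, j} B B' ∧ ForkOn N B' {i, j, k} r

/-- FK-UNB. -/
def UnbStm : Prop := ∀ (V : Type) [Fintype V] [DecidableEq V] (B : V → V → ℤ), Skew B →
  MutInf B →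
  (∀ M : ℤ, ∃ (w : List V) (i j : V), M ≤ runB w B i j) ∧
  (∀ i j : V, ∃ k : V, k ≠ i ∧ k ≠ j)

/-- FK-CON. -/
def ConStm : Prop := ∀ (V : Type) [DecidableEq V] (B : V → V → ℤ), Skew B →
  Conn B → ∀ w : List V, Conn (runB w B)

/-- FK-WARK: every connected mutation-infinite quiver is mutation-equivalent to a fork. -/
def WarkStm : Prop := ∀ (V : Type) [Fintype V] [DecidableEq V] (B : V → V → ℤ), Skew B →
  Conn B → MutInf B → ∃ (w : List V) (r : V), ForkOn 2 (runB w B) Finset.univ r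

/-- FK-LAST. -/
def LastStm : Prop := ∀ (V : Type) [Fintype V] [DecidableEq V] (B : V → V → ℤ), Skew B →
  (∀ (k u : V), Coherent B → Coherent (mutB k B) → Lst B u → Lst (mutB k B) u) ∧
  (∀ r : V, ForkOn 2 B Finset.univ r → Lst B r)

/-- FK-ALL: every vertex can be the last one. -/
def AllStm : Prop := ∀ (V : Type) [Fintype V] [DecidableEq V] (B : V → V → ℤ), Skew B →
  Conn B → MutInf B → ∀ u : V, Lst B u

/-- FK-QUIV: the statement for quivers. -/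
def QuivStm : Prop := ∀ (V : Type) [Fintype V] [DecidableEq V] (Q : Quiv V),
  (∀ X : Set V, X.Nonempty → X ≠ Set.univ → ∃ x ∈ X, ∃ y ∉ X, 0 < Q.arr x y ∨ 0 < Q.arr y x) →
  Set.Infinite {Q' : Quiv V | ∃ w : List V,
    Q' = w.foldl (fun R k => R.mut (fun _ => false) k) Q} →
  (¬ ∃ w : List V, ∀ i, IsRed (afterWord w Q) i) →
  uRed Q = Fintype.card V - 1 ∧
    ∀ v : V, ∃ w : List V, numRed w Q = Fintype.card V - 1 ∧ IsGreen (afterWord w Q) v ∧
      ¬ IsRed (afterWord w Q) v ∧ ∀ i, i ≠ v → IsRed (afterWord w Q) i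

end Pool.Agent.R60.FK
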