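import Mathlib
import Pool.Agent.R60.FK.Stm

/-!
# Project FK: statements of the parts of FK-RED and FK-INIT
-/

namespace Pool.Agent.R60.FK

open Pool.Agent.R60.SC

/-- FK-REDA. -/
def RedAStm : Prop := ∀ (V : Type) [DecidableEq V] (N : ℤ) (B : V → V → ℤ) (S : Finset V)
  (k v p x : V) (U : Finset V), 3 ≤ N → Skew B → v ∉ S → St N B S k v U → B k v < 0 →
  p ∈ U → (∀ u ∈ U, |B u v| ≤ B p v) → x ∈ S → 0 < B k x →
  St N (mutB x (mutB p B)) S x v
    (if 0 < B p v then U.filter (fun u => 0 < B p u) else U.erase p)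

/-- FK-REDB. -/
def RedBStm : Prop := ∀ (V : Type) [DecidableEq V] (N : ℤ) (B : V → V → ℤ) (S : Finset V)
  (k v p : V) (U : Finset V), 3 ≤ N → Skew B → v ∉ S → St N B S k v U → 0 < B k v →
  p ∈ U → (∀ u ∈ U, |B u v| ≤ B p v) → 0 < B p v →
  St N (mutB k (mutB p B)) S k v (U.filter (fun u => 0 < B p u))

/-- FK-INITP. -/
def InitPStm : Prop := ∀ (V : Type) [DecidableEq V] (N : ℤ) (B : V → V → ℤ) (S : Finset V)
  (r v p x : V), 3 ≤ N → Skew B → v ∉ S → ForkOn N B S r → p ∈ S → p ≠ r → 0 < B p v →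
  (∀ y ∈ S, |B y v| ≤ B p v) → x ∈ S → 0 < B x p →
  St N (mutB x (mutB p B)) S x v (S.filter (fun j => 0 < B p j))

end Pool.Agent.R60.FK
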