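import Pool.Agent.R60.FK.Stm
import Pool.Agent.R60.FK.Stm2
import Pool.Agent.R60.FK.Conn

/-! # FK-INIT -/

namespace Pool.Agent.R60.FK

open Pool.Agent.R60.SC

namespace INIT

variable {V : Type} [DecidableEq V]

theorem no_source {N : ℤ} (hN : 3 ≤ N) {B : V → V → ℤ} {S : Finset V} {r : V}
    (h : ForkOn N B S r) {k : V} (hk : k ∈ S) : ∃ l ∈ S, 0 < B l k := by
  by_cases hkr : k = r
  · subst hkr; exact h.hp
  · rcases h.ab k hk r h.mem hkr with h1 | h1
    · obtain ⟨j, hj, hj2⟩ := h.hs
      have h3 := (h.big k hk j hj (by omega) hj2).1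
      exact ⟨j, hj, by omega⟩
    · exact ⟨r, h.mem, by omega⟩

theorem skew_neg {B : V → V → ℤ} (hS : Skew B) : Skew (fun i j => - B i j) := by
  intro i j
  show - B i j = - - B j i
  rw [hS i j]

theorem skew_run (w : List V) : ∀ B : V → V → ℤ, Skew B → Skew (runB w B) := by
  induction w with
  | nil => exact fun B hB => hB
  | cons k w ih => exact fun B hB => ih _ (CON.skew_mut k B hB)

theorem pos_case (hI : InitPStm) {N : ℤ} {B : V → V → ℤ} {S : Finset V} {r v p : V}
    (hN : 3 ≤ N) (hS : Skew B) (hF : ForkOn N B S r) (hv : v ∉ S) (hp : p ∈ S) (hpr : p ≠ r)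
    (h0 : 0 < B p v) (hm : ∀ y ∈ S, |B y v| ≤ B p v) :
    ∃ (B' : V → V → ℤ) (k : V) (U : Finset V), ReachIn S B B' ∧ St N B' S k v U := by
  obtain ⟨x, hx, hx2⟩ := no_source hN hF hp
  refine ⟨mutB x (mutB p B), x, _, ⟨[p, x], ?_, rfl⟩,
    hI V N B S r v p x hN hS hv hF hp hpr h0 hm hx hx2⟩
  intro k hk
  simp only [List.mem_cons, List.not_mem_nil, or_false] at hk
  rcases hk with rfl | rfl
  · exact hp
  · exact hx

theorem gen_case (hM : MirrorStm) (hI : InitPStm) {N : ℤ} {B : V → V → ℤ} {S : Finset V}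
    {r v p : V}
    (hN : 3 ≤ N) (hS : Skew B) (hF : ForkOn N B S r) (hv : v ∉ S) (hp : p ∈ S) (hpr : p ≠ r)
    (h0 : B p v ≠ 0) (hm : ∀ y ∈ S, |B y v| ≤ |B p v|) :
    ∃ (B' : V → V → ℤ) (k : V) (U : Finset V), ReachIn S B B' ∧ St N B' S k v U := by
  rcases lt_or_gt_of_ne h0 with h1 | h1
  · obtain ⟨B', k, U, ⟨w, hw, hw2⟩, hSt⟩ := pos_case hI hN (skew_neg hS)
      ((hM V N B S r v ∅ hS).2.1 hF) hv hp hpr (show 0 < - B p v by omega)
      (fun y hy => by
        have := hm y hy
        rw [abs_of_neg h1] at this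
        rw [abs_neg]
        exact this)
    have hw3 : B' = fun i j => - runB w B i j := by
      rw [hw2, (hM V N B S r v ∅ hS).1 w]
    refine ⟨runB w B, k, U, ⟨w, hw, rfl⟩, ?_⟩
    have hsk : Skew B' := by
      rw [hw3]
      exact skew_neg (skew_run w B hS)
    have h2 := (hM V N B' S k v U hsk).2.2 hSt
    have h3 : (fun i j => - B' i j) = runB w B := by
      rw [hw3]
      funext i j
      exact neg_neg _
    rwa [h3] at h2
  · refine pos_case hI hN hS hF hv hp hpr h1 (fun y hy => ?_)
    have := hm y hy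
    rwa [abs_of_pos h1] at this

end INIT

theorem init_main (hst : StepStm) (hM : MirrorStm) (hI : InitPStm) : InitStm := by
  intro V _ N B S r v hN hS hF hv hx
  by_cases h : ∃ p ∈ S, p ≠ r ∧ ∀ y ∈ S, |B y v| ≤ |B p v|
  · obtain ⟨p, hp, hpr, hm⟩ := h
    refine INIT.gen_case hM hI hN hS hF hv hp hpr ?_ hm
    intro h0
    obtain ⟨x, hx1, hx2⟩ := hx
    have := hm x hx1
    rw [h0, abs_zero] at this
    exact hx2 (abs_eq_zero.mp (le_antisymm this (abs_nonneg _)))
  · push Not at h
    have hne : S.Nonempty := ⟨r, hF.mem⟩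
    obtain ⟨p, hp, hpm⟩ := Finset.exists_max_image S (fun y => |B y v|) hne
    have hpr : p = r := by
      by_contra hne
      obtain ⟨y, hy, hy2⟩ := h p hp hne
      exact absurd (hpm y hy) (not_le.mpr hy2)
    subst hpr
    have hlt : ∀ y ∈ S, y ≠ p → |B y v| < |B p v| := by
      intro y hy hyp
      obtain ⟨z, hz, hz2⟩ := h y hy hyp
      exact lt_of_lt_of_le hz2 (hpm z hz)
    have hp0 : B p v ≠ 0 := by
      intro h0
      obtain ⟨x, hx1, hx2⟩ := hx
      have := hpm x hx1
      simp only [h0, abs_zero] at this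
      exact hx2 (abs_eq_zero.mp (le_antisymm this (abs_nonneg _)))
    -- the vertex q
    have key : ∃ q ∈ S, q ≠ p ∧ |B p v| ≤ |mutB q B p v| := by
      rcases lt_or_gt_of_ne hp0 with h1 | h1
      · obtain ⟨q, hq, hq2⟩ := hF.hp
        have hqp : q ≠ p := by
          rintro rfl
          have := hS q q
          omega
        refine ⟨q, hq, hqp, ?_⟩
        have hvq : v ≠ q := fun e => hv (e ▸ hq)
        have hb : B p q < 0 := by
          have := hS p q
          omega
        have e : mutB q B p v = B p v - (-(B p q)) * pos (-(B q v)) := by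
          unfold mutB
          rw [if_neg (by rintro (e | e); exact hqp e.symm; exact hvq e)]
          have e1 : pos (B p q) = 0 := max_eq_right hb.le
          have e2 : pos (-(B p q)) = -(B p q) := max_eq_left (by omega)
          rw [e1, e2]
          ring
        have h3 : 0 ≤ pos (-(B q v)) := le_max_right _ _
        have h4 : 0 ≤ (-(B p q)) * pos (-(B q v)) := mul_nonneg (by omega) h3
        have h5 : mutB q B p v < 0 := by rw [e]; omega
        rw [abs_of_neg h1, abs_of_neg h5, e]
        omega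
      · obtain ⟨q, hq, hq2⟩ := hF.hs
        have hqp : q ≠ p := by
          rintro rfl
          have := hS q q
          omega
        refine ⟨q, hq, hqp, ?_⟩
        have hvq : v ≠ q := fun e => hv (e ▸ hq)
        have e : mutB q B p v = B p v + B p q * pos (B q v) := by
          unfold mutB
          rw [if_neg (by rintro (e | e); exact hqp e.symm; exact hvq e)]
          have e1 : pos (B p q) = B p q := max_eq_left hq2.le
          have e2 : pos (-(B p q)) = 0 := max_eq_right (by omega)
          rw [e1, e2]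
          ring
        have h3 : 0 ≤ pos (B q v) := le_max_right _ _
        have h4 : 0 ≤ B p q * pos (B q v) := mul_nonneg (by omega) h3
        have h5 : 0 < mutB q B p v := by rw [e]; omega
        rw [abs_of_pos h1, abs_of_pos h5, e]
        omega
    obtain ⟨q, hq, hqp, hqm⟩ := key
    set B1 := mutB q B with hB1
    have hF1 : ForkOn N B1 S q := hst V N B S p q (by omega) hS hF hq hqp
    have hS1 : Skew B1 := CON.skew_mut q B hS
    have hq1 : |B1 q v| = |B q v| := by
      have : B1 q v = - B q v := by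
        rw [hB1]; unfold mutB; rw [if_pos (Or.inl rfl)]
      rw [this, abs_neg]
    obtain ⟨p', hp', hpm'⟩ := Finset.exists_max_image S (fun y => |B1 y v|) hne
    have hp'q : p' ≠ q := by
      rintro rfl
      have h1 := hpm' p hp
      have h2 := hlt p' hp' hqp
      rw [hq1] at h1
      exact absurd (le_trans hqm h1) (not_le.mpr h2)
    have hp'0 : B1 p' v ≠ 0 := by
      intro h0
      have h1 := hpm' p hp
      simp only [h0, abs_zero] at h1
      have h2 : 0 < |B p v| := abs_pos.mpr hp0
      omega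
    obtain ⟨B', k, U, ⟨w, hw, hw2⟩, hSt⟩ :=
      INIT.gen_case hM hI hN hS1 hF1 hv hp' hp'q hp'0 hpm'
    refine ⟨B', k, U, ⟨q :: w, ?_, ?_⟩, hSt⟩
    · intro z hz
      rcases List.mem_cons.mp hz with rfl | hz
      · exact hq
      · exact hw z hz
    · rw [hw2]; rfl

end Pool.Agent.R60.FK
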