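import Mathlib
import Pool.Agent.R60.FK.Stm2

/-!
# Project FK: the part FK-INITP
-/

namespace Pool.Agent.R60.FK

open Pool.Agent.R60.SC

namespace InitP

section
variable {V : Type} [DecidableEq V]

theorem pos_nn {x : ℤ} (h : 0 ≤ x) : pos x = x := max_eq_left h

theorem pos_np {x : ℤ} (h : x ≤ 0) : pos x = 0 := max_eq_right h

theorem pos_ge (x : ℤ) : 0 ≤ pos x := le_max_right _ _

theorem mut_l (k : V) (B : V → V → ℤ) (j : V) : mutB k B k j = - B k j := by
  simp [mutB]

theorem mut_r (k : V) (B : V → V → ℤ) (i : V) : mutB k B i k = - B i k := by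
  simp [mutB]

theorem mut_n {k : V} (B : V → V → ℤ) {i j : V} (hi : i ≠ k) (hj : j ≠ k) :
    mutB k B i j = B i j + pos (B i k) * pos (B k j) - pos (-(B i k)) * pos (-(B k j)) := by
  simp [mutB, hi, hj]

theorem mut_skew {k : V} {B : V → V → ℤ} (h : Skew B) : Skew (mutB k B) := by
  intro i j
  by_cases hi : i = k
  · subst hi
    rw [mut_l, mut_r, h i j]
  · by_cases hj : j = k
    · subst hj
      rw [mut_l, mut_r, h i j]
    · rw [mut_n B hi hj, mut_n B hj hi, h i j, h k j, h j k, h k i, h i k]
      simp only [neg_neg]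
      have e1 : B k i = - B i k := h k i
      have e2 : B k j = - B j k := h k j
      rw [e1, e2]
      simp only [neg_neg]
      ring

end

end InitP

open InitP

theorem initp_main : StepStm → InitPStm := by
  intro step V _ N B S r v p x hN hB hv hF hp hpr hspos hmax hx hxp
  have hpp : B p p = 0 := by have := hB p p; omega
  have hxnp : x ≠ p := by
    rintro rfl
    omega
  have hvp : v ≠ p := fun h => hv (h ▸ hp)
  have hvx : v ≠ x := fun h => hv (h ▸ hx)
  have hB' : Skew (mutB p B) := mut_skew hB
  have hB'' : Skew (mutB x (mutB p B)) := mut_skew hB'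
  have F' : ForkOn N (mutB p B) S p := step V N B S r p (by omega) hB hF hp hpr
  have F'' : ForkOn N (mutB x (mutB p B)) S x :=
    step V N (mutB p B) S p x (by omega) hB' F' hx hxnp
  set b := mutB p B with hb
  set s := B p v with hs
  -- the neighbours of `p`
  have hab : ∀ y ∈ S, y ≠ p → ¬ 0 < B p y → N ≤ B y p := by
    intro y hy hyp h
    rcases hF.ab p hp y hy (Ne.symm hyp) with h1 | h1
    · omega
    · exact h1
  have hxpN : N ≤ B x p := hab x hx hxnp (by have := hB p x; omega)
  have hbpx : b p x = B x p := by rw [hb, mut_l, hB x p]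
  -- values of `b` at `v`
  have hbv : ∀ y ∈ S, y ≠ p → N ≤ B y p → (B y p - 1) * s ≤ b y v := by
    intro y hy hyp h
    rw [hb, mut_n B hyp hvp, pos_nn (show 0 ≤ B y p by omega), pos_nn hspos.le,
      pos_np (show -(B y p) ≤ 0 by omega)]
    have := abs_le.1 (hmax y hy)
    linarith
  have hbv' : ∀ y ∈ S, y ≠ p → N ≤ B y p → N - 1 ≤ b y v ∧ 2 * s ≤ b y v := by
    intro y hy hyp h
    have h1 := hbv y hy hyp h
    constructor
    · nlinarith
    · nlinarith
  have hbpv : b p v = - s := by rw [hb, mut_l]
  have hxv := hbv' x hx hxnp hxpN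
  set σ := b x v with hσ
  have hσpos : 0 < σ := by omega
  -- values of `b''` at `v`
  have hcv : ∀ y, y ≠ x → mutB x b y v = b y v + pos (b y x) * σ := by
    intro y hy
    rw [mut_n b hy hvx, ← hσ, pos_nn hσpos.le, pos_np (show -σ ≤ 0 by omega)]
    ring
  have hcx : mutB x b x v = - σ := by rw [mut_l]
  have hcp : mutB x b p v = - s + B x p * σ := by
    rw [hcv p (Ne.symm hxnp), hbpv, hbpx, pos_nn (by omega)]
  have hcpos : ∀ y ∈ S, y ≠ x → y ≠ p → ¬ 0 < B p y → N - 1 ≤ mutB x b y v := by
    intro y hy hyx hyp h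
    rw [hcv y hyx]
    have h1 := (hbv' y hy hyp (hab y hy hyp h)).1
    have h2 := mul_nonneg (pos_ge (b y x)) hσpos.le
    omega
  have hcpN : N - 1 ≤ mutB x b p v := by
    rw [hcp]
    nlinarith
  have hall : ∀ y ∈ S, y ≠ x → ¬ 0 < B p y → N - 1 ≤ mutB x b y v := by
    intro y hy hyx h
    by_cases hyp : y = p
    · rw [hyp]; exact hcpN
    · exact hcpos y hy hyx hyp h
  -- the big arrows of `b`
  have hbig : ∀ u ∈ S, 0 < B p u → ∀ c ∈ S, N ≤ B c p → b u p < b c u ∧ b p c < b c u := by
    intro u hu h c hc hcp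
    apply F'.big u hu c hc
    · rw [hb, mut_r, hB u p]; omega
    · rw [hb, mut_l, hB p c]; omega
  have hbup : ∀ u, 0 < B p u → 0 < b u p := by
    intro u h
    rw [hb, mut_r, hB u p]; omega
  have hxU : ¬ 0 < B p x := by have := hB p x; omega
  refine ⟨F'', ?_, ?_, ?_, ?_, ?_, ?_⟩
  · -- sub
    intro u hu
    rw [Finset.mem_filter] at hu
    refine Finset.mem_erase.2 ⟨?_, hu.1⟩
    rintro rfl
    exact hxU hu.2
  · -- known
    intro y hy hyU
    rw [Finset.mem_filter, not_and] at hyU
    by_cases hyx : y = x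
    · right
      rw [hyx, hcx]
      omega
    · left
      exact hall y hy hyx (hyU hy)
  · -- pu
    intro a ha u hu haU hax _
    rw [Finset.mem_filter] at hu
    rw [Finset.mem_filter, not_and] at haU
    have hux : u ≠ x := by
      rintro rfl
      exact hxU hu.2
    have h1 := hbig u hu.1 hu.2 x hx hxpN
    have h2 := hbup u hu.2
    rw [mut_n b hax hux, pos_nn (show 0 ≤ b x u by omega), pos_np (show -(b x u) ≤ 0 by omega)]
    by_cases hap : a = p
    · rw [hap, hbpx, pos_nn (show 0 ≤ B x p by omega), hB' p u]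
      nlinarith
    · have h3 := (hbig u hu.1 hu.2 a ha (hab a ha hap (haU ha))).1
      have h4 := mul_nonneg (pos_ge (b a x)) (show 0 ≤ b x u by omega)
      simp only [mul_zero, sub_zero]
      omega
  · -- pn
    intro _ _ y hy _ hyU _ hyx _ h
    rw [Finset.mem_filter, not_and] at hyU
    have := hall y hy hyx (hyU hy)
    omega
  · -- un
    intro _ _ y hy hyU hyx h
    rw [Finset.mem_filter, not_and] at hyU
    have := hall y hy hyx (hyU hy)
    omega
  · -- side
    left
    refine ⟨by rw [hcx]; omega, ?_⟩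
    intro y hy hxy
    have hcxy : mutB x b x y = - b x y := mut_l _ _ _
    rw [hcxy] at hxy ⊢
    rw [hcx]
    have hyx : y ≠ x := by
      rintro rfl
      have := hB' y y
      omega
    have hbyx : b x y = - b y x := hB' x y
    have hyU : ¬ 0 < B p y := by
      intro h
      have h1 := hbig y hy h x hx hxpN
      have h2 := hbup y h
      omega
    refine ⟨?_, ?_⟩
    · rw [Finset.mem_filter, not_and]
      exact fun _ => hyU
    · by_cases hyp : y = p
      · rw [hyp, hcp]
        have e : b x p = - B x p := by rw [hb, mut_r]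
        rw [e, neg_neg, neg_neg]
        constructor
        · nlinarith
        · nlinarith
      · have h1 := (hbv' y hy hyp (hab y hy hyp hyU)).1
        rw [hcv y hyx, pos_nn (show 0 ≤ b y x by omega), hbyx, neg_neg, neg_neg]
        constructor
        · nlinarith
        · nlinarith

end Pool.Agent.R60.FK
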