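import Pool.Agent.R60.FK.Stm
import Pool.Agent.R60.SC.K

/-! # Project FK: the last vertex -/

namespace Pool.Agent.R60.FK

open Pool.Agent.R60.SC Pool.Agent.R60.SC.KK

namespace LL

variable {V : Type} [DecidableEq V]

theorem step1 (B : V → V → ℤ) (k u : V) (hc : Coherent B) (hc' : Coherent (mutB k B))
    (hL : Lst B u) : Lst (mutB k B) u := by
  obtain ⟨w, hw⟩ := hL
  have good : ∀ i j, j ≠ k → (∃ l, cRow w B l i < 0) → cRow w B j i ≠ 0 → cRow w B j i < 0 := by
    intro i j _ ⟨l, hl⟩ hne
    rcases (hc w).1 i with h | h
    · exact absurd hl (not_lt.2 (h l))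
    · exact lt_of_le_of_ne (h j) hne
  by_cases hcase : ∃ i, i ≠ u ∧ (∀ j, j ≠ k → cRow w B j i = 0) ∧
      ¬ ∃ l, cRow (k :: w) (mutB k B) l i < 0
  · obtain ⟨i₀, hiu, hbad, hnred⟩ := hcase
    refine ⟨(k :: w) ++ [i₀], ?_⟩
    have hrow : ∀ j, cRow ((k :: w) ++ [i₀]) (mutB k B) j =
        mutR i₀ (runB (k :: w) (mutB k B)) (cRow (k :: w) (mutB k B) j) := fun j =>
      runR_append _ _ _ _
    intro i hi
    by_cases hii : i = i₀
    · subst hii
      obtain ⟨j, hj⟩ := (hc' (k :: w)).2.1 i
      have hjk : j = k := by
        by_contra hjk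
        rw [cRow_cons k w B j hjk] at hj
        exact hj (hbad j hjk)
      subst hjk
      refine ⟨j, ?_⟩
      rw [hrow]
      unfold mutR
      rw [if_pos rfl]
      have h1 : ¬ cRow (j :: w) (mutB j B) j i < 0 := fun h => hnred ⟨j, h⟩
      omega
    · have hnb : ∃ j, j ≠ k ∧ cRow w B j i ≠ 0 := by
        by_contra hcon
        push Not at hcon
        exact hii ((hc w).2.2 k i i₀ hcon hbad)
      obtain ⟨j, hjk, hj⟩ := hnb
      refine ⟨j, ?_⟩
      rw [hrow, cRow_cons k w B j hjk, mutR_zero _ _ _ (hbad j hjk)]
      exact good i j hjk (hw i hi) hj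
  · push Not at hcase
    refine ⟨k :: w, ?_⟩
    intro i hi
    by_cases hb : ∀ j, j ≠ k → cRow w B j i = 0
    · exact hcase i hi hb
    · push Not at hb
      obtain ⟨j, hjk, hj⟩ := hb
      refine ⟨j, ?_⟩
      rw [cRow_cons k w B j hjk]
      exact good i j hjk (hw i hi) hj

theorem run_const : ∀ (l : List V) (B : V → V → ℤ) (c : V → ℤ), (∀ k ∈ l, c k = 0) →
    runR l B c = c := by
  intro l
  induction l with
  | nil => intro B c _; rfl
  | cons a l ih =>
    intro B c h
    show runR l (mutB a B) (mutR a B c) = c
    rw [mutR_zero a B c (h a (by simp))]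
    exact ih _ _ (fun k hk => h k (by simp [hk]))

theorem pos_of_neg {x : ℤ} (h : x < 0) : pos x = 0 := by
  unfold pos
  exact max_eq_right h.le

theorem run_sorted : ∀ (l : List V) (B : V → V → ℤ),
    l.Pairwise (fun x y => 0 < B x y ∧ B y x < 0) → l.Nodup →
    ∀ j ∈ l, runR l B (Pi.single j 1) j = -1 := by
  intro l
  induction l with
  | nil => intro B _ _ j hj; simp at hj
  | cons a l ih =>
    intro B hp hn j hj
    rw [List.pairwise_cons] at hp
    rw [List.nodup_cons] at hn
    show runR l (mutB a B) (mutR a B (Pi.single j 1)) j = -1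
    by_cases haj : j = a
    · subst haj
      have hzero : ∀ k ∈ l, mutR j B (Pi.single j 1) k = 0 := by
        intro k hk
        have hkj : k ≠ j := fun h => hn.1 (h ▸ hk)
        have h1 : pos (B k j) = 0 := pos_of_neg (hp.1 k hk).2
        have h2 : pos (-(1 : ℤ)) = 0 := pos_of_neg (by norm_num)
        unfold mutR
        rw [if_neg hkj, Pi.single_eq_same, Pi.single_eq_of_ne hkj, h1, h2]
        ring
      rw [run_const _ _ _ hzero]
      unfold mutR
      rw [if_pos rfl, Pi.single_eq_same]
    · have hjl : j ∈ l := by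
        rcases List.mem_cons.1 hj with h | h
        · exact absurd h haj
        · exact h
      rw [mutR_zero a B _ (Pi.single_eq_of_ne (Ne.symm haj) _)]
      apply ih _ _ hn.2 j hjl
      refine List.Pairwise.imp_of_mem ?_ hp.2
      intro x y hx hy hxy
      have hxa : x ≠ a := fun h => hn.1 (h ▸ hx)
      have hya : y ≠ a := fun h => hn.1 (h ▸ hy)
      have h1 := hp.1 x hx
      have h2 := hp.1 y hy
      have e1 : mutB a B x y = B x y := by
        unfold mutB
        rw [if_neg (by tauto), pos_of_neg h1.2, pos_of_neg (x := -(B a y)) (by linarith [h2.1])]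
        ring
      have e2 : mutB a B y x = B y x := by
        unfold mutB
        rw [if_neg (by tauto), pos_of_neg h2.2, pos_of_neg (x := -(B a x)) (by linarith [h1.1])]
        ring
      rw [e1, e2]
      exact hxy

theorem exists_sorted (B : V → V → ℤ) (hs : Skew B)
    (T : Finset V) (htot : ∀ x ∈ T, ∀ y ∈ T, x ≠ y → 0 < B x y ∨ 0 < B y x)
    (htr : ∀ x ∈ T, ∀ y ∈ T, ∀ z ∈ T, 0 < B x y → 0 < B y z → 0 < B x z) :
    ∃ l : List V, l.Nodup ∧ (∀ x, x ∈ l ↔ x ∈ T) ∧
      l.Pairwise (fun x y => 0 < B x y ∧ B y x < 0) := by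
  classical
  induction T using Finset.induction_on with
  | empty => exact ⟨[], by simp⟩
  | insert a T ha ih =>
    obtain ⟨l, hn, hm, hp⟩ := ih
      (fun x hx y hy => htot x (Finset.mem_insert_of_mem hx) y (Finset.mem_insert_of_mem hy))
      (fun x hx y hy z hz => htr x (Finset.mem_insert_of_mem hx) y (Finset.mem_insert_of_mem hy)
        z (Finset.mem_insert_of_mem hz))
    have haa := Finset.mem_insert_self a T
    refine ⟨l.filter (fun x => decide (0 < B x a)) ++ a :: l.filter (fun x => decide (0 < B a x)),
      ?_, ?_, ?_⟩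
    · rw [List.nodup_append]
      refine ⟨hn.filter _, ?_, ?_⟩
      · rw [List.nodup_cons]
        refine ⟨?_, hn.filter _⟩
        intro h
        exact ha ((hm a).1 (List.mem_of_mem_filter h))
      · intro x hx y hy hxy
        subst hxy
        rw [List.mem_filter] at hx
        rcases List.mem_cons.1 hy with h | h
        · subst h
          exact ha ((hm x).1 hx.1)
        · rw [List.mem_filter] at h
          have h1 := of_decide_eq_true hx.2
          have h2 := of_decide_eq_true h.2
          have h3 := hs x a
          omega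
    · intro x
      rw [List.mem_append, List.mem_cons, List.mem_filter, List.mem_filter, Finset.mem_insert]
      constructor
      · rintro (h | h | h)
        · exact Or.inr ((hm x).1 h.1)
        · exact Or.inl h
        · exact Or.inr ((hm x).1 h.1)
      · rintro (h | h)
        · exact Or.inr (Or.inl h)
        · have hxa : x ≠ a := fun h' => ha (h' ▸ h)
          rcases htot x (Finset.mem_insert_of_mem h) a haa hxa with h1 | h1
          · exact Or.inl ⟨(hm x).2 h, decide_eq_true h1⟩
          · exact Or.inr (Or.inr ⟨(hm x).2 h, decide_eq_true h1⟩)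
    · rw [List.pairwise_append]
      refine ⟨hp.filter _, ?_, ?_⟩
      · rw [List.pairwise_cons]
        refine ⟨?_, hp.filter _⟩
        intro x hx
        rw [List.mem_filter] at hx
        have h1 := of_decide_eq_true hx.2
        have h3 := hs x a
        exact ⟨h1, by omega⟩
      · intro x hx y hy
        rw [List.mem_filter] at hx
        have h1 := of_decide_eq_true hx.2
        have hxT : x ∈ insert a T := Finset.mem_insert_of_mem ((hm x).1 hx.1)
        rcases List.mem_cons.1 hy with h | h
        · subst h
          have h3 := hs x y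
          exact ⟨h1, by omega⟩
        · rw [List.mem_filter] at h
          have h2 := of_decide_eq_true h.2
          have hyT : y ∈ insert a T := Finset.mem_insert_of_mem ((hm y).1 h.1)
          have h4 := htr x hxT a haa y hyT h1 h2
          have h3 := hs x y
          exact ⟨h4, by omega⟩

end LL

open LL in
theorem last_main : LastStm := by
  intro V _ _ B hs
  refine ⟨fun k u hc hc' hL => LL.step1 B k u hc hc' hL, ?_⟩
  intro r hF
  obtain ⟨l, hn, hm, hp⟩ := exists_sorted B hs (Finset.univ.erase r)
    (by
      intro x _ y _ hxy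
      rcases hF.ab x (Finset.mem_univ _) y (Finset.mem_univ _) hxy with h | h
      · left; omega
      · right; omega)
    (by
      intro x hx y hy z hz h1 h2
      by_contra h3
      have hxz : x ≠ z := by
        rintro rfl
        have := hs x y
        omega
      rcases hF.ab x (Finset.mem_univ _) z (Finset.mem_univ _) hxz with h | h
      · omega
      · rcases hF.cyc x (Finset.mem_univ _) y (Finset.mem_univ _) z (Finset.mem_univ _) h1 h2
          (by omega) with e | e | e
        · exact (Finset.ne_of_mem_erase hx) e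
        · exact (Finset.ne_of_mem_erase hy) e
        · exact (Finset.ne_of_mem_erase hz) e)
  refine ⟨l, ?_⟩
  intro i hi
  refine ⟨i, ?_⟩
  have hil : i ∈ l := (hm i).2 (Finset.mem_erase.2 ⟨hi, Finset.mem_univ _⟩)
  have := run_sorted l B hp hn i hil
  show runR l B (Pi.single i 1) i < 0
  rw [this]
  norm_num

end Pool.Agent.R60.FK
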