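import Pool.Agent.R60.FK.Stm

/-!
# Project FK: FK-MIRROR, symmetry under reversing all arrows
-/

namespace Pool.Agent.R60.FK

open Pool.Agent.R60.SC

namespace MirrorAux

variable {V : Type} [DecidableEq V]

theorem mutB_neg (k : V) (B : V → V → ℤ) :
    mutB k (fun i j => - B i j) = fun i j => - mutB k B i j := by
  funext i j
  unfold mutB
  by_cases h : i = k ∨ j = k
  · simp only [if_pos h]
  · simp only [if_neg h, neg_neg]
    ring

theorem runB_neg (w : List V) : ∀ B : V → V → ℤ,
    runB w (fun i j => - B i j) = fun i j => - runB w B i j := by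
  induction w with
  | nil => intro B; rfl
  | cons k w ih =>
    intro B
    show runB w (mutB k (fun i j => - B i j)) = fun i j => - runB w (mutB k B) i j
    rw [mutB_neg, ih]

theorem fork_neg {N : ℤ} {B : V → V → ℤ} {S : Finset V} {k : V} (hB : Skew B)
    (h : ForkOn N B S k) : ForkOn N (fun i j => - B i j) S k where
  mem := h.mem
  ab := by
    intro x hx y hy hxy
    have h1 := hB x y
    rcases h.ab x hx y hy hxy with h2 | h2
    · right; show N ≤ - B y x; omega
    · left; show N ≤ - B x y; omega
  big := by
    intro x hx y hy h1 h2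
    have e1 := hB x k
    have e2 := hB k y
    have e3 := hB y x
    have h3 := h.big y hy x hx (by omega) (by omega)
    show - B x k < - B y x ∧ - B k y < - B y x
    omega
  cyc := by
    intro x hx y hy z hz h1 h2 h3
    have e1 := hB x y
    have e2 := hB y z
    have e3 := hB z x
    rcases h.cyc x hx z hz y hy (by omega) (by omega) (by omega) with h4 | h4 | h4
    · exact Or.inl h4
    · exact Or.inr (Or.inr h4)
    · exact Or.inr (Or.inl h4)
  hp := by
    obtain ⟨y, hy, h1⟩ := h.hs
    refine ⟨y, hy, ?_⟩
    have e1 := hB y k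
    show 0 < - B y k
    omega
  hs := by
    obtain ⟨y, hy, h1⟩ := h.hp
    refine ⟨y, hy, ?_⟩
    have e1 := hB y k
    show 0 < - B k y
    omega

theorem st_neg {N : ℤ} {B : V → V → ℤ} {S : Finset V} {k v : V} {U : Finset V} (hB : Skew B)
    (h : St N B S k v U) : St N (fun i j => - B i j) S k v U where
  fork := fork_neg hB h.fork
  sub := h.sub
  known := by
    intro x hx hxU
    rcases h.known x hx hxU with h1 | h1
    · right; show - B x v ≤ -(N - 1); omega
    · left; show N - 1 ≤ - B x v; omega
  pu := by
    intro x hx u hu hxU hxk h1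
    have h2 := h.un u hu x hx hxU hxk (by omega)
    have e1 := hB x u
    show 0 < - B x u
    omega
  pn := by
    intro x hx y hy hxU hyU hxk hyk h1 h2
    have h3 := h.pn y hy x hx hyU hxU hyk hxk (by omega) (by omega)
    have e1 := hB x y
    show 0 < - B x y
    omega
  un := by
    intro u hu y hy hyU hyk h1
    have h2 := h.pu y hy u hu hyU hyk (by omega)
    have e1 := hB u y
    show 0 < - B u y
    omega
  side := by
    rcases h.side with ⟨h1, h2⟩ | ⟨h1, h2⟩
    · right
      refine ⟨by show 0 < - B k v; omega, ?_⟩
      intro x hx hxk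
      have e1 := hB x k
      obtain ⟨h3, h4, h5⟩ := h2 x hx (by omega)
      refine ⟨h3, ?_, ?_⟩
      · show - B k v < - - B x v
        omega
      · show - B x k < - - B x v
        omega
    · left
      refine ⟨by show - B k v < 0; omega, ?_⟩
      intro x hx hxk
      have e1 := hB x k
      obtain ⟨h3, h4, h5⟩ := h2 x hx (by omega)
      refine ⟨h3, ?_, ?_⟩
      · show - - B k v < - B x v
        omega
      · show - B k x < - B x v
        omega

end MirrorAux

/-- FK-MIRROR. -/
theorem mirror_main : MirrorStm := by
  intro V _ N B S k v U hB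
  exact ⟨fun w => MirrorAux.runB_neg w B, MirrorAux.fork_neg hB, MirrorAux.st_neg hB⟩

end Pool.Agent.R60.FK
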