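import Pool.Agent.R60.FK.Stm
import Pool.Agent.R60.SC.Main

set_option autoImplicit false

namespace Pool.Agent.R60.FK

open Pool.Agent.R60.SC

theorem quiv_main : AllStm → QuivStm := by
  intro hA V _ _ Q hconn hinf hno
  have hM := m_main
  have hskew : Skew (matQ Q) := (hM V Q).1
  have hConn : Conn (matQ Q) := by
    intro X hX hX'
    obtain ⟨x, hx, y, hy, h⟩ := hconn X hX hX'
    refine ⟨x, hx, y, hy, ?_⟩
    unfold matQ
    have := Q.no_two_cycle x y
    omega
  have hfold : ∀ (w : List V) (R : Quiv V),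
      matQ (w.foldl (fun R k => R.mut (fun _ => false) k) R) = runB w (matQ R) := by
    intro w
    induction w with
    | nil => intro R; rfl
    | cons k w ih =>
      intro R
      show matQ (w.foldl (fun R k => R.mut (fun _ => false) k) (R.mut (fun _ => false) k)) =
        runB w (mutB k (matQ R))
      rw [ih, (hM V R).2.1 k]
  have hMI : MutInf (matQ Q) := by
    unfold MutInf
    have h1 : {B' : V → V → ℤ | ∃ w : List V, B' = runB w (matQ Q)} = matQ '' {Q' : Quiv V |
        ∃ w : List V, Q' = w.foldl (fun R k => R.mut (fun _ => false) k) Q} := by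
      ext B'
      constructor
      · rintro ⟨w, rfl⟩
        exact ⟨_, ⟨w, rfl⟩, hfold w Q⟩
      · rintro ⟨_, ⟨w, rfl⟩, rfl⟩
        exact ⟨w, hfold w Q⟩
    rw [h1]
    exact hinf.image (fun a _ b _ h => M.ext_mat a b h)
  have hco := sign_coherence V (matQ Q) hskew
  have key : ∀ v : V, ∃ w : List V, numRed w Q = Fintype.card V - 1 ∧
      IsGreen (afterWord w Q) v ∧ ¬ IsRed (afterWord w Q) v ∧
      ∀ i, i ≠ v → IsRed (afterWord w Q) i := by
    intro v
    obtain ⟨w, hw⟩ := hA V (matQ Q) hskew hConn hMI v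
    have h1 : ∀ i, i ≠ v → IsRed (afterWord w Q) i :=
      fun i hi => (isRed_iff hM Q w i).2 (hw i hi)
    have h2 : ¬ IsRed (afterWord w Q) v := by
      intro h
      refine hno ⟨w, fun i => ?_⟩
      by_cases hi : i = v
      · rw [hi]; exact h
      · exact h1 i hi
    have h3 : IsGreen (afterWord w Q) v := by
      obtain ⟨j, hj⟩ := (hco w).2.1 v
      have h4 : ¬ cRow w (matQ Q) j v < 0 := fun h => h2 ((isRed_iff hM Q w v).2 ⟨j, h⟩)
      refine ⟨j, ?_⟩
      have h5 := (hM V Q).2.2.2 w v j
      omega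
    refine ⟨w, ?_, h3, h2, h1⟩
    unfold numRed
    have h6 : {i : V | IsRed (afterWord w Q) i} = ({v} : Set V)ᶜ := by
      ext i
      constructor
      · intro hi hiv
        have : i = v := hiv
        subst this
        exact h2 hi
      · intro hi
        exact h1 i hi
    rw [h6]
    have h7 := Set.ncard_add_ncard_compl ({v} : Set V)
    rw [Set.ncard_singleton, Nat.card_eq_fintype_card] at h7
    omega
  refine ⟨?_, key⟩
  push Not at hno
  obtain ⟨v, _⟩ := hno []
  apply le_antisymm
  · obtain ⟨w, hw⟩ := (uRed_isGreatest Q).1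
    rw [← hw]
    obtain ⟨i, hi⟩ := hno w
    show Set.ncard {i : V | IsRed (afterWord w Q) i} ≤ _
    have h8 : {i : V | IsRed (afterWord w Q) i} ⊆ ({i} : Set V)ᶜ := by
      intro k hk hki
      have : k = i := hki
      subst this
      exact hi hk
    have h9 := Set.ncard_le_ncard h8 (Set.toFinite _)
    have h7 := Set.ncard_add_ncard_compl ({i} : Set V)
    rw [Set.ncard_singleton, Nat.card_eq_fintype_card] at h7
    omega
  · obtain ⟨w, hw, _⟩ := key v
    rw [← hw]
    exact (uRed_isGreatest Q).2 ⟨w, rfl⟩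

end Pool.Agent.R60.FK
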