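import Pool.Agent.R60.FK.Unb

/-!
# Project FK: FK-R3, rank three
-/

namespace Pool.Agent.R60.FK

open Pool.Agent.R60.SC

namespace R3Aux

variable {V : Type} [DecidableEq V]

theorem pos_of_nonneg {x : ℤ} (h : 0 ≤ x) : pos x = x := max_eq_left h

theorem pos_of_nonpos {x : ℤ} (h : x ≤ 0) : pos x = 0 := max_eq_right h

theorem mut_left (i j : V) (C : V → V → ℤ) : mutB i C i j = - C i j := by
  unfold mutB
  rw [if_pos (Or.inl rfl)]

theorem mut_right (i j : V) (C : V → V → ℤ) : mutB j C i j = - C i j := by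
  unfold mutB
  rw [if_pos (Or.inr rfl)]

theorem mut_other {i j k : V} (hji : j ≠ i) (hki : k ≠ i) (C : V → V → ℤ) :
    mutB i C j k = C j k + pos (C j i) * pos (C i k) - pos (-(C j i)) * pos (-(C i k)) := by
  unfold mutB
  rw [if_neg (by simp [hji, hki])]

omit [DecidableEq V] in
theorem fork3 {N : ℤ} (hN : 3 ≤ N) {C : V → V → ℤ} (hC : Skew C) {S : Finset V} {x y z : V}
    (hx : x ∈ S) (hy : y ∈ S) (hz : z ∈ S) (hS : ∀ u ∈ S, u = x ∨ u = y ∨ u = z)
    (h1 : N ≤ C x y) (h2 : N ≤ C z x) (h3 : C x y < C y z) (h4 : C z x < C y z) :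
    ForkOn N C S x := by
  have exx : C x x = 0 := by have := hC x x; omega
  have eyy : C y y = 0 := by have := hC y y; omega
  have ezz : C z z = 0 := by have := hC z z; omega
  have exy := hC x y
  have ezx := hC z x
  have eyz := hC y z
  refine ⟨hx, ?_, ?_, ?_, ⟨z, hz, by omega⟩, ⟨y, hy, by omega⟩⟩
  · intro u hu w hw huw
    rcases hS u hu with rfl | rfl | rfl <;> rcases hS w hw with rfl | rfl | rfl <;>
      first | exact absurd rfl huw | omega
  · intro u hu w hw
    rcases hS u hu with rfl | rfl | rfl <;> rcases hS w hw with rfl | rfl | rfl <;> omega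
  · intro p hp q hq t ht h5 h6 h7
    rcases hS p hp with rfl | rfl | rfl
    · exact Or.inl rfl
    · rcases hS q hq with rfl | rfl | rfl
      · exact Or.inr (Or.inl rfl)
      · omega
      · rcases hS t ht with rfl | rfl | rfl
        · exact Or.inr (Or.inr rfl)
        · omega
        · omega
    · rcases hS q hq with rfl | rfl | rfl
      · exact Or.inr (Or.inl rfl)
      · omega
      · omega

/-- word `[j, i]` -/
theorem case1 {N : ℤ} (hN : 3 ≤ N) {B : V → V → ℤ} (hB : Skew B) {i j k : V} (hij : i ≠ j)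
    (hik : i ≠ k) (hjk : j ≠ k) (ha : N + 1 ≤ B i j) (ht : 0 < B j k)
    (hX : B i j - 1 ≤ B i k + B i j * B j k) (htX : B j k ≤ B i k + B i j * B j k) :
    ∃ (B' : V → V → ℤ) (r : V), ReachIn {i, j} B B' ∧ ForkOn N B' {i, j, k} r := by
  refine ⟨runB [j, i] B, i, ⟨[j, i], by simp, rfl⟩, ?_⟩
  have s1 := UnbAux.skew_mut hB j
  have s2 := UnbAux.skew_mut s1 i
  show ForkOn N (mutB i (mutB j B)) {i, j, k} i
  set a := B i j with hadef
  set s := B i k with hsdef
  set t := B j k with htdef
  set X := s + a * t with hXdef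
  have c1 : mutB j B i j = -a := mut_right _ _ _
  have c1' : mutB j B j i = a := by rw [s1 j i, c1]; ring
  have c2 : mutB j B j k = -t := mut_left _ _ _
  have c3 : mutB j B i k = X := by
    rw [mut_other hij hjk.symm, ← hadef, ← hsdef, ← htdef, pos_of_nonneg (by omega : 0 ≤ a),
      pos_of_nonneg ht.le, pos_of_nonpos (by omega : -a ≤ 0)]
    ring
  have d1 : mutB i (mutB j B) i j = a := by rw [mut_left, c1]; ring
  have d2 : mutB i (mutB j B) i k = -X := by rw [mut_left, c3]
  have d2' : mutB i (mutB j B) k i = X := by rw [s2 k i, d2]; ring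
  have hX0 : 0 ≤ X := by omega
  have d3 : mutB i (mutB j B) j k = a * X - t := by
    rw [mut_other hij.symm hik.symm, c1', c2, c3, pos_of_nonneg (by omega : 0 ≤ a),
      pos_of_nonneg hX0, pos_of_nonpos (by omega : -a ≤ 0)]
    ring
  have e1 : (a - 1) * X ≤ a * X - t := by linarith
  have e2 : (a - 1) * 3 ≤ (a - 1) * X := mul_le_mul_of_nonneg_left (by omega) (by omega)
  have e3 : 3 * X ≤ (a - 1) * X := mul_le_mul_of_nonneg_right (by omega) hX0
  refine fork3 hN s2 (by simp) (by simp) (by simp)
    (fun u hu => by simpa using hu) (y := j) (z := k) ?_ ?_ ?_ ?_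
  · rw [d1]; omega
  · rw [d2']; omega
  · rw [d1, d3]; omega
  · rw [d2', d3]; omega

/-- word `[i, j]` -/
theorem case2 {N : ℤ} (hN : 3 ≤ N) {B : V → V → ℤ} (hB : Skew B) {i j k : V} (hij : i ≠ j)
    (hik : i ≠ k) (hjk : j ≠ k) (ha : N + 1 ≤ B i j) (hs : B i k < 0)
    (hY : B i j - 1 ≤ -(B j k + B i j * B i k)) (hsY : - B i k ≤ -(B j k + B i j * B i k)) :
    ∃ (B' : V → V → ℤ) (r : V), ReachIn {i, j} B B' ∧ ForkOn N B' {i, j, k} r := by
  refine ⟨runB [i, j] B, j, ⟨[i, j], by simp, rfl⟩, ?_⟩
  have s1 := UnbAux.skew_mut hB i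
  have s2 := UnbAux.skew_mut s1 j
  show ForkOn N (mutB j (mutB i B)) {i, j, k} j
  set a := B i j with hadef
  set s := B i k with hsdef
  set t := B j k with htdef
  have hji : B j i = -a := by rw [hB j i]
  set Y := -(t + a * s) with hYdef
  have c1 : mutB i B i j = -a := mut_left _ _ _
  have c2 : mutB i B i k = -s := mut_left _ _ _
  have c3 : mutB i B j k = -Y := by
    rw [mut_other hij.symm hik.symm, hji, ← hsdef, ← htdef, pos_of_nonpos (by omega : -a ≤ 0),
      pos_of_nonneg (by omega : 0 ≤ - -a), pos_of_nonneg (by omega : 0 ≤ -s)]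
    rw [hYdef]
    ring
  have d1 : mutB j (mutB i B) i j = a := by rw [mut_right, c1]; ring
  have d2 : mutB j (mutB i B) j k = Y := by rw [mut_left, c3]; ring
  have hY0 : 0 ≤ Y := by omega
  have d3 : mutB j (mutB i B) i k = -s - a * Y := by
    rw [mut_other hij hjk.symm, c1, c2, c3, pos_of_nonpos (by omega : -a ≤ 0),
      pos_of_nonneg (by omega : 0 ≤ - -a), pos_of_nonneg (by omega : 0 ≤ - -Y)]
    ring
  have d3' : mutB j (mutB i B) k i = a * Y + s := by rw [s2 k i, d3]; ring
  have e1 : (a - 1) * Y ≤ a * Y + s := by linarith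
  have e2 : (a - 1) * 3 ≤ (a - 1) * Y := mul_le_mul_of_nonneg_left (by omega) (by omega)
  have e3 : 3 * Y ≤ (a - 1) * Y := mul_le_mul_of_nonneg_right (by omega) hY0
  refine fork3 hN s2 (by simp) (by simp) (by simp)
    (fun u hu => by simp at hu; tauto) (y := k) (z := i) ?_ ?_ ?_ ?_
  · rw [d2]; omega
  · rw [d1]; omega
  · rw [d2, d3']; omega
  · rw [d1, d3']; omega

/-- word `[j, i, j]` -/
theorem case3 {N : ℤ} (hN : 3 ≤ N) {B : V → V → ℤ} (hB : Skew B) {i j k : V} (hij : i ≠ j)
    (hik : i ≠ k) (hjk : j ≠ k) (ha : N + 1 ≤ B i j) (hs : 0 < B i k) (ht : B j k ≤ 0) :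
    ∃ (B' : V → V → ℤ) (r : V), ReachIn {i, j} B B' ∧ ForkOn N B' {i, j, k} r := by
  refine ⟨runB [j, i, j] B, j, ⟨[j, i, j], by simp, rfl⟩, ?_⟩
  have s1 := UnbAux.skew_mut hB j
  have s2 := UnbAux.skew_mut s1 i
  have s3 := UnbAux.skew_mut s2 j
  show ForkOn N (mutB j (mutB i (mutB j B))) {i, j, k} j
  set a := B i j with hadef
  set s := B i k with hsdef
  set t := B j k with htdef
  have c1 : mutB j B i j = -a := mut_right _ _ _
  have c1' : mutB j B j i = a := by rw [s1 j i, c1]; ring
  have c2 : mutB j B j k = -t := mut_left _ _ _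
  have c3 : mutB j B i k = s := by
    rw [mut_other hij hjk.symm, ← hadef, ← hsdef, ← htdef, pos_of_nonpos ht,
      pos_of_nonpos (by omega : -a ≤ 0)]
    ring
  have d1 : mutB i (mutB j B) i j = a := by rw [mut_left, c1]; ring
  have d2 : mutB i (mutB j B) i k = -s := by rw [mut_left, c3]
  set T := -t + a * s with hT
  have hT0 : a ≤ T := by nlinarith
  have hT1 : s ≤ T := by nlinarith
  have d3 : mutB i (mutB j B) j k = T := by
    rw [mut_other hij.symm hik.symm, c1', c2, c3, pos_of_nonneg (by omega : 0 ≤ a),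
      pos_of_nonneg hs.le, pos_of_nonpos (by omega : -a ≤ 0)]
    ring
  have f1 : mutB j (mutB i (mutB j B)) i j = -a := by rw [mut_right, d1]
  have f1' : mutB j (mutB i (mutB j B)) j i = a := by rw [s3 j i, f1]; ring
  have f2 : mutB j (mutB i (mutB j B)) j k = -T := by rw [mut_left, d3]
  have f2' : mutB j (mutB i (mutB j B)) k j = T := by rw [s3 k j, f2]; ring
  have f3 : mutB j (mutB i (mutB j B)) i k = a * T - s := by
    rw [mut_other hij hjk.symm, d1, d2, d3, pos_of_nonneg (by omega : 0 ≤ a),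
      pos_of_nonneg (by omega : 0 ≤ T), pos_of_nonpos (by omega : -a ≤ 0)]
    ring
  have e1 : (a - 1) * T ≤ a * T - s := by linarith
  have e2 : (a - 1) * 3 ≤ (a - 1) * T := mul_le_mul_of_nonneg_left (by omega) (by omega)
  have e3 : 3 * T ≤ (a - 1) * T := mul_le_mul_of_nonneg_right (by omega) (by omega)
  refine fork3 hN s3 (by simp) (by simp) (by simp)
    (fun u hu => by simp at hu; tauto) (y := i) (z := k) ?_ ?_ ?_ ?_
  · rw [f1']; omega
  · rw [f2']; omega
  · rw [f1', f3]; omega
  · rw [f2', f3]; omega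

end R3Aux

open R3Aux in
/-- FK-R3. -/
theorem rank3_main : StepStm → MirrorStm → Rank3Stm := by
  intro _ _ V _ N B i j k hN hB hij hik hjk ha hst
  rcases lt_trichotomy (B i k) 0 with hs | hs | hs
  · -- s < 0
    by_cases h1 : B j k ≤ - B i k
    · by_cases h2 : - B j k ≤ - B i k
      · refine case2 hN hB hij hik hjk ha hs ?_ ?_ <;> nlinarith
      · -- t < s < 0: mutate at j first
        have s1 := UnbAux.skew_mut hB j
        have c1 : mutB j B i j = - B i j := mut_right _ _ _
        have c1' : mutB j B j i = B i j := by rw [s1 j i, c1]; ring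
        have c2 : mutB j B j k = - B j k := mut_left _ _ _
        have c3 : mutB j B i k = B i k := by
          rw [mut_other hij hjk.symm, pos_of_nonpos (by omega : B j k ≤ 0),
            pos_of_nonpos (by omega : - B i j ≤ 0)]
          ring
        obtain ⟨B', r, ⟨w, hw, rfl⟩, hF⟩ := case3 (N := N) hN s1 hij.symm hjk hik
          (by rw [c1']; exact ha) (by rw [c2]; omega) (by rw [c3]; omega)
        refine ⟨_, r, ⟨j :: w, ?_, rfl⟩, ?_⟩
        · intro x hx
          rcases List.mem_cons.1 hx with h | h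
          · rw [h]; simp
          · have := hw x h
            simp at this ⊢
            tauto
        · have h5 : ({i, j, k} : Finset V) = {j, i, k} := by
            ext x; simp; tauto
          rw [h5]
          exact hF
    · refine case1 hN hB hij hik hjk ha ?_ ?_ ?_ <;> nlinarith
  · -- s = 0
    have ht : B j k ≠ 0 := by
      rcases hst with h | h
      · exact absurd hs h
      · exact h
    rcases lt_or_gt_of_ne ht with h | h
    · have s1 := UnbAux.skew_mut hB j
      have c1 : mutB j B i j = - B i j := mut_right _ _ _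
      have c1' : mutB j B j i = B i j := by rw [s1 j i, c1]; ring
      have c2 : mutB j B j k = - B j k := mut_left _ _ _
      have c3 : mutB j B i k = B i k := by
        rw [mut_other hij hjk.symm, pos_of_nonpos (by omega : B j k ≤ 0),
          pos_of_nonpos (by omega : - B i j ≤ 0)]
        ring
      obtain ⟨B', r, ⟨w, hw, rfl⟩, hF⟩ := case3 (N := N) hN s1 hij.symm hjk hik
        (by rw [c1']; exact ha) (by rw [c2]; omega) (by rw [c3]; omega)
      refine ⟨_, r, ⟨j :: w, ?_, rfl⟩, ?_⟩
      · intro x hx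
        rcases List.mem_cons.1 hx with h | h
        · rw [h]; simp
        · have := hw x h
          simp at this ⊢
          tauto
      · have h5 : ({i, j, k} : Finset V) = {j, i, k} := by
          ext x; simp; tauto
        rw [h5]
        exact hF
    · refine case1 hN hB hij hik hjk ha h ?_ ?_ <;> nlinarith
  · -- s > 0
    rcases le_or_gt (B j k) 0 with h | h
    · exact case3 hN hB hij hik hjk ha hs h
    · refine case1 hN hB hij hik hjk ha h ?_ ?_ <;> nlinarith

end Pool.Agent.R60.FK
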