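import Pool.Agent.R60.FK.Stm2

/-!
# FK-RED: the set of uncontrolled vertices can be made smaller
-/

namespace Pool.Agent.R60.FK

open Pool.Agent.R60.SC

namespace RED

variable {V : Type} [DecidableEq V]

theorem skew_mut (k : V) (B : V → V → ℤ) (hS : Skew B) : Skew (mutB k B) := by
  intro i j
  unfold mutB
  by_cases h : i = k ∨ j = k
  · rw [if_pos h, if_pos h.symm, hS i j]
  · have h' : ¬ (j = k ∨ i = k) := fun e => h e.symm
    rw [if_neg h, if_neg h', hS i j, hS i k, hS k j]
    simp only [neg_neg]
    ring

theorem skew_neg (B : V → V → ℤ) (hS : Skew B) : Skew (fun i j => - B i j) := by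
  intro i j
  show - B i j = - - B j i
  rw [hS i j]

theorem diag (B : V → V → ℤ) (hS : Skew B) (p : V) : B p p = 0 := by
  have := hS p p
  omega

/-- The mirrored conclusion gives the conclusion. -/
theorem back (hM : MirrorStm) {N : ℤ} {B : V → V → ℤ} {S : Finset V} {k v : V} {U : Finset V}
    (hS : Skew B) (p x : V)
    (h : St N (mutB x (mutB p (fun i j => - B i j))) S k v U) :
    St N (mutB x (mutB p B)) S k v U := by
  have e : mutB x (mutB p (fun i j => - B i j)) = fun i j => - (mutB x (mutB p B)) i j :=
    (hM V N B S k v U hS).1 [p, x]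
  rw [e] at h
  have h2 := (hM V N (fun i j => - (mutB x (mutB p B)) i j) S k v U
    (skew_neg _ (skew_mut x _ (skew_mut p _ hS)))).2.2 h
  simpa using h2

theorem card_lt {U : Finset V} {p : V} (hp : p ∈ U) {B : V → V → ℤ} (hB : B p p = 0) :
    (U.filter (fun u => 0 < B p u)).card < U.card := by
  apply Finset.card_lt_card
  refine ⟨Finset.filter_subset _ _, fun h => ?_⟩
  have := (Finset.mem_filter.1 (h hp)).2
  omega

theorem card_lt' {U : Finset V} {p : V} (hp : p ∈ U) {B : V → V → ℤ} (hB : B p p = 0)
    {P : Prop} [Decidable P] :
    (if P then U.filter (fun u => 0 < B p u) else U.erase p).card < U.card := by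
  split_ifs
  · exact card_lt hp hB
  · exact Finset.card_erase_lt_of_mem hp

end RED

theorem red_main : StepStm → MirrorStm → RedAStm → RedBStm → RedStm := by
  intro _ hM hA hB V _ N B S k v U hN hS hv hst hU
  obtain ⟨p, hp, hmax⟩ := Finset.exists_max_image U (fun u => |B u v|) hU
  have hpS : p ∈ S := Finset.mem_of_mem_erase (hst.sub hp)
  have hkS : k ∈ S := hst.fork.mem
  have h0 : B p p = 0 := RED.diag B hS p
  have hneg : St N (fun i j => - B i j) S k v U := (hM V N B S k v U hS).2.2 hst
  have hSn : Skew (fun i j => - B i j) := RED.skew_neg B hS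
  rcases hst.side with hs | hs
  · rcases le_or_gt 0 (B p v) with hpv | hpv
    · obtain ⟨x, hx, hkx⟩ := hst.fork.hs
      refine ⟨mutB x (mutB p B), x, _, ⟨[p, x], ?_, rfl⟩,
        hA V N B S k v p x U hN hS hv hst hs.1 hp ?_ hx hkx, RED.card_lt' hp h0⟩
      · intro y hy
        simp only [List.mem_cons, List.not_mem_nil, or_false] at hy
        rcases hy with rfl | rfl
        · exact hpS
        · exact hx
      · intro u hu
        have := hmax u hu
        rwa [abs_of_nonneg hpv] at this
    · refine ⟨mutB k (mutB p B), k, _, ⟨[p, k], ?_, rfl⟩,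
        RED.back hM hS p k (hB V N (fun i j => - B i j) S k v p U hN hSn hv hneg ?_ hp ?_ ?_), ?_⟩
      · intro y hy
        simp only [List.mem_cons, List.not_mem_nil, or_false] at hy
        rcases hy with rfl | rfl
        · exact hpS
        · exact hkS
      · have := hs.1
        show 0 < - B k v
        omega
      · intro u hu
        have := hmax u hu
        rw [abs_of_neg hpv] at this
        show |- B u v| ≤ - B p v
        rwa [abs_neg]
      · show 0 < - B p v
        omega
      · exact RED.card_lt (B := fun i j => - B i j) hp (by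
          show - B p p = 0
          omega)
  · rcases lt_or_ge 0 (B p v) with hpv | hpv
    · refine ⟨mutB k (mutB p B), k, _, ⟨[p, k], ?_, rfl⟩,
        hB V N B S k v p U hN hS hv hst hs.1 hp ?_ hpv, RED.card_lt hp h0⟩
      · intro y hy
        simp only [List.mem_cons, List.not_mem_nil, or_false] at hy
        rcases hy with rfl | rfl
        · exact hpS
        · exact hkS
      · intro u hu
        have := hmax u hu
        rwa [abs_of_pos hpv] at this
    · obtain ⟨x, hx, hxk⟩ := hst.fork.hp
      refine ⟨mutB x (mutB p B), x, _, ⟨[p, x], ?_, rfl⟩,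
        RED.back hM hS p x (hA V N (fun i j => - B i j) S k v p x U hN hSn hv hneg ?_ hp ?_ hx ?_),
        RED.card_lt' (B := fun i j => - B i j) hp (by
          show - B p p = 0
          omega)⟩
      · intro y hy
        simp only [List.mem_cons, List.not_mem_nil, or_false] at hy
        rcases hy with rfl | rfl
        · exact hpS
        · exact hx
      · have := hs.1
        show - B k v < 0
        omega
      · intro u hu
        have := hmax u hu
        rw [abs_of_nonpos hpv] at this
        show |- B u v| ≤ - B p v
        rwa [abs_neg]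
      · show 0 < - B k x
        have := hS k x
        omega

end Pool.Agent.R60.FK
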