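import Mathlib
import Pool.Agent.R60.FK.Stm2

/-!
# Project FK: one reduction step on the negative side
-/

namespace Pool.Agent.R60.FK

open Pool.Agent.R60.SC

namespace RA

theorem posp {a : ℤ} (h : 0 ≤ a) : pos a = a := max_eq_left h
theorem posn {a : ℤ} (h : a ≤ 0) : pos a = 0 := max_eq_right h
theorem pos_nonneg (a : ℤ) : 0 ≤ pos a := le_max_right _ _

variable {V : Type} [DecidableEq V] {B : V → V → ℤ}

theorem diag (hB : Skew B) (k : V) : B k k = 0 := by
  have := hB k k
  omega

theorem skewm (hB : Skew B) (k : V) : Skew (mutB k B) := by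
  intro i j
  unfold mutB
  by_cases h : i = k ∨ j = k
  · rw [if_pos h, if_pos (Or.symm h), hB i j]
  · rw [if_neg h, if_neg (fun h' => h (Or.symm h')), hB i j, hB i k, hB k j]
    simp only [neg_neg]
    ring

theorem mleft (k j : V) : mutB k B k j = - B k j := by simp [mutB]
theorem mright (k i : V) : mutB k B i k = - B i k := by simp [mutB]

/-- No path `j → k → i`. -/
theorem mge {k i j : V} (hi : i ≠ k) (hj : j ≠ k) (h : 0 ≤ B k j ∨ 0 ≤ B i k) :
    mutB k B i j = B i j + pos (B i k) * pos (B k j) := by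
  unfold mutB
  rw [if_neg (by tauto)]
  rcases h with h | h
  · rw [posn (by omega : -(B k j) ≤ 0)]
    ring
  · rw [posn (by omega : -(B i k) ≤ 0)]
    ring

theorem mpath {k i j : V} (hi : i ≠ k) (hj : j ≠ k) (h1 : 0 < B i k) (h2 : 0 < B k j) :
    mutB k B i j = B i j + B i k * B k j := by
  rw [mge hi hj (Or.inl h2.le), posp h1.le, posp h2.le]

end RA

open RA

/-- FK-REDA. -/
theorem reda_main : StepStm → RedAStm := by
  intro hStep V _ N B S k v p x U hN hB hvS hSt hkv hpU hmax hxS hkx
  have hfork := hSt.fork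
  have hside : ∀ y ∈ S, 0 < B k y → y ∉ U ∧ - B k v < B y v ∧ B k y < B y v := by
    rcases hSt.side with h | h
    · exact h.2
    · omega
  have hsub : ∀ u ∈ U, u ∈ S ∧ u ≠ k := by
    intro u hu
    have := hSt.sub hu
    rw [Finset.mem_erase] at this
    exact ⟨this.2, this.1⟩
  have hpS : p ∈ S := (hsub p hpU).1
  have hpk : p ≠ k := (hsub p hpU).2
  have hvk : v ≠ k := fun h => hvS (h ▸ hfork.mem)
  have hvp : v ≠ p := fun h => hvS (h ▸ hpS)
  have hvx : v ≠ x := fun h => hvS (h ▸ hxS)
  obtain ⟨hxU, hx1, hx2⟩ := hside x hxS hkx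
  have hxk : x ≠ k := by
    rintro rfl
    rw [diag hB] at hkx
    omega
  have hxp : x ≠ p := fun h => hxU (h ▸ hpU)
  have hsk : ∀ i j, B i j = - B j i := hB
  have hxv : 0 < B x v := by omega
  have hkn := hSt.known k hfork.mem (fun h => (hsub k h).2 rfl)
  have hkv2 : B k v ≤ -(N - 1) := by omega
  have hxv2 : N ≤ B x v := by omega
  -- signs
  have hxu : ∀ u ∈ U, 0 < B x u := fun u hu => hSt.pu x hxS u hu hxU hxk hxv
  have hxpp : 0 < B x p := hxu p hpU
  have abN : ∀ y ∈ S, ∀ z ∈ S, 0 < B y z → N ≤ B y z := by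
    intro y hy z hz h
    have hyz : y ≠ z := by
      rintro rfl
      rw [diag hB] at h
      omega
    rcases hfork.ab y hy z hz hyz with h1 | h1
    · exact h1
    · have := hsk y z
      omega
  have abT : ∀ y ∈ S, ∀ z ∈ S, y ≠ z → 0 < B y z ∨ 0 < B z y := by
    intro y hy z hz h
    rcases hfork.ab y hy z hz h with h1 | h1
    · left; omega
    · right; omega
  have huk : ∀ u ∈ U, 0 < B u k := by
    intro u hu
    rcases abT u (hsub u hu).1 k hfork.mem (hsub u hu).2 with h | h
    · exact h
    · exact absurd hu (hside u (hsub u hu).1 h).1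
  have hpk3 : N ≤ B p k := abN p hpS k hfork.mem (huk p hpU)
  have hxp3 : N ≤ B x p := abN x hxS p hpS hxpp
  have hbig := hfork.big p hpS x hxS (huk p hpU) hkx
  have hpv : 0 ≤ B p v := by
    have := hmax p hpU
    have h2 := abs_nonneg (B p v)
    omega
  -- first mutation
  set b' := mutB p B with hb'
  have hB' : Skew b' := skewm hB p
  have hsk' : ∀ i j, b' i j = - b' j i := hB'
  have v1 : ∀ i, i ≠ p → b' i v = B i v + pos (B i p) * B p v := by
    intro i hi
    rw [hb', mge hi hvp (Or.inl hpv), posp hpv]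
  have v1p : b' p v = - B p v := mleft p v
  have sx' : b' x v = B x v + B x p * B p v := by
    rw [v1 x hxp, posp hxpp.le]
  have sxpos : N ≤ b' x v := by
    rw [sx']
    have : 0 ≤ B x p * B p v := mul_nonneg hxpp.le hpv
    omega
  have x1 : ∀ z, z ≠ p → b' x z = B x z + B x p * pos (B p z) := by
    intro z hz
    rw [hb', mge hxp hz (Or.inr hxpp.le), posp hxpp.le]
  have x1p : b' x p = - B x p := mright p x
  -- `x → b` in `b'`
  have Tu : ∀ u ∈ U, u ≠ p → 0 < b' x u := by
    intro u hu hne
    rw [x1 u hne]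
    have h1 := hxu u hu
    have h2 : 0 ≤ B x p * pos (B p u) := mul_nonneg hxpp.le (pos_nonneg _)
    omega
  have Tn : ∀ z ∈ S, z ∉ U → z ≠ k → B z v < 0 → 0 < b' x z := by
    intro z hz hzU hzk hzv
    have hzp : z ≠ p := fun h => hzU (h ▸ hpU)
    rw [x1 z hzp]
    have h1 := hSt.pn x hxS z hz hxU hzU hxk hzk hxv hzv
    have h2 : 0 ≤ B x p * pos (B p z) := mul_nonneg hxpp.le (pos_nonneg _)
    omega
  have xk' : b' x k = B x p * B p k - B k x := by
    rw [x1 k hpk.symm, posp (huk p hpU).le, hsk x k]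
    ring
  have Tk : 0 < b' x k := by
    rw [xk']
    nlinarith
  have inx : ∀ y ∈ S, 0 < b' y x → y ≠ p → y ∉ U ∧ y ≠ k ∧ 0 < B y v := by
    intro y hy h hyp
    have hyU : y ∉ U := by
      intro hu
      have := Tu y hu hyp
      have := hsk' x y
      omega
    have hyk : y ≠ k := by
      rintro rfl
      have := hsk' x y
      omega
    refine ⟨hyU, hyk, ?_⟩
    rcases hSt.known y hy hyU with h1 | h1
    · omega
    · have := Tn y hy hyU hyk (by omega)
      have := hsk' x y
      omega
  -- second mutation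
  set b'' := mutB x b' with hb''
  have hB'' : Skew b'' := skewm hB' x
  have v2 : ∀ i, i ≠ x → b'' i v = b' i v + pos (b' i x) * b' x v := by
    intro i hi
    rw [hb'', mge hi hvx (Or.inl (by omega)), posp (by omega : 0 ≤ b' x v)]
  have v2x : b'' x v = - b' x v := mleft x v
  have m2 : ∀ i j, i ≠ x → j ≠ x → 0 < b' x j → b'' i j = b' i j + pos (b' i x) * b' x j := by
    intro i j hi hj h
    rw [hb'', mge hi hj (Or.inl h.le), posp h.le]
  have m2ge : ∀ i j, i ≠ x → j ≠ x → 0 < b' x j → b' i j ≤ b'' i j := by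
    intro i j hi hj h
    rw [m2 i j hi hj h]
    have : 0 ≤ pos (b' i x) * b' x j := mul_nonneg (pos_nonneg _) h.le
    omega
  have px' : b' p x = B x p := by
    rw [hb', mleft, hsk p x]
    ring
  have spv : b'' p v = B x p * b' x v - B p v := by
    rw [v2 p hxp.symm, v1p, px', posp hxpp.le]
    ring
  have sp1 : b' x v < b'' p v := by
    rw [spv, sx']
    have h1 : 0 ≤ B x p * B p v := mul_nonneg hxpp.le hpv
    nlinarith
  have sp2 : B x p < b'' p v := by
    rw [spv, sx']
    have h1 : 0 ≤ B x p * B p v := mul_nonneg hxpp.le hpv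
    have h2 : 0 ≤ (B x p * B x p - 1) * B p v := mul_nonneg (by nlinarith) hpv
    nlinarith
  -- values of `b'' · v`
  have kv' : b'' k v = B k v := by
    rw [v2 k hxk.symm, v1 k hpk.symm, posn (by have := hsk k p; have := huk p hpU; omega :
      B k p ≤ 0), posn (by have := hsk' k x; omega : b' k x ≤ 0)]
    ring
  have nv' : ∀ z ∈ S, z ∉ U → z ≠ k → B z v < 0 → b'' z v = B z v := by
    intro z hz hzU hzk hzv
    have hzp : z ≠ p := fun h => hzU (h ▸ hpU)
    have hzx : z ≠ x := by
      rintro rfl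
      omega
    have h1 := hSt.un p hpU z hz hzU hzk hzv
    have h2 := Tn z hz hzU hzk hzv
    rw [v2 z hzx, v1 z hzp, posn (by have := hsk z p; omega : B z p ≤ 0),
      posn (by have := hsk' z x; omega : b' z x ≤ 0)]
    ring
  have pv' : ∀ z ∈ S, z ≠ p → z ≠ x → B z v ≤ b'' z v := by
    intro z hz hzp hzx
    rw [v2 z hzx, v1 z hzp]
    have h1 : 0 ≤ pos (B z p) * B p v := mul_nonneg (pos_nonneg _) hpv
    have h2 : 0 ≤ pos (b' z x) * b' x v := mul_nonneg (pos_nonneg _) (by omega)
    omega
  have uv' : ∀ z ∈ U, z ≠ p → 0 < B p v → 0 < B z p → N - 1 ≤ b'' z v := by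
    intro z hz hzp h1 h2
    have hzx : z ≠ x := fun h => hxU (h ▸ hz)
    have h3 := Tu z hz hzp
    rw [v2 z hzx, v1 z hzp, posn (by have := hsk' z x; omega : b' z x ≤ 0), posp h2.le]
    have h4 := abs_le.1 (hmax z hz)
    have h5 := abN z (hsub z hz).1 p hpS h2
    nlinarith
  -- the new unknown set
  set U' : Finset V := if 0 < B p v then U.filter (fun u => 0 < B p u) else U.erase p with hU'
  have hU1 : ∀ u ∈ U', u ∈ U ∧ u ≠ p ∧ (0 < B p v → 0 < B p u) := by
    intro u hu
    rw [hU'] at hu
    split_ifs at hu with h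
    · rw [Finset.mem_filter] at hu
      refine ⟨hu.1, ?_, fun _ => hu.2⟩
      rintro rfl
      rw [diag hB] at hu
      omega
    · rw [Finset.mem_erase] at hu
      exact ⟨hu.2, hu.1, fun h' => absurd h' h⟩
  have hU2 : ∀ u ∈ U, u ∉ U' → u = p ∨ (u ≠ p ∧ 0 < B p v ∧ 0 < B u p) := by
    intro u hu hnu
    by_cases hup : u = p
    · exact Or.inl hup
    · right
      rw [hU'] at hnu
      split_ifs at hnu with h
      · rw [Finset.mem_filter] at hnu
        refine ⟨hup, h, ?_⟩
        rcases abT u (hsub u hu).1 p hpS hup with h1 | h1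
        · exact h1
        · exact absurd ⟨hu, h1⟩ hnu
      · rw [Finset.mem_erase] at hnu
        exact absurd ⟨hup, hu⟩ hnu
  have hpU' : p ∉ U' := fun h => (hU1 p h).2.1 rfl
  -- classification of positive and negative vertices
  have clsP : ∀ y ∈ S, y ∉ U' → y ≠ x → 0 < b'' y v →
      y = p ∨ (y ∈ U ∧ y ≠ p ∧ 0 < B p v ∧ 0 < B y p) ∨ (y ∉ U ∧ y ≠ k ∧ y ≠ p ∧ 0 < B y v) := by
    intro y hy hyU' hyx hyv
    by_cases hyU : y ∈ U
    · rcases hU2 y hyU hyU' with h | h
      · exact Or.inl h
      · exact Or.inr (Or.inl ⟨hyU, h⟩)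
    · right; right
      have hyp : y ≠ p := fun h => hyU (h ▸ hpU)
      have hyk : y ≠ k := by
        rintro rfl
        omega
      refine ⟨hyU, hyk, hyp, ?_⟩
      rcases hSt.known y hy hyU with h1 | h1
      · omega
      · have := nv' y hy hyU hyk (by omega)
        omega
  have clsN : ∀ z ∈ S, z ∉ U' → z ≠ x → b'' z v < 0 →
      z = k ∨ (z ∉ U ∧ z ≠ k ∧ z ≠ p ∧ B z v < 0) := by
    intro z hz hzU' hzx hzv
    by_cases hzU : z ∈ U
    · rcases hU2 z hzU hzU' with h | h
      · subst h
        omega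
      · have := uv' z hzU h.1 h.2.1 h.2.2
        omega
    · by_cases hzk : z = k
      · exact Or.inl hzk
      · right
        have hzp : z ≠ p := fun h => hzU (h ▸ hpU)
        refine ⟨hzU, hzk, hzp, ?_⟩
        have := pv' z hz hzp hzx
        omega
  -- relations to `b` with `x → b` in `b'`
  have relP : ∀ z, z ≠ p → z ≠ x → 0 < b' x z → z ≠ k → 0 < B x z → B p z ≠ 0 → 0 < b'' p z := by
    intro z hzp hzx hxz hzk hxz0 hpz
    rw [m2 p z hxp.symm hzx hxz, hb', mleft, ← hb', px', posp hxpp.le, x1 z hzp]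
    rcases lt_or_gt_of_ne hpz with h | h
    · rw [posn h.le]
      nlinarith
    · rw [posp h.le]
      have h2 : 0 < B x p * B x z := mul_pos hxpp hxz0
      have h3 : 0 ≤ (B x p * B x p - 1) * B p z := mul_nonneg (by nlinarith) h.le
      nlinarith
  refine ⟨?_, ?_, ?_, ?_, ?_, ?_, ?_⟩
  · exact hStep V N b' S p x (by omega) hB'
      (hStep V N B S k p (by omega) hB hfork hpS hpk) hxS hxp
  · intro u hu
    rw [Finset.mem_erase]
    exact ⟨fun h => hxU (h ▸ (hU1 u hu).1), (hsub u (hU1 u hu).1).1⟩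
  · intro y hy hyU'
    by_cases hyx : y = x
    · subst hyx
      right
      rw [v2x]
      omega
    by_cases hyU : y ∈ U
    · rcases hU2 y hyU hyU' with h | h
      · subst h
        left
        omega
      · left
        exact uv' y hyU h.1 h.2.1 h.2.2
    · have hyp : y ≠ p := fun h => hyU (h ▸ hpU)
      by_cases hyk : y = k
      · subst hyk
        right
        rw [kv']
        exact hkv2
      · rcases hSt.known y hy hyU with h1 | h1
        · left
          have := pv' y hy hyp hyx
          omega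
        · right
          rw [nv' y hy hyU hyk (by omega)]
          exact h1
  · intro y hy u hu hyU' hyx hyv
    obtain ⟨huU, hup, huf⟩ := hU1 u hu
    have huS := (hsub u huU).1
    have huk' := (hsub u huU).2
    have hux : u ≠ x := fun h => hxU (h ▸ huU)
    have hTu := Tu u huU hup
    rcases clsP y hy hyU' hyx hyv with h | ⟨h1, h2, h3, h4⟩ | ⟨h1, h2, h3, h4⟩
    · subst h
      apply relP u hup hux hTu huk' (hxu u huU)
      rcases abT y hpS u huS (Ne.symm hup) with h | h
      · omega
      · have := hsk y u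
        omega
    · have h5 := huf h3
      refine lt_of_lt_of_le ?_ (m2ge y u hyx hux hTu)
      rw [hb', mpath h2 hup h4 h5]
      have h6 : 0 < B y u := by
        have hyu : y ≠ u := by
          rintro rfl
          have := hsk y p
          omega
        rcases abT y hy u huS hyu with h | h
        · exact h
        · rcases hfork.cyc y hy p hpS u huS h4 h5 h with e | e | e
          · exact absurd e (hsub y h1).2
          · exact absurd e hpk
          · exact absurd e huk'
      have : 0 < B y p * B p u := mul_pos h4 h5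
      omega
    · have h5 := hSt.pu y hy u huU h1 h2 h4
      have h6 := hSt.pu y hy p hpU h1 h2 h4
      refine lt_of_lt_of_le ?_ (m2ge y u hyx hux hTu)
      rw [hb', mge h3 hup (Or.inr h6.le)]
      have : 0 ≤ pos (B y p) * pos (B p u) := mul_nonneg (pos_nonneg _) (pos_nonneg _)
      omega
  · intro y hy z hz hyU' hzU' hyx hzx hyv hzv
    rcases clsN z hz hzU' hzx hzv with hzk | ⟨hz1, hz2, hz3, hz4⟩
    · subst hzk
      rcases clsP y hy hyU' hyx hyv with h | ⟨h1, h2, h3, h4⟩ | ⟨h1, h2, h3, h4⟩
      · subst h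
        rw [m2 y z hyx hzx Tk, hb', mleft, ← hb', px', posp hxpp.le, xk']
        have h5 : B z x ≤ B x y - 1 := by omega
        have h6 : B x y * B z x ≤ B x y * (B x y - 1) := mul_le_mul_of_nonneg_left h5 hxpp.le
        have h7 : 2 * (B x y * B x y - 1) ≤ B y z * (B x y * B x y - 1) :=
          mul_le_mul_of_nonneg_right (by omega) (by nlinarith)
        nlinarith
      · refine lt_of_lt_of_le ?_ (m2ge y z hyx hzx Tk)
        have h5 := huk y h1
        have h6 := huk p hpU
        rw [hb', mpath h2 hpk.symm h4 h6]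
        have : 0 < B y p * B p z := mul_pos h4 h6
        omega
      · refine lt_of_lt_of_le ?_ (m2ge y z hyx hzx Tk)
        have h5 := hSt.pu y hy p hpU h1 h2 h4
        have h6 := huk p hpU
        rw [hb', mpath h3 hpk.symm h5 h6]
        rcases abT y hy z hfork.mem h2 with h | h
        · have : 0 < B y p * B p z := mul_pos h5 h6
          omega
        · have h7 := (hfork.big p hpS y hy h6 h).2
          have h8 := hsk y z
          nlinarith
    · have hTz := Tn z hz hz1 hz2 hz4
      have hpz := hSt.un p hpU z hz hz1 hz2 hz4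
      rcases clsP y hy hyU' hyx hyv with h | ⟨h1, h2, h3, h4⟩ | ⟨h1, h2, h3, h4⟩
      · subst h
        exact relP z hz3 hzx hTz hz2 (hSt.pn x hxS z hz hxU hz1 hxk hz2 hxv hz4) (by omega)
      · refine lt_of_lt_of_le ?_ (m2ge y z hyx hzx hTz)
        have h5 := hSt.un y h1 z hz hz1 hz2 hz4
        rw [hb', mpath h2 hz3 h4 hpz]
        have : 0 < B y p * B p z := mul_pos h4 hpz
        omega
      · refine lt_of_lt_of_le ?_ (m2ge y z hyx hzx hTz)
        have h5 := hSt.pn y hy z hz h1 hz1 h2 hz2 h4 hz4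
        have h6 := hSt.pu y hy p hpU h1 h2 h4
        rw [hb', mge h3 hz3 (Or.inr h6.le)]
        have : 0 ≤ pos (B y p) * pos (B p z) := mul_nonneg (pos_nonneg _) (pos_nonneg _)
        omega
  · intro u hu z hz hzU' hzx hzv
    obtain ⟨huU, hup, huf⟩ := hU1 u hu
    have hux : u ≠ x := fun h => hxU (h ▸ huU)
    rcases clsN z hz hzU' hzx hzv with hzk | ⟨hz1, hz2, hz3, hz4⟩
    · subst hzk
      refine lt_of_lt_of_le ?_ (m2ge u z hux hzx Tk)
      have h5 := huk u huU
      have h6 := huk p hpU
      rw [hb', mge hup hpk.symm (Or.inl h6.le)]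
      have : 0 ≤ pos (B u p) * pos (B p z) := mul_nonneg (pos_nonneg _) (pos_nonneg _)
      omega
    · have hTz := Tn z hz hz1 hz2 hz4
      have hpz := hSt.un p hpU z hz hz1 hz2 hz4
      refine lt_of_lt_of_le ?_ (m2ge u z hux hzx hTz)
      have h5 := hSt.un u huU z hz hz1 hz2 hz4
      rw [hb', mge hup hz3 (Or.inl hpz.le)]
      have : 0 ≤ pos (B u p) * pos (B p z) := mul_nonneg (pos_nonneg _) (pos_nonneg _)
      omega
  · left
    refine ⟨by rw [v2x]; omega, ?_⟩
    intro y hy hxy
    have hyx' : b'' x y = b' y x := by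
      rw [hb'', mleft, hsk' x y]
      ring
    rw [hyx'] at hxy
    rw [hyx', v2x, neg_neg]
    by_cases hyp : y = p
    · subst hyp
      refine ⟨hpU', sp1, ?_⟩
      rw [px']
      exact sp2
    · obtain ⟨h1, h2, h3⟩ := inx y hy hxy hyp
      have hyx : y ≠ x := by
        rintro rfl
        rw [diag hB'] at hxy
        omega
      refine ⟨fun h => h1 (hU1 y h).1, ?_, ?_⟩
      · rw [v2 y hyx, posp hxy.le]
        have h4 : 0 ≤ pos (B y p) * B p v := mul_nonneg (pos_nonneg _) hpv
        have h5 := v1 y hyp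
        nlinarith
      · rw [v2 y hyx, posp hxy.le]
        have h4 : 0 ≤ pos (B y p) * B p v := mul_nonneg (pos_nonneg _) hpv
        have h5 := v1 y hyp
        nlinarith

end Pool.Agent.R60.FK
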