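import Mathlib
import Pool.Agent.R60.FK.Stm2

/-!
# Project FK: FK-REDB
-/

namespace Pool.Agent.R60.FK

open Pool.Agent.R60.SC

namespace RedB

theorem pos_p {x : ℤ} (h : 0 < x) : pos x = x := by unfold pos; omega
theorem pos_n {x : ℤ} (h : x ≤ 0) : pos x = 0 := by unfold pos; omega
theorem pos_nn (x : ℤ) : 0 ≤ pos x := by unfold pos; omega

variable {V : Type} [DecidableEq V]

theorem mutB_left (k j : V) (B : V → V → ℤ) : mutB k B k j = - B k j := by
  unfold mutB; simp

theorem mutB_right (k i : V) (B : V → V → ℤ) : mutB k B i k = - B i k := by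
  unfold mutB; simp

theorem mutB_ne {k i j : V} (B : V → V → ℤ) (hi : i ≠ k) (hj : j ≠ k) :
    mutB k B i j = B i j + pos (B i k) * pos (B k j) - pos (-(B i k)) * pos (-(B k j)) := by
  unfold mutB; simp [hi, hj]

theorem skew_mutB {B : V → V → ℤ} (h : Skew B) (k : V) : Skew (mutB k B) := by
  intro i j
  by_cases hi : i = k
  · subst hi
    rw [mutB_left, mutB_right, h i j]
  · by_cases hj : j = k
    · subst hj
      rw [mutB_left, mutB_right, h i j]
    · rw [mutB_ne B hi hj, mutB_ne B hj hi, h j k, h k i, h i j, neg_neg, neg_neg]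
      ring

theorem skew_self {B : V → V → ℤ} (h : Skew B) (i : V) : B i i = 0 := by
  have := h i i
  omega

end RedB

open RedB in
/-- FK-REDB. -/
theorem redb_main : StepStm → RedBStm := by
  intro hstep V _ N B S k v p U hN hB hv hst hkv hpU hmax hpv
  obtain ⟨hfork, hsub, hknown, hpu, hpn, hun, hside⟩ := hst
  have hside' : ∀ x ∈ S, 0 < B x k → x ∉ U ∧ B k v < - B x v ∧ B x k < - B x v := by
    rcases hside with h | h
    · exact absurd h.1 (by omega)
    · exact h.2
  have hkS : k ∈ S := hfork.mem
  have hkU : k ∉ U := fun h => by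
    have := hsub h
    simp at this
  have hUS : ∀ u ∈ U, u ∈ S := fun u hu => Finset.mem_of_mem_erase (hsub hu)
  have hUk : ∀ u ∈ U, u ≠ k := fun u hu h => hkU (h ▸ hu)
  have hpS := hUS p hpU
  have hpk := hUk p hpU
  have hvk : v ≠ k := fun h => hv (h ▸ hkS)
  have hvp : v ≠ p := fun h => hv (h ▸ hpS)
  have hself := skew_self hB
  -- `s_k ≥ N - 1`
  have hsk : N - 1 ≤ B k v := by
    rcases hknown k hkS hkU with h | h
    · exact h
    · omega
  -- k → u for u in U
  have hkU' : ∀ u ∈ U, N ≤ B k u := by
    intro u hu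
    rcases hfork.ab k hkS u (hUS u hu) (hUk u hu).symm with h | h
    · exact h
    · exact absurd hu (hside' u (hUS u hu) (by omega)).1
  have hkp : N ≤ B k p := hkU' p hpU
  -- known negative y : p → y
  have hpy : ∀ y ∈ S, y ∉ U → y ≠ k → B y v < 0 → 0 < B p y := fun y hy hyU hyk hyv =>
    hun p hpU y hy hyU hyk hyv
  -- forks
  have hf1 : ForkOn N (mutB p B) S p := hstep V N B S k p (by omega) hB hfork hpS hpk
  have hf2 : ForkOn N (mutB k (mutB p B)) S k :=
    hstep V N (mutB p B) S p k (by omega) (skew_mutB hB p) hf1 hkS hpk.symm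
  -- values of b'
  have hbkp' : mutB p B k p = - B k p := mutB_right p k B
  have hbpk' : mutB p B p k = B k p := by rw [mutB_left, hB p k, neg_neg]
  -- `b'_ky > 0`
  have hky' : ∀ y ∈ S, y ≠ p → y ≠ k → 0 < mutB p B k y := by
    intro y hy hyp hyk
    rw [mutB_ne B hpk.symm hyp, pos_p (show 0 < B k p by omega),
      pos_n (show -(B k p) ≤ 0 by omega)]
    rcases hfork.ab k hkS y hy hyk.symm with h | h
    · have := pos_nn (B p y)
      nlinarith
    · obtain ⟨h1, h2, h3⟩ := hside' y hy (by omega)
      have h4 := hpy y hy h1 hyk (by omega)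
      obtain ⟨h5, h6⟩ := hfork.big y hy p hpS (by omega) (by omega)
      rw [pos_p h4]
      have h7 := hB k y
      nlinarith
  have hyk' : ∀ y ∈ S, y ≠ p → y ≠ k → mutB p B y k < 0 := by
    intro y hy hyp hyk
    have := hky' y hy hyp hyk
    have h2 := skew_mutB hB p y k
    omega
  -- s'
  have hsk' : mutB p B k v = B k v + B k p * B p v := by
    rw [mutB_ne B hpk.symm hvp, pos_p (show 0 < B k p by omega), pos_p hpv,
      pos_n (show -(B k p) ≤ 0 by omega)]
    ring
  have hsk'' : mutB k (mutB p B) k v = -(B k v + B k p * B p v) := by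
    rw [mutB_left, hsk']
  have hskpos : 0 < B k v + B k p * B p v := by nlinarith
  have hsp'' : mutB k (mutB p B) p v = - B p v + B k p * (B k v + B k p * B p v) := by
    rw [mutB_ne _ hpk hvk, hbpk', hsk', mutB_left, pos_p (show 0 < B k p by omega),
      pos_p hskpos, pos_n (show -(B k p) ≤ 0 by omega)]
    ring
  have hsy' : ∀ y, y ≠ p → mutB p B y v = B y v + pos (B y p) * B p v := by
    intro y hyp
    rw [mutB_ne B hyp hvp, pos_p hpv, pos_n (show -(B p v) ≤ 0 by omega)]
    ring
  have hsy'' : ∀ y ∈ S, y ≠ p → y ≠ k →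
      mutB k (mutB p B) y v = B y v + pos (B y p) * B p v := by
    intro y hy hyp hyk
    rw [mutB_ne _ hyk hvk, hsk', pos_n (le_of_lt (hyk' y hy hyp hyk)), hsy' y hyp,
      pos_n (show -(B k v + B k p * B p v) ≤ 0 by omega)]
    ring
  -- b''
  have hxy'' : ∀ x ∈ S, ∀ y ∈ S, x ≠ p → x ≠ k → y ≠ p → y ≠ k →
      mutB k (mutB p B) x y = mutB p B x y := by
    intro x hx y hy hxp hxk hyp hyk
    have h1 := hyk' x hx hxp hxk
    have h2 := hky' y hy hyp hyk
    rw [mutB_ne _ hxk hyk, pos_n (le_of_lt h1),
      pos_n (show -(mutB p B k y) ≤ 0 by omega)]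
    ring
  have hpy'' : ∀ y ∈ S, y ≠ p → y ≠ k →
      mutB k (mutB p B) p y = - B p y + B k p * mutB p B k y := by
    intro y hy hyp hyk
    have h2 := hky' y hy hyp hyk
    rw [mutB_ne _ hpk hyk, hbpk', pos_p (show 0 < B k p by omega), pos_p h2,
      pos_n (show -(B k p) ≤ 0 by omega), mutB_left]
    ring
  have hspbig : N - 1 ≤ mutB k (mutB p B) p v := by
    rw [hsp'']
    nlinarith
  -- knowledge about s''
  have hneg : ∀ y ∈ S, y ∉ U.filter (fun u => 0 < B p u) → y ≠ k →
      mutB k (mutB p B) y v < 0 → y ∉ U ∧ y ≠ p ∧ B y v < 0 ∧ 0 < B p y := by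
    intro y hy hyU' hyk hneg
    have hyp : y ≠ p := by
      rintro rfl
      omega
    rw [hsy'' y hy hyp hyk] at hneg
    have h0 := pos_nn (B y p)
    have hyU : y ∉ U := by
      intro hyU
      have h1 : ¬ 0 < B p y := fun h => hyU' (Finset.mem_filter.mpr ⟨hyU, h⟩)
      rcases hfork.ab p hpS y hy hyp.symm with h | h
      · omega
      · rw [pos_p (show 0 < B y p by omega)] at hneg
        have h3 := (abs_le.mp (hmax y hyU)).1
        nlinarith
    have hyv : B y v < 0 := by nlinarith
    exact ⟨hyU, hyp, hyv, hpy y hy hyU hyk hyv⟩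
  have hposi : ∀ x ∈ S, x ∉ U.filter (fun u => 0 < B p u) → x ≠ k → x ≠ p →
      0 < mutB k (mutB p B) x v → (x ∉ U ∧ 0 < B x v) ∨ (x ∈ U ∧ N ≤ B x p) := by
    intro x hx hxU' hxk hxp hpos
    by_cases hxU : x ∈ U
    · right
      refine ⟨hxU, ?_⟩
      have h1 : ¬ 0 < B p x := fun h => hxU' (Finset.mem_filter.mpr ⟨hxU, h⟩)
      rcases hfork.ab p hpS x hx hxp.symm with h | h
      · omega
      · exact h
    · left
      refine ⟨hxU, ?_⟩
      rcases hknown x hx hxU with h | h
      · omega
      · exfalso
        have h2 := hpy x hx hxU hxk (by omega)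
        rw [hsy'' x hx hxp hxk, pos_n (show B x p ≤ 0 by have := hB x p; omega)] at hpos
        omega
  refine ⟨hf2, ?_, ?_, ?_, ?_, ?_, ?_⟩
  · exact (Finset.filter_subset _ _).trans hsub
  · -- known
    intro x hx hxU'
    by_cases hxk : x = k
    · subst hxk
      right
      rw [hsk'']
      nlinarith
    by_cases hxp : x = p
    · subst hxp
      left
      exact hspbig
    rw [hsy'' x hx hxp hxk]
    have h0 := pos_nn (B x p)
    by_cases hxU : x ∈ U
    · left
      have h1 : ¬ 0 < B p x := fun h => hxU' (Finset.mem_filter.mpr ⟨hxU, h⟩)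
      rcases hfork.ab p hpS x hx (Ne.symm hxp) with h | h
      · omega
      · rw [pos_p (show 0 < B x p by omega)]
        have h3 := (abs_le.mp (hmax x hxU)).1
        nlinarith
    · rcases hknown x hx hxU with h | h
      · left
        nlinarith
      · right
        have h2 := hpy x hx hxU hxk (by omega)
        rw [pos_n (show B x p ≤ 0 by have := hB x p; omega)]
        omega
  · -- pu
    intro x hx u hu hxU' hxk hpos
    obtain ⟨huU, hpu0⟩ := Finset.mem_filter.mp hu
    have huS := hUS u huU
    have huk := hUk u huU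
    have hup : u ≠ p := by
      rintro rfl
      have := hself u
      omega
    have hku := hkU' u huU
    by_cases hxp : x = p
    · subst hxp
      rw [hpy'' u huS hup huk, mutB_ne B hpk.symm hup, pos_p (show 0 < B k x by omega),
        pos_p hpu0, pos_n (show -(B k x) ≤ 0 by omega)]
      have h1 : 0 < B k x * B k u := by nlinarith
      have h2 : B x u < B k x * (B k x * B x u) := by
        have h3 : B x u < B k x * B x u := by nlinarith
        nlinarith
      nlinarith
    · rw [hxy'' x hx u huS hxp hxk hup huk, mutB_ne B hxp hup, pos_p hpu0,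
        pos_n (show -(B p u) ≤ 0 by omega)]
      have h0 := pos_nn (B x p)
      rcases hposi x hx hxU' hxk hxp hpos with ⟨hxU, hxv⟩ | ⟨hxU, hxp'⟩
      · have := hpu x hx u huU hxU hxk hxv
        nlinarith
      · rw [pos_p (show 0 < B x p by omega)]
        have hxu : x ≠ u := by
          rintro rfl
          have := hB x p
          omega
        rcases hfork.ab x hx u huS hxu with h | h
        · nlinarith
        · exfalso
          rcases hfork.cyc x hx p hpS u huS (by omega) hpu0 (by omega) with h | h | h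
          · exact hxk h
          · exact hpk h
          · exact huk h
  · -- pn
    intro x hx y hy hxU' hyU' hxk hyk hpos hneg'
    obtain ⟨hyU, hyp, hyv, hpy0⟩ := hneg y hy hyU' hyk hneg'
    by_cases hxp : x = p
    · subst hxp
      rw [hpy'' y hy hyp hyk, mutB_ne B hpk.symm hyp, pos_p (show 0 < B k x by omega),
        pos_p hpy0, pos_n (show -(B k x) ≤ 0 by omega)]
      rcases hfork.ab k hkS y hy (Ne.symm hyk) with h | h
      · have h1 : 0 < B k x * B k y := by nlinarith
        have h3 : B x y < B k x * B x y := by nlinarith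
        nlinarith
      · obtain ⟨h5, h6⟩ := hfork.big y hy x hpS (by omega) (by omega)
        have h7 := hB k y
        have h8 : B k y > - B x y := by omega
        have h9 : 3 * B x y ≤ B k x * B x y := by nlinarith
        have h10 : 2 * B x y ≤ B k y + B k x * B x y := by omega
        nlinarith
    · rw [hxy'' x hx y hy hxp hxk hyp hyk, mutB_ne B hxp hyp, pos_p hpy0,
        pos_n (show -(B p y) ≤ 0 by omega)]
      have h0 := pos_nn (B x p)
      rcases hposi x hx hxU' hxk hxp hpos with ⟨hxU, hxv⟩ | ⟨hxU, hxp'⟩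
      · have := hpn x hx y hy hxU hyU hxk hyk hxv hyv
        nlinarith
      · have := hun x hxU y hy hyU hyk hyv
        nlinarith
  · -- un
    intro u hu y hy hyU' hyk hneg'
    obtain ⟨hyU, hyp, hyv, hpy0⟩ := hneg y hy hyU' hyk hneg'
    obtain ⟨huU, hpu0⟩ := Finset.mem_filter.mp hu
    have huS := hUS u huU
    have huk := hUk u huU
    have hup : u ≠ p := by
      rintro rfl
      have := hself u
      omega
    rw [hxy'' u huS y hy hup huk hyp hyk, mutB_ne B hup hyp, pos_p hpy0,
      pos_n (show -(B p y) ≤ 0 by omega)]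
    have h0 := pos_nn (B u p)
    have := hun u huU y hy hyU hyk hyv
    nlinarith
  · -- side
    left
    refine ⟨by rw [hsk'']; omega, ?_⟩
    intro y hy hky
    by_cases hyk : y = k
    · subst hyk
      have := skew_self (skew_mutB (skew_mutB hB p) y) y
      omega
    by_cases hyp : y = p
    · subst hyp
      refine ⟨?_, ?_, ?_⟩
      · intro h
        have h1 := (Finset.mem_filter.mp h).2
        have := hself y
        omega
      · rw [hsk'', hsp'']
        nlinarith
      · rw [hsp'', mutB_left, hbkp']
        have h1 : 0 < B k y * (B k y * B y v) := by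
          have : 0 < B k y * B y v := by nlinarith
          nlinarith
        have h2 : 2 * B k y ≤ B k y * B k v := by nlinarith
        have h3 : B y v < B k y * (B k y * B y v) := by
          have h4 : 3 * B y v ≤ B k y * B y v := by nlinarith
          nlinarith
        nlinarith
    · exfalso
      rw [mutB_left] at hky
      have := hky' y hy hyp hyk
      omega

end Pool.Agent.R60.FK
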