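import Pool.Agent.R60.FK.Stm

/-! # Project FK, piece STEP: mutation of a fork away from the point of return -/

namespace Pool.Agent.R60.FK

open Pool.Agent.R60.SC

namespace StepAux

variable {V : Type} [DecidableEq V] {B : V → V → ℤ}

theorem mskew (hB : Skew B) (k : V) : Skew (mutB k B) := by
  intro i j
  unfold mutB
  by_cases h : i = k ∨ j = k
  · have h' : j = k ∨ i = k := h.symm
    rw [if_pos h, if_pos h', hB i j]
  · have h' : ¬ (j = k ∨ i = k) := fun e => h e.symm
    rw [if_neg h, if_neg h']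
    have e1 : B i k = - B k i := hB i k
    have e2 : B k j = - B j k := hB k j
    rw [hB i j, e1, e2, neg_neg, neg_neg]
    ring

theorem diag (hB : Skew B) (k : V) : B k k = 0 := by
  have := hB k k
  omega

theorem ne_of (hB : Skew B) {i j : V} (h : 0 < B i j) : i ≠ j := by
  rintro rfl
  have := diag hB i
  omega

theorem mleft (hB : Skew B) (k j : V) : mutB k B k j = B j k := by
  unfold mutB
  rw [if_pos (Or.inl rfl), hB k j, neg_neg]

theorem mright (hB : Skew B) (k i : V) : mutB k B i k = B k i := by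
  unfold mutB
  rw [if_pos (Or.inr rfl), hB i k, neg_neg]

theorem pos_of {x : ℤ} (h : 0 ≤ x) : pos x = x := max_eq_left h

theorem pos_of' {x : ℤ} (h : x ≤ 0) : pos x = 0 := max_eq_right h

theorem msp (hB : Skew B) {k i j : V} (hi : 0 < B i k) (hj : 0 < B k j) :
    mutB k B i j = B i j + B i k * B k j := by
  have h1 : ¬ (i = k ∨ j = k) := by
    rintro (h | h)
    · exact ne_of hB hi h
    · exact ne_of hB hj h.symm
  unfold mutB
  rw [if_neg h1, pos_of hi.le, pos_of hj.le, pos_of' (by omega : -(B i k) ≤ 0)]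
  ring

theorem mss (hB : Skew B) {k i j : V} (hi : 0 < B i k) (hj : 0 < B j k) :
    mutB k B i j = B i j := by
  have h1 : ¬ (i = k ∨ j = k) := by
    rintro (h | h)
    · exact ne_of hB hi h
    · exact ne_of hB hj h
  have e := hB k j
  unfold mutB
  rw [if_neg h1, pos_of' (by omega : B k j ≤ 0), pos_of' (by omega : -(B i k) ≤ 0)]
  ring

theorem mpp (hB : Skew B) {k i j : V} (hi : 0 < B k i) (hj : 0 < B k j) :
    mutB k B i j = B i j := by
  have h1 : ¬ (i = k ∨ j = k) := by
    rintro (h | h)
    · exact ne_of hB hi h.symm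
    · exact ne_of hB hj h.symm
  have e := hB i k
  unfold mutB
  rw [if_neg h1, pos_of' (by omega : B i k ≤ 0), pos_of' (by omega : -(B k j) ≤ 0)]
  ring

variable {N : ℤ} {S : Finset V} {r k : V}

theorem ge_of (hN : 2 ≤ N) (hB : Skew B) (h : ForkOn N B S r) {a c : V} (ha : a ∈ S) (hc : c ∈ S)
    (hac : 0 < B a c) : N ≤ B a c := by
  have := hB a c
  rcases h.ab a ha c hc (ne_of hB hac) with h | h <;> omega

theorem c1 (hN : 2 ≤ N) (hB : Skew B) (h : ForkOn N B S r) (hkS : k ∈ S) (hk : k ≠ r) {a c : V}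
    (haS : a ∈ S) (hcS : c ∈ S) (ha : 0 < B a k) (hc : 0 < B k c) :
    B a k < mutB k B a c ∧ B k c < mutB k B a c := by
  have ha2 : N ≤ B a k := ge_of hN hB h haS hkS ha
  have hc2 : N ≤ B k c := ge_of hN hB h hkS hcS hc
  have hne : a ≠ c := by
    rintro rfl
    have := hB a k
    omega
  rw [msp hB ha hc]
  have s := hB a c
  rcases h.ab a haS c hcS hne with h1 | h1
  · constructor <;> nlinarith
  · rcases h.cyc a haS k hkS c hcS ha hc (by omega) with e | e | e
    · subst e
      obtain ⟨h2, h3⟩ := h.big c hcS k hkS (by omega) ha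
      constructor <;> nlinarith
    · exact absurd e hk
    · subst e
      obtain ⟨h2, h3⟩ := h.big k hkS a haS hc (by omega)
      constructor <;> nlinarith

theorem no_source (hN : 2 ≤ N) (hB : Skew B) (h : ForkOn N B S r) (hkS : k ∈ S) :
    ∃ l ∈ S, 0 < B l k := by
  by_cases hk : k = r
  · subst hk; exact h.hp
  · rcases h.ab k hkS r h.mem hk with h1 | h1
    · obtain ⟨j, hjS, hj⟩ := h.hs
      have := (h.big k hkS j hjS (by omega) hj).1
      exact ⟨j, hjS, by omega⟩
    · exact ⟨r, h.mem, by omega⟩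

theorem no_sink (hN : 2 ≤ N) (hB : Skew B) (h : ForkOn N B S r) (hkS : k ∈ S) :
    ∃ l ∈ S, 0 < B k l := by
  by_cases hk : k = r
  · subst hk; exact h.hs
  · rcases h.ab k hkS r h.mem hk with h1 | h1
    · exact ⟨r, h.mem, by omega⟩
    · obtain ⟨i, hiS, hi⟩ := h.hp
      have := (h.big i hiS k hkS hi (by omega)).1
      exact ⟨i, hiS, by omega⟩

theorem no_cyc_ss (hB : Skew B) (h : ForkOn N B S r) (hkS : k ∈ S) {z : V} (hzS : z ∈ S)
    (hr : 0 < B r k) (hz : 0 < B z k) (h3 : 0 < B z r) : False := by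
  have := (h.big z hzS k hkS h3 hr).1
  have s := hB z k
  omega

theorem no_cyc_pp (hB : Skew B) (h : ForkOn N B S r) (hkS : k ∈ S) {y : V} (hyS : y ∈ S)
    (hr : 0 < B k r) (hy : 0 < B k y) (h1 : 0 < B r y) : False := by
  have := (h.big k hkS y hyS hr h1).1
  have s := hB y k
  omega

end StepAux

open StepAux

theorem step_main : StepStm := by
  intro V _ N B S r k hN hB h hkS hk
  have key : ∀ a ∈ S, ∀ c ∈ S, 0 < B a k → 0 < B k c →
      B a k < mutB k B a c ∧ B k c < mutB k B a c :=
    fun a ha c hc h1 h2 => c1 hN hB h hkS hk ha hc h1 h2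
  have typ : ∀ x ∈ S, x ≠ k → N ≤ B x k ∨ N ≤ B k x := fun x hx hxk => h.ab x hx k hkS hxk
  have hsk := mskew hB k
  refine ⟨hkS, ?_, ?_, ?_, ?_, ?_⟩
  · intro i hiS j hjS hij
    by_cases hi : i = k
    · subst hi
      rw [mleft hB, mright hB]
      rcases h.ab i hiS j hjS hij with h1 | h1
      · exact Or.inr h1
      · exact Or.inl h1
    by_cases hj : j = k
    · subst hj
      rw [mleft hB, mright hB]
      rcases h.ab i hiS j hjS hij with h1 | h1
      · exact Or.inr h1
      · exact Or.inl h1
    rcases typ i hiS hi with h1 | h1 <;> rcases typ j hjS hj with h2 | h2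
    · rw [mss hB (by omega) (by omega), mss hB (by omega) (by omega)]
      exact h.ab i hiS j hjS hij
    · left
      have := (key i hiS j hjS (by omega) (by omega)).1
      omega
    · right
      have := (key j hjS i hiS (by omega) (by omega)).1
      omega
    · rw [mpp hB (by omega) (by omega), mpp hB (by omega) (by omega)]
      exact h.ab i hiS j hjS hij
  · intro i hiS j hjS hi hj
    rw [mright hB] at hi
    rw [mleft hB] at hj
    have := key j hjS i hiS (by omega) (by omega)
    rw [mright hB, mleft hB]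
    constructor <;> omega
  · intro x hxS y hyS z hzS hxy hyz hzx
    by_contra hcon
    simp only [not_or] at hcon
    obtain ⟨hx, hy, hz⟩ := hcon
    have bad : ∀ u ∈ S, ∀ w ∈ S, N ≤ B k u → N ≤ B w k → ¬ 0 < mutB k B u w := by
      intro u huS w hwS hu hw h0
      have := (key w hwS u huS (by omega) (by omega)).1
      have s := hsk u w
      omega
    rcases typ x hxS hx with h1 | h1 <;> rcases typ y hyS hy with h2 | h2 <;>
      rcases typ z hzS hz with h3 | h3
    · rw [mss hB (by omega) (by omega)] at hxy hyz hzx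
      rcases h.cyc x hxS y hyS z hzS hxy hyz hzx with e | e | e
      · subst e; exact no_cyc_ss hB h hkS hzS (by omega) (by omega) hzx
      · subst e; exact no_cyc_ss hB h hkS hxS (by omega) (by omega) hxy
      · subst e; exact no_cyc_ss hB h hkS hyS (by omega) (by omega) hyz
    · exact bad z hzS x hxS h3 h1 hzx
    · exact bad y hyS z hzS h2 h3 hyz
    · exact bad z hzS x hxS h3 h1 hzx
    · exact bad x hxS y hyS h1 h2 hxy
    · exact bad x hxS y hyS h1 h2 hxy
    · exact bad y hyS z hzS h2 h3 hyz
    · rw [mpp hB (by omega) (by omega)] at hxy hyz hzx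
      rcases h.cyc x hxS y hyS z hzS hxy hyz hzx with e | e | e
      · subst e; exact no_cyc_pp hB h hkS hyS (by omega) (by omega) hxy
      · subst e; exact no_cyc_pp hB h hkS hzS (by omega) (by omega) hyz
      · subst e; exact no_cyc_pp hB h hkS hxS (by omega) (by omega) hzx
  · obtain ⟨l, hlS, hl⟩ := no_sink hN hB h hkS
    exact ⟨l, hlS, by rw [mright hB]; exact hl⟩
  · obtain ⟨l, hlS, hl⟩ := no_source hN hB h hkS
    exact ⟨l, hlS, by rw [mleft hB]; exact hl⟩

end Pool.Agent.R60.FK
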