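import Pool.Agent.R60.FK.Stm

/-!
# Project FK: FK-UNB, infinite mutation class implies unbounded entries
-/

namespace Pool.Agent.R60.FK

open Pool.Agent.R60.SC

namespace UnbAux

variable {V : Type} [DecidableEq V]

theorem skew_mut {B : V → V → ℤ} (hB : Skew B) (k : V) : Skew (mutB k B) := by
  intro i j
  have e1 := hB i j
  have e2 := hB i k
  have e3 := hB k j
  unfold mutB
  by_cases h : i = k ∨ j = k
  · rw [if_pos h, if_pos h.symm]
    omega
  · rw [if_neg h, if_neg (fun h' => h h'.symm)]
    have e4 : B j k = - B k j := by rw [hB j k]
    have e5 : B k i = - B i k := by rw [hB k i]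
    rw [e4, e5, e1, neg_neg, neg_neg]
    ring

theorem skew_run (w : List V) : ∀ {B : V → V → ℤ}, Skew B → Skew (runB w B) := by
  induction w with
  | nil => intro B hB; exact hB
  | cons k w ih => intro B hB; exact ih (skew_mut hB k)

theorem unb1 [Fintype V] (B : V → V → ℤ) (hB : Skew B) (hinf : MutInf B) (M : ℤ) :
    ∃ (w : List V) (i j : V), M ≤ runB w B i j := by
  by_contra hcon
  push Not at hcon
  apply hinf
  have hfin : Set.Finite (Set.pi Set.univ (fun _ : V => Set.pi Set.univ
      (fun _ : V => Set.Icc (-M) M))) :=
    Set.Finite.pi (fun _ => Set.Finite.pi (fun _ => Set.finite_Icc _ _))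
  refine hfin.subset ?_
  rintro B' ⟨w, rfl⟩ i _ j _
  have h1 := hcon w i j
  have h2 := hcon w j i
  have h3 := skew_run w hB i j
  constructor <;> omega

theorem unb2 (B : V → V → ℤ) (hB : Skew B) (hinf : MutInf B) (i j : V) :
    ∃ k : V, k ≠ i ∧ k ≠ j := by
  by_contra hcon
  push Not at hcon
  have hd : ∀ x : V, B x x = 0 := by
    intro x
    have := hB x x
    omega
  have hneg : ∀ (C : V → V → ℤ), Skew C → ∀ k, mutB k C = fun x y => - C x y := by
    intro C hC k
    have hd' : ∀ x : V, C x x = 0 := by
      intro x
      have := hC x x
      omega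
    funext x y
    unfold mutB
    by_cases h : x = k ∨ y = k
    · rw [if_pos h]
    · rw [if_neg h]
      push Not at h
      have hxy : x = y := by
        by_cases hk : k = i
        · have h1 : x = j := hcon x (by rw [← hk]; exact h.1)
          have h2 : y = j := hcon y (by rw [← hk]; exact h.2)
          rw [h1, h2]
        · have h3 : k = j := hcon k hk
          have h1 : x = i := by
            by_contra hxi
            exact h.1 (by rw [hcon x hxi, h3])
          have h2 : y = i := by
            by_contra hyi
            exact h.2 (by rw [hcon y hyi, h3])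
          rw [h1, h2]
      subst hxy
      have e1 := hC k x
      rw [e1, hd' x]
      unfold pos
      rcases le_total 0 (C x k) with h3 | h3
      · simp [max_eq_right (neg_nonpos.2 h3)]
      · simp [max_eq_right h3]
  apply hinf
  refine (Set.toFinite ({B, fun x y => - B x y} : Set (V → V → ℤ))).subset ?_
  rintro B' ⟨w, rfl⟩
  have key : ∀ (w : List V) (C : V → V → ℤ), (C = B ∨ C = fun x y => - B x y) →
      (runB w C = B ∨ runB w C = fun x y => - B x y) := by
    intro w
    induction w with
    | nil => intro C hC; exact hC
    | cons k w ih =>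
      intro C hC
      show runB w (mutB k C) = B ∨ runB w (mutB k C) = fun x y => - B x y
      apply ih
      rcases hC with rfl | rfl
      · right
        exact hneg _ hB k
      · left
        rw [hneg _ (fun x y => by show - B x y = - - B y x; have := hB x y; omega) k]
        funext x y
        simp
  rcases key w B (Or.inl rfl) with h | h
  · rw [h]; simp
  · rw [h]; simp

end UnbAux

/-- FK-UNB. -/
theorem unb_main : UnbStm := by
  intro V _ _ B hB hinf
  exact ⟨fun M => UnbAux.unb1 B hB hinf M, fun i j => UnbAux.unb2 B hB hinf i j⟩

end Pool.Agent.R60.FK
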