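import Pool.Agent.R60.FK.Unb

/-!
# Project FK: FK-WARK, connected mutation-infinite quivers are mutation-equivalent to a fork
-/

namespace Pool.Agent.R60.FK

open Pool.Agent.R60.SC

namespace WarkAux

variable {V : Type} [DecidableEq V]

theorem runB_append (w₁ : List V) : ∀ (w₂ : List V) (B : V → V → ℤ),
    runB (w₁ ++ w₂) B = runB w₂ (runB w₁ B) := by
  induction w₁ with
  | nil => intro w₂ B; rfl
  | cons k w ih =>
    intro w₂ B
    exact ih w₂ (mutB k B)

omit [DecidableEq V] in
theorem ForkOn.mono {N M : ℤ} {B : V → V → ℤ} {S : Finset V} {r : V} (h : ForkOn N B S r)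
    (hMN : M ≤ N) : ForkOn M B S r where
  mem := h.mem
  ab := by
    intro x hx y hy hxy
    rcases h.ab x hx y hy hxy with h2 | h2
    · left; omega
    · right; omega
  big := h.big
  cyc := h.cyc
  hp := h.hp
  hs := h.hs

theorem grow [Fintype V] (hE : ExtStm) (hC : ConStm) (d : ℕ) : ∀ (N : ℤ) (B : V → V → ℤ)
    (S : Finset V) (r : V), Skew B → Conn B → (Finset.univ \ S).card = d → (d : ℤ) + 2 ≤ N →
    ForkOn N B S r → ∃ (w : List V) (r : V), ForkOn 2 (runB w B) Finset.univ r := by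
  induction d with
  | zero =>
    intro N B S r hB hc hd hN hF
    have hS : S = Finset.univ := by
      rw [Finset.card_eq_zero, Finset.sdiff_eq_empty_iff_subset] at hd
      exact Finset.univ_subset_iff.1 hd
    subst hS
    exact ⟨[], r, ForkOn.mono hF (by push_cast at hN; omega)⟩
  | succ d ih =>
    intro N B S r hB hc hd hN hF
    have hne : (S : Set V) ≠ Set.univ := by
      intro h
      have : S = Finset.univ := Finset.coe_eq_univ.1 h
      rw [this] at hd
      simp at hd
    obtain ⟨x, hx, y, hy, hxy⟩ := hc (S : Set V) ⟨r, hF.mem⟩ hne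
    have hy' : y ∉ S := fun h => hy h
    obtain ⟨B', k, ⟨w, hw, rfl⟩, hF'⟩ := hE V N B S r y (by push_cast at hN; omega) hB hF hy'
      ⟨x, hx, hxy⟩
    have hd' : (Finset.univ \ insert y S).card = d := by
      have h1 : Finset.univ \ insert y S = (Finset.univ \ S).erase y := by
        ext z
        simp only [Finset.mem_sdiff, Finset.mem_univ, true_and, Finset.mem_insert,
          Finset.mem_erase, not_or]
      rw [h1, Finset.card_erase_of_mem (by simp [hy'])]
      omega
    obtain ⟨w₂, r', hr'⟩ := ih (N - 1) (runB w B) (insert y S) k (UnbAux.skew_run w hB)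
      (hC V B hB hc w) hd' (by push_cast at hN; omega) hF'
    exact ⟨w ++ w₂, r', by rw [runB_append]; exact hr'⟩

end WarkAux

/-- FK-WARK. -/
theorem wark_main : StepStm → ExtStm → Rank3Stm → UnbStm → ConStm → WarkStm := by
  intro _ hE hR hU hC V _ _ B hB hc hinf
  obtain ⟨hU1, hU2⟩ := hU V B hB hinf
  obtain ⟨w₀, i, j, hij⟩ := hU1 ((Fintype.card V : ℤ) + 3 + 1)
  have hB₀ := UnbAux.skew_run w₀ hB
  have hc₀ := hC V B hB hc w₀
  have hne : i ≠ j := by
    rintro rfl
    have := hB₀ i i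
    omega
  obtain ⟨k₀, hk₀i, hk₀j⟩ := hU2 i j
  obtain ⟨x, hx, k, hk, hxk⟩ := hc₀ ({i, j} : Set V) ⟨i, by simp⟩ (by
    intro h
    have : k₀ ∈ ({i, j} : Set V) := by rw [h]; trivial
    simp [hk₀i, hk₀j] at this)
  simp only [Set.mem_insert_iff, Set.mem_singleton_iff, not_or] at hx hk
  obtain ⟨B', r, ⟨w₁, _, rfl⟩, hF⟩ := hR V ((Fintype.card V : ℤ) + 3) (runB w₀ B) i j k
    (by omega) hB₀ hne (Ne.symm hk.1) (Ne.symm hk.2) hij (by
      rcases hx with rfl | rfl
      · exact Or.inl hxk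
      · exact Or.inr hxk)
  have hB₁ := UnbAux.skew_run w₁ hB₀
  have hc₁ := hC V (runB w₀ B) hB₀ hc₀ w₁
  obtain ⟨w₂, r', hr'⟩ := WarkAux.grow hE hC (Finset.univ \ ({i, j, k} : Finset V)).card
    ((Fintype.card V : ℤ) + 3) _ _ r hB₁ hc₁ rfl (by
      have h1 : (Finset.univ \ ({i, j, k} : Finset V)).card ≤ Fintype.card V :=
        Finset.card_le_univ _
      have h2 : ((Finset.univ \ ({i, j, k} : Finset V)).card : ℤ) ≤ (Fintype.card V : ℤ) := by
        exact_mod_cast h1
      omega) hF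
  refine ⟨w₀ ++ (w₁ ++ w₂), r', ?_⟩
  rw [WarkAux.runB_append, WarkAux.runB_append]
  exact hr'

end Pool.Agent.R60.FK
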