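import Mathlib
import Pool.Agent.R60.SC.Main
import Pool.Agent.R60.FK.Step
import Pool.Agent.R60.FK.Mirror
import Pool.Agent.R60.FK.Rank3
import Pool.Agent.R60.FK.Unb
import Pool.Agent.R60.FK.Conn
import Pool.Agent.R60.FK.Wark
import Pool.Agent.R60.FK.Last
import Pool.Agent.R60.FK.All
import Pool.Agent.R60.FK.Quiv
import Pool.Agent.R60.FK.RedA
import Pool.Agent.R60.FK.RedB
import Pool.Agent.R60.FK.Red
import Pool.Agent.R60.FK.InitP
import Pool.Agent.R60.FK.Init
import Pool.Agent.R60.FK.Ext

/-!
# Project FK: assembly
-/

namespace Pool.Agent.R60.FK

open Pool.Agent.R60.SC

/-- Every connected mutation-infinite quiver is mutation-equivalent to a fork. -/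
theorem wark : WarkStm :=
  wark_main step_main
    (ext_main mirror_main
      (init_main step_main mirror_main (initp_main step_main))
      (red_main step_main mirror_main (reda_main step_main) (redb_main step_main)))
    (rank3_main step_main mirror_main) unb_main con_main

/-- In a connected mutation-infinite quiver every vertex can be the last one. -/
theorem all_last : AllStm := all_main step_main wark last_main

/-- The statement for quivers. -/
theorem quiv : QuivStm := quiv_main all_last

end Pool.Agent.R60.FK
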