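import Mathlib
import Pool.Agent.R60.FK.Main

/-! # Green sequences for forks: the last green vertex -/

namespace Pool.Agent.R60.FK

open Pool.Agent.R60.SC Pool.Agent.R60.SC.KK

namespace GG

variable {V : Type} [DecidableEq V]

/-- The vertices other than `v` can be listed so that no arrow goes backwards. -/
def AcyM (B : V → V → ℤ) (v : V) : Prop :=
  ∃ l : List V, l.Nodup ∧ (∀ x, x ∈ l ↔ x ≠ v) ∧ l.Pairwise (fun x y => 0 ≤ B x y ∧ B y x ≤ 0)

theorem pos_np {x : ℤ} (h : x ≤ 0) : pos x = 0 := max_eq_right h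

theorem mutR_keep {B : V → V → ℤ} {c : V → ℤ} {a x : V} (hx : x ≠ a) (h : B x a ≤ 0)
    (hc : 0 ≤ c a) : mutR a B c x = c x := by
  unfold mutR
  rw [if_neg hx, pos_np h, pos_np (x := -(c a)) (by omega)]
  ring

theorem mutB_keep {B : V → V → ℤ} {a x y : V} (hx : x ≠ a) (hy : y ≠ a) (h : B x a ≤ 0)
    (h' : 0 ≤ B a y) : mutB a B x y = B x y := by
  unfold mutB
  rw [if_neg (by tauto), pos_np h, pos_np (x := -(B a y)) (by omega)]
  ring

theorem tail_pw {a : V} {l : List V} {B : V → V → ℤ} (hn : (a :: l).Nodup)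
    (hp : (a :: l).Pairwise (fun x y => 0 ≤ B x y ∧ B y x ≤ 0)) :
    l.Pairwise (fun x y => 0 ≤ mutB a B x y ∧ mutB a B y x ≤ 0) := by
  rw [List.pairwise_cons] at hp
  rw [List.nodup_cons] at hn
  refine List.Pairwise.imp_of_mem ?_ hp.2
  intro x y hx hy hxy
  have hxa : x ≠ a := fun h => hn.1 (h ▸ hx)
  have hya : y ≠ a := fun h => hn.1 (h ▸ hy)
  have h1 := hp.1 x hx
  have h2 := hp.1 y hy
  rw [mutB_keep hxa hya h1.2 h2.1, mutB_keep hya hxa h2.2 h1.1]
  exact hxy

theorem run_out : ∀ (l : List V) (B : V → V → ℤ) (c : V → ℤ), l.Nodup →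
    l.Pairwise (fun x y => 0 ≤ B x y ∧ B y x ≤ 0) → (∀ x ∈ l, 0 ≤ c x) →
    ∀ d, d ∉ l → (∀ x ∈ l, B d x ≤ 0) → runR l B c d = c d := by
  intro l
  induction l with
  | nil => intro B c _ _ _ d _ _; rfl
  | cons a l ih =>
    intro B c hn hp hc d hd hB
    have hn' := hn
    have hp' := hp
    rw [List.pairwise_cons] at hp'
    rw [List.nodup_cons] at hn'
    have hda : d ≠ a := fun h => hd (by rw [h]; simp)
    have hdl : d ∉ l := fun h => hd (by simp [h])
    have hca : 0 ≤ c a := hc a (by simp)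
    have hBa : B d a ≤ 0 := hB a (by simp)
    show runR l (mutB a B) (mutR a B c) d = c d
    rw [ih _ _ hn'.2 (tail_pw hn hp) ?_ d hdl ?_, mutR_keep hda hBa hca]
    · intro x hx
      have hxa : x ≠ a := fun h => hn'.1 (h ▸ hx)
      rw [mutR_keep hxa (hp'.1 x hx).2 hca]
      exact hc x (by simp [hx])
    · intro x hx
      have hxa : x ≠ a := fun h => hn'.1 (h ▸ hx)
      rw [mutB_keep hda hxa hBa (hp'.1 x hx).1]
      exact hB x (by simp [hx])

theorem run_in : ∀ (l : List V) (B : V → V → ℤ) (c : V → ℤ), l.Nodup →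
    l.Pairwise (fun x y => 0 ≤ B x y ∧ B y x ≤ 0) → (∀ x ∈ l, 0 ≤ c x) →
    ∀ d ∈ l, runR l B c d = - c d := by
  intro l
  induction l with
  | nil => intro B c _ _ _ d hd; simp at hd
  | cons a l ih =>
    intro B c hn hp hc d hd
    have hn' := hn
    have hp' := hp
    rw [List.pairwise_cons] at hp'
    rw [List.nodup_cons] at hn'
    have hca : 0 ≤ c a := hc a (by simp)
    have hnn : ∀ x ∈ l, 0 ≤ mutR a B c x := by
      intro x hx
      have hxa : x ≠ a := fun h => hn'.1 (h ▸ hx)
      rw [mutR_keep hxa (hp'.1 x hx).2 hca]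
      exact hc x (by simp [hx])
    show runR l (mutB a B) (mutR a B c) d = - c d
    by_cases hda : d = a
    · subst hda
      rw [run_out l _ _ hn'.2 (tail_pw hn hp) hnn d hn'.1 ?_]
      · unfold mutR
        rw [if_pos rfl]
      · intro x hx
        have h1 : mutB d B d x = - B d x := by
          unfold mutB
          rw [if_pos (Or.inl rfl)]
        rw [h1]
        have := (hp'.1 x hx).1
        omega
    · have hdl : d ∈ l := by
        rcases List.mem_cons.1 hd with h | h
        · exact absurd h hda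
        · exact h
      rw [ih _ _ hn'.2 (tail_pw hn hp) hnn d hdl, mutR_keep hda (hp'.1 d hdl).2 hca]

theorem run_pre : ∀ (l : List V) (B : V → V → ℤ) (c : V → ℤ), l.Nodup →
    l.Pairwise (fun x y => 0 ≤ B x y ∧ B y x ≤ 0) → (∀ x ∈ l, 0 ≤ c x) →
    ∀ (p : List V) (k : V) (q : List V), l = p ++ k :: q → runR p B c k = c k := by
  intro l
  induction l with
  | nil => intro B c _ _ _ p k q h; simp at h
  | cons a l ih =>
    intro B c hn hp hc p k q h
    have hn' := hn
    have hp' := hp
    rw [List.pairwise_cons] at hp'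
    rw [List.nodup_cons] at hn'
    have hca : 0 ≤ c a := hc a (by simp)
    rcases p with _ | ⟨b, p⟩
    · rfl
    · rw [List.cons_append, List.cons.injEq] at h
      obtain ⟨rfl, h⟩ := h
      have hkl : k ∈ l := by rw [h]; simp
      have hka : k ≠ a := fun h' => hn'.1 (h' ▸ hkl)
      have hnn : ∀ x ∈ l, 0 ≤ mutR a B c x := by
        intro x hx
        have hxa : x ≠ a := fun h => hn'.1 (h ▸ hx)
        rw [mutR_keep hxa (hp'.1 x hx).2 hca]
        exact hc x (by simp [hx])
      show runR p (mutB a B) (mutR a B c) k = c k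
      rw [ih _ _ hn'.2 (tail_pw hn hp) hnn p k q h, mutR_keep hka (hp'.1 k hkl).2 hca]

theorem single_nn (k x : V) : 0 ≤ (Pi.single k (1 : ℤ) : V → ℤ) x := by
  by_cases h : x = k
  · subst h; simp
  · rw [Pi.single_eq_of_ne h]

/-- A green sequence after which all vertices other than `v` are red. -/
theorem green_lst (B : V → V → ℤ) (v : V) (h : AcyM B v ∨ AcyM (mutB v B) v) :
    ∃ w : List V, (∀ (p : List V) (k : V) (q : List V), w = p ++ k :: q → 0 < cRow p B k k) ∧
      ∀ i, i ≠ v → cRow w B i i < 0 := by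
  rcases h with ⟨l, hn, hm, hp⟩ | ⟨l, hn, hm, hp⟩
  · refine ⟨l, ?_, ?_⟩
    · intro p k q hw
      unfold cRow
      rw [run_pre l B _ hn hp (fun x _ => single_nn k x) p k q hw]
      simp
    · intro i hi
      unfold cRow
      rw [run_in l B _ hn hp (fun x _ => single_nn i x) i ((hm i).2 hi)]
      simp
  · refine ⟨v :: l, ?_, ?_⟩
    · intro p k q hw
      rcases p with _ | ⟨b, p⟩
      · unfold cRow runR
        simp
      · rw [List.cons_append, List.cons.injEq] at hw
        obtain ⟨rfl, hw⟩ := hw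
        have hkl : k ∈ l := by rw [hw]; simp
        have hkv : k ≠ v := (hm k).1 hkl
        show 0 < runR p (mutB v B) (mutR v B (Pi.single k 1)) k
        rw [mutR_zero v B _ (Pi.single_eq_of_ne (Ne.symm hkv) _),
          run_pre l _ _ hn hp (fun x _ => single_nn k x) p k q hw]
        simp
    · intro i hi
      show runR l (mutB v B) (mutR v B (Pi.single i 1)) i < 0
      rw [mutR_zero v B _ (Pi.single_eq_of_ne (Ne.symm hi) _),
        run_in l _ _ hn hp (fun x _ => single_nn i x) i ((hm i).2 hi)]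
      simp

theorem acy_fork [Fintype V] (B : V → V → ℤ) (hs : Skew B) (r : V)
    (hF : ForkOn 2 B Finset.univ r) : AcyM B r := by
  obtain ⟨l, hn, hm, hp⟩ := LL.exists_sorted B hs (Finset.univ.erase r)
    (by
      intro x _ y _ hxy
      rcases hF.ab x (Finset.mem_univ _) y (Finset.mem_univ _) hxy with h | h
      · left; omega
      · right; omega)
    (by
      intro x hx y hy z hz h1 h2
      by_contra h3
      have hxz : x ≠ z := by
        rintro rfl
        have := hs x y
        omega
      rcases hF.ab x (Finset.mem_univ _) z (Finset.mem_univ _) hxz with h | h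
      · omega
      · rcases hF.cyc x (Finset.mem_univ _) y (Finset.mem_univ _) z (Finset.mem_univ _) h1 h2
          (by omega) with e | e | e
        · exact (Finset.ne_of_mem_erase hx) e
        · exact (Finset.ne_of_mem_erase hy) e
        · exact (Finset.ne_of_mem_erase hz) e)
  refine ⟨l, hn, ?_, hp.imp (fun h => ⟨h.1.le, h.2.le⟩)⟩
  intro x
  rw [hm x]
  simp

end GG

end Pool.Agent.R60.FK
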