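import Mathlib
import Pool.Agent.R60.FK.Green

/-! # Form (ii) for forks -/

namespace Pool.Agent.R60.FK

open Pool.Agent.R60.SC

section
variable {V : Type} [DecidableEq V]

/-- `w` is a green sequence: every vertex of the word is green when it is mutated. -/
def GreenSeq (w : List V) (Q : Quiv V) : Prop :=
  ∀ (p : List V) (k : V) (q : List V), w = p ++ k :: q → IsGreen (afterWord p Q) k

/-- The red size: the maximum of the number of red vertices over all green sequences. -/
noncomputable def redSize (Q : Quiv V) : ℕ :=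
  sSup {n : ℕ | ∃ w : List V, GreenSeq w Q ∧ numRed w Q = n}

/-- `w` is a reddening sequence. -/
def Reddening (w : List V) (Q : Quiv V) : Prop := ∀ i, IsRed (afterWord w Q) i

/-- `v` is the only green vertex after the word `w`, all others are red. -/
def LastGreen (w : List V) (Q : Quiv V) (v : V) : Prop :=
  IsGreen (afterWord w Q) v ∧ ¬ IsRed (afterWord w Q) v ∧ ∀ i, i ≠ v → IsRed (afterWord w Q) i

/-- Form (ii): the red size is `|V| - 1`, and every vertex is the last remaining green vertex
after a green sequence which attains the red size. -/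
def FormII [Fintype V] (Q : Quiv V) : Prop :=
  redSize Q = Fintype.card V - 1 ∧
    ∀ v : V, ∃ w : List V, GreenSeq w Q ∧ numRed w Q = redSize Q ∧ LastGreen w Q v

/-- `Q` is acyclic off the vertex `v`: the other vertices can be numbered so that all arrows
between them go up. -/
def AcyclicOff (Q : Quiv V) (v : V) : Prop :=
  ∃ f : V → ℕ, ∀ x y, x ≠ v → y ≠ v → 0 < Q.arr x y → f x < f y

/-- `Q` is a fork with point of return `r`. -/
structure IsFork (Q : Quiv V) (r : V) : Prop where
  abundant : ∀ x y, x ≠ y → 2 ≤ Q.arr x y ∨ 2 ≤ Q.arr y x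
  into : ∃ x, 0 < Q.arr x r
  outof : ∃ y, 0 < Q.arr r y
  big : ∀ x y, 0 < Q.arr x r → 0 < Q.arr r y → Q.arr x r < Q.arr y x ∧ Q.arr r y < Q.arr y x
  acyclic : AcyclicOff Q r

/-- The quiver obtained by mutating along the word, from left to right. -/
def mutWord (w : List V) (Q : Quiv V) : Quiv V :=
  w.foldl (fun R k => R.mut (fun _ => false) k) Q

end

namespace GQ

variable {V : Type} [Fintype V] [DecidableEq V]

theorem mat_fold : ∀ (w : List V) (R : Quiv V), matQ (mutWord w R) = runB w (matQ R) := by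
  intro w
  induction w with
  | nil => intro R; rfl
  | cons k w ih =>
    intro R
    show matQ (mutWord w (R.mut (fun _ => false) k)) = runB w (mutB k (matQ R))
    rw [ih, (m_main V R).2.1 k]

theorem green_iff (Q : Quiv V) (w : List V) (i : V) :
    IsGreen (afterWord w Q) i ↔ ∃ j, 0 < cRow w (matQ Q) j i := by
  unfold IsGreen
  refine exists_congr fun j => ?_
  have h := (m_main V Q).2.2.2 w i j
  have h2 := (afterWord w Q).no_two_cycle (Sum.inl i) (Sum.inr j)
  rw [← h]
  omega

theorem numRed_last {Q : Quiv V} {w : List V} {v : V} (h : LastGreen w Q v) :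
    numRed w Q = Fintype.card V - 1 := by
  obtain ⟨_, h2, h1⟩ := h
  unfold numRed
  have h6 : {i : V | IsRed (afterWord w Q) i} = ({v} : Set V)ᶜ := by
    ext i
    constructor
    · intro hi hiv
      have : i = v := hiv
      subst this
      exact h2 hi
    · intro hi
      exact h1 i hi
  rw [h6]
  have h7 := Set.ncard_add_ncard_compl ({v} : Set V)
  rw [Set.ncard_singleton, Nat.card_eq_fintype_card] at h7
  omega

theorem numRed_lt {Q : Quiv V} (hno : ¬ ∃ w, Reddening w Q) (w : List V) :
    numRed w Q ≤ Fintype.card V - 1 := by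
  unfold Reddening at hno
  push Not at hno
  obtain ⟨i, hi⟩ := hno w
  show Set.ncard {i : V | IsRed (afterWord w Q) i} ≤ _
  have h8 : {i : V | IsRed (afterWord w Q) i} ⊆ ({i} : Set V)ᶜ := by
    intro k hk hki
    have : k = i := hki
    subst this
    exact hi hk
  have h9 := Set.ncard_le_ncard h8 (Set.toFinite _)
  have h7 := Set.ncard_add_ncard_compl ({i} : Set V)
  rw [Set.ncard_singleton, Nat.card_eq_fintype_card] at h7
  omega

theorem acyM_of {Q : Quiv V} {v : V} (h : AcyclicOff Q v) : GG.AcyM (matQ Q) v := by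
  obtain ⟨f, hf⟩ := h
  refine ⟨((Finset.univ.erase v).toList).mergeSort (fun x y => decide (f x ≤ f y)), ?_, ?_, ?_⟩
  · exact (List.mergeSort_perm _ _).nodup_iff.2 (Finset.nodup_toList _)
  · intro x
    rw [(List.mergeSort_perm _ _).mem_iff]
    simp
  · have hp := List.pairwise_mergeSort (le := fun x y => decide (f x ≤ f y))
      (by intro a b c h1 h2; simp only [decide_eq_true_eq] at *; omega)
      (by intro a b; simp only [Bool.or_eq_true, decide_eq_true_eq]; omega)
      ((Finset.univ.erase v).toList)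
    refine List.Pairwise.imp_of_mem ?_ hp
    intro x y hx hy hxy
    have hx' : x ≠ v := by
      rw [(List.mergeSort_perm _ _).mem_iff] at hx
      simpa using hx
    have hy' : y ≠ v := by
      rw [(List.mergeSort_perm _ _).mem_iff] at hy
      simpa using hy
    simp only [decide_eq_true_eq] at hxy
    have h0 : Q.arr y x = 0 := by
      by_contra hne
      have := hf y x hy' hx' (Nat.pos_of_ne_zero hne)
      omega
    unfold matQ
    omega

/-- Form (ii) when for every vertex `v`, `Q` or `μ_v Q` is acyclic off `v`. -/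
theorem formII_of (Q : Quiv V) (hno : ¬ ∃ w, Reddening w Q)
    (h : ∀ v, GG.AcyM (matQ Q) v ∨ GG.AcyM (mutB v (matQ Q)) v) : FormII Q := by
  have key : ∀ v : V, ∃ w : List V, GreenSeq w Q ∧ LastGreen w Q v := by
    intro v
    obtain ⟨w, hg, hr⟩ := GG.green_lst (matQ Q) v (h v)
    have h1 : ∀ i, i ≠ v → IsRed (afterWord w Q) i :=
      fun i hi => (isRed_iff m_main Q w i).2 ⟨i, hr i hi⟩
    have h2 : ¬ IsRed (afterWord w Q) v := by
      intro h
      refine hno ⟨w, fun i => ?_⟩
      by_cases hi : i = v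
      · rw [hi]; exact h
      · exact h1 i hi
    have h3 : IsGreen (afterWord w Q) v := by
      obtain ⟨j, hj⟩ := (sign_coherence V (matQ Q) (m_main V Q).1 w).2.1 v
      have h4 : ¬ cRow w (matQ Q) j v < 0 := fun h => h2 ((isRed_iff m_main Q w v).2 ⟨j, h⟩)
      exact (green_iff Q w v).2 ⟨j, by omega⟩
    exact ⟨w, fun p k q hw => (green_iff Q p k).2 ⟨k, hg p k q hw⟩, h3, h2, h1⟩
  have hne : Nonempty V := by
    unfold Reddening at hno
    push Not at hno
    obtain ⟨v, _⟩ := hno []
    exact ⟨v⟩
  obtain ⟨v⟩ := hne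
  have hG : IsGreatest {n : ℕ | ∃ w : List V, GreenSeq w Q ∧ numRed w Q = n}
      (Fintype.card V - 1) := by
    constructor
    · obtain ⟨w, hg, hl⟩ := key v
      exact ⟨w, hg, numRed_last hl⟩
    · rintro n ⟨w, _, rfl⟩
      exact numRed_lt hno w
  have hred : redSize Q = Fintype.card V - 1 := hG.csSup_eq
  refine ⟨hred, ?_⟩
  intro v
  obtain ⟨w, hg, hl⟩ := key v
  exact ⟨w, hg, (numRed_last hl).trans hred.symm, hl⟩

/-- Mutation invariance of the non-existence of reddening sequences. -/
theorem noRed_mut (Q : Quiv V) (k : V) (hno : ¬ ∃ w, Reddening w Q) :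
    ¬ ∃ w, Reddening w (Q.mut (fun _ => false) k) := by
  rintro ⟨w, hw⟩
  have h1 : numRed w (Q.mut (fun _ => false) k) = Fintype.card V := by
    unfold numRed
    have : {i : V | IsRed (afterWord w (Q.mut (fun _ => false) k)) i} = Set.univ := by
      ext i
      exact ⟨fun _ => trivial, fun _ => hw i⟩
    rw [this, Set.ncard_univ, Nat.card_eq_fintype_card]
  have h2 : numRed w (Q.mut (fun _ => false) k) ≤ uRed (Q.mut (fun _ => false) k) :=
    (uRed_isGreatest _).2 ⟨w, rfl⟩
  rw [uRed_mut] at h2
  obtain ⟨w', hw'⟩ := (uRed_isGreatest Q).1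
  have h3 := numRed_lt hno w'
  have h4 : numRed w' Q = uRed Q := hw'
  have hne : Nonempty V := by
    unfold Reddening at hno
    push Not at hno
    obtain ⟨v, _⟩ := hno []
    exact ⟨v⟩
  have h5 : 0 < Fintype.card V := Fintype.card_pos
  omega

theorem noRed_word : ∀ (w : List V) (Q : Quiv V), (¬ ∃ w, Reddening w Q) →
    ¬ ∃ w', Reddening w' (mutWord w Q) := by
  intro w
  induction w with
  | nil => intro Q h; exact h
  | cons k w ih => intro Q h; exact ih _ (noRed_mut Q k h)

theorem forkM_formII (Q : Quiv V) (r : V) (hF : ForkOn 2 (matQ Q) Finset.univ r)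
    (hno : ¬ ∃ w, Reddening w Q) : FormII Q := by
  have hs := (m_main V Q).1
  refine formII_of Q hno ?_
  intro v
  by_cases hv : v = r
  · subst hv
    exact Or.inl (GG.acy_fork _ hs v hF)
  · right
    have hs' : Skew (mutB v (matQ Q)) := by
      rw [← (m_main V Q).2.1 v]
      exact (m_main V _).1
    exact GG.acy_fork _ hs' v
      (step_main V 2 (matQ Q) Finset.univ r v le_rfl hs hF (Finset.mem_univ _) hv)

theorem fork_of (Q : Quiv V) (r : V) (h : IsFork Q r) : ForkOn 2 (matQ Q) Finset.univ r := by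
  obtain ⟨f, hf⟩ := h.acyclic
  have hm : ∀ x y, matQ Q x y = (Q.arr x y : ℤ) - (Q.arr y x : ℤ) := fun _ _ => rfl
  have h2 := Q.no_two_cycle
  refine ⟨Finset.mem_univ _, ?_, ?_, ?_, ?_, ?_⟩
  · intro x _ y _ hxy
    rw [hm, hm]
    have := h.abundant x y hxy
    have := h2 x y
    omega
  · intro x _ y _ hx hy
    rw [hm] at hx hy ⊢
    rw [hm, hm]
    have e1 := h2 x r
    have e2 := h2 r y
    have e3 := h2 y x
    have := h.big x y (by omega) (by omega)
    omega
  · intro x _ y _ z _ hx hy hz
    rw [hm] at hx hy hz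
    by_contra hcon
    push Not at hcon
    have e1 := hf x y hcon.1 hcon.2.1 (by omega)
    have e2 := hf y z hcon.2.1 hcon.2.2 (by omega)
    have e3 := hf z x hcon.2.2 hcon.1 (by omega)
    omega
  · obtain ⟨x, hx⟩ := h.into
    refine ⟨x, Finset.mem_univ _, ?_⟩
    rw [hm]
    have := h2 x r
    omega
  · obtain ⟨x, hx⟩ := h.outof
    refine ⟨x, Finset.mem_univ _, ?_⟩
    rw [hm]
    have := h2 x r
    omega

/-- Beyond a fork all quivers are forks. -/
theorem branch : ∀ (w : List V) (B : V → V → ℤ) (k : V), Skew B →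
    ForkOn 2 B Finset.univ k → List.IsChain (· ≠ ·) (k :: w) →
    ∃ r, ForkOn 2 (runB w B) Finset.univ r := by
  intro w
  induction w with
  | nil => intro B k _ hF _; exact ⟨k, hF⟩
  | cons a w ih =>
    intro B k hs hF hc
    rw [List.isChain_cons_cons] at hc
    exact ih (mutB a B) a (AllAux.skew_mut' hs a)
      (step_main V 2 B Finset.univ k a le_rfl hs hF (Finset.mem_univ _) (Ne.symm hc.1)) hc.2

end GQ

open GQ in
/-- Form (ii): the criterion, forks, and branches of every connected mutation-infinite class. -/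
theorem forms (V : Type) [Fintype V] [DecidableEq V] (Q : Quiv V)
    (hno : ¬ ∃ w, Reddening w Q) :
    ((∀ v, AcyclicOff Q v ∨ AcyclicOff (Q.mut (fun _ => false) v) v) → FormII Q) ∧
    (∀ r, IsFork Q r → FormII Q) ∧
    ((∀ X : Set V, X.Nonempty → X ≠ Set.univ →
        ∃ x ∈ X, ∃ y ∉ X, 0 < Q.arr x y ∨ 0 < Q.arr y x) →
      Set.Infinite {Q' : Quiv V | ∃ w : List V, Q' = mutWord w Q} →
      ∃ (w₀ : List V) (k : V), ∀ w₁ : List V, List.IsChain (· ≠ ·) (k :: w₁) →
        FormII (mutWord (w₀ ++ k :: w₁) Q)) := by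
  have hskew : Skew (matQ Q) := (m_main V Q).1
  refine ⟨?_, ?_, ?_⟩
  · intro h
    refine formII_of Q hno fun v => ?_
    rcases h v with h | h
    · exact Or.inl (acyM_of h)
    · right
      rw [← (m_main V Q).2.1 v]
      exact acyM_of h
  · intro r hr
    exact forkM_formII Q r (fork_of Q r hr) hno
  · intro hconn hinf
    have hConn : Conn (matQ Q) := by
      intro X hX hX'
      obtain ⟨x, hx, y, hy, h⟩ := hconn X hX hX'
      refine ⟨x, hx, y, hy, ?_⟩
      unfold matQ
      have := Q.no_two_cycle x y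
      omega
    have hMI : MutInf (matQ Q) := by
      unfold MutInf
      have h1 : {B' : V → V → ℤ | ∃ w : List V, B' = runB w (matQ Q)} = matQ '' {Q' : Quiv V |
          ∃ w : List V, Q' = mutWord w Q} := by
        ext B'
        constructor
        · rintro ⟨w, rfl⟩
          exact ⟨_, ⟨w, rfl⟩, mat_fold w Q⟩
        · rintro ⟨_, ⟨w, rfl⟩, rfl⟩
          exact ⟨w, mat_fold w Q⟩
      rw [h1]
      exact hinf.image (fun a _ b _ h => M.ext_mat a b h)
    obtain ⟨w, r, hF⟩ := wark V (matQ Q) hskew hConn hMI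
    obtain ⟨k, _, hk⟩ := hF.hp
    have hkr : k ≠ r := by
      rintro rfl
      have := AllAux.skew_run hskew (w := w) k k
      omega
    have hsw : Skew (runB w (matQ Q)) := AllAux.skew_run hskew
    have hF1 := step_main V 2 (runB w (matQ Q)) Finset.univ r k le_rfl hsw hF
      (Finset.mem_univ _) hkr
    refine ⟨w, k, fun w₁ hc => ?_⟩
    obtain ⟨r', hr'⟩ := branch w₁ (mutB k (runB w (matQ Q))) k (AllAux.skew_mut' hsw k) hF1 hc
    have e : matQ (mutWord (w ++ k :: w₁) Q) = runB w₁ (mutB k (runB w (matQ Q))) := by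
      unfold mutWord
      rw [List.foldl_append]
      show matQ (mutWord (k :: w₁) (mutWord w Q)) = _
      rw [mat_fold, mat_fold]
      rfl
    exact forkM_formII _ r' (by rw [e]; exact hr') (noRed_word _ Q hno)

end Pool.Agent.R60.FK
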