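import Mathlib
import Pool.Agent.R60.FK.GreenQ

/-! # Relative maximal green sequences -/

namespace Pool.Agent.R60.FK

open Pool.Agent.R60.SC

namespace RR

variable {V : Type} [Fintype V] [DecidableEq V]

/-- Delete all arrows at `v`. -/
def delB (v : V) (B : V → V → ℤ) : V → V → ℤ := fun i j => if i = v ∨ j = v then 0 else B i j

theorem skew_del {v : V} {B : V → V → ℤ} (h : Skew B) : Skew (delB v B) := by
  intro i j
  unfold delB
  by_cases h1 : i = v ∨ j = v
  · rw [if_pos h1, if_pos h1.symm]; ring
  · rw [if_neg h1, if_neg (fun e => h1 e.symm)]; exact h i j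

theorem pos_sum {a c : V → ℤ} (S : Finset V) (hc : ∀ l ∈ S, 0 ≤ c l)
    (ha : (∀ l, 0 ≤ a l) ∨ (∀ l, a l ≤ 0)) :
    pos (∑ l ∈ S, c l * a l) = ∑ l ∈ S, c l * pos (a l) ∧
    pos (-(∑ l ∈ S, c l * a l)) = ∑ l ∈ S, c l * pos (-(a l)) := by
  rcases ha with ha | ha
  · have h1 : 0 ≤ ∑ l ∈ S, c l * a l := Finset.sum_nonneg fun l hl => mul_nonneg (hc l hl) (ha l)
    constructor
    · unfold pos
      rw [max_eq_left h1]
      exact Finset.sum_congr rfl fun l _ => by rw [max_eq_left (ha l)]
    · unfold pos
      rw [max_eq_right (by linarith)]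
      symm
      exact Finset.sum_eq_zero fun l _ => by
        rw [max_eq_right (by linarith [ha l])]; ring
  · have h1 : ∑ l ∈ S, c l * a l ≤ 0 :=
      Finset.sum_nonpos fun l hl => mul_nonpos_of_nonneg_of_nonpos (hc l hl) (ha l)
    constructor
    · unfold pos
      rw [max_eq_right h1]
      symm
      exact Finset.sum_eq_zero fun l _ => by
        rw [max_eq_right (ha l)]; ring
    · unfold pos
      rw [max_eq_left (by linarith), ← Finset.sum_neg_distrib]
      exact Finset.sum_congr rfl fun l _ => by
        rw [max_eq_left (by linarith [ha l])]; ring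

theorem run_agree (v : V) (B : V → V → ℤ) (w : List V) (hv : v ∉ w) :
    ∀ x y, x ≠ v → y ≠ v → runB w B x y = runB w (delB v B) x y := by
  induction w using List.reverseRecOn with
  | nil =>
    intro x y hx hy
    show B x y = delB v B x y
    unfold delB
    rw [if_neg (by tauto)]
  | append_singleton w k ih =>
    have hvw : v ∉ w := fun h => hv (by simp [h])
    have hkv : k ≠ v := fun h => hv (by simp [h])
    intro x y hx hy
    rw [M.runB_append, M.runB_append]
    unfold mutB
    rw [ih hvw x y hx hy, ih hvw x k hx hkv, ih hvw k y hkv hy]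

theorem run_sum (v : V) (B : V → V → ℤ) (hs : Skew B) (c : V → ℤ) (hc : ∀ l, l ≠ v → 0 ≤ c l)
    (w : List V) (hv : v ∉ w) :
    ∀ i, i ≠ v → runR w B c i = ∑ l ∈ Finset.univ.erase v, c l * cRow w (delB v B) l i := by
  induction w using List.reverseRecOn with
  | nil =>
    intro i hi
    show c i = ∑ l ∈ Finset.univ.erase v, c l * (Pi.single l (1 : ℤ) : V → ℤ) i
    rw [Finset.sum_eq_single i]
    · simp
    · intro l _ hl
      rw [Pi.single_eq_of_ne (Ne.symm hl)]; ring
    · intro h
      exact absurd (Finset.mem_erase.2 ⟨hi, Finset.mem_univ _⟩) h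
  | append_singleton w k ih =>
    have hvw : v ∉ w := fun h => hv (by simp [h])
    have hkv : k ≠ v := fun h => hv (by simp [h])
    intro i hi
    rw [M.runR_append]
    have e : ∀ l, cRow (w ++ [k]) (delB v B) l i =
        mutR k (runB w (delB v B)) (cRow w (delB v B) l) i := by
      intro l
      unfold cRow
      rw [M.runR_append]
    simp_rw [e]
    unfold mutR
    by_cases hik : i = k
    · simp only [if_pos hik]
      rw [ih hvw k hkv, ← Finset.sum_neg_distrib]
      exact Finset.sum_congr rfl fun l _ => by ring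
    · simp only [if_neg hik]
      have hco := (sign_coherence V (delB v B) (skew_del hs) w).1 k
      obtain ⟨h1, h2⟩ := pos_sum (a := fun l => cRow w (delB v B) l k) (c := c)
        (Finset.univ.erase v) (fun l hl => hc l (Finset.ne_of_mem_erase hl)) hco
      rw [ih hvw i hi, ih hvw k hkv, h1, h2, run_agree v B w hvw i k hi hkv,
        Finset.mul_sum, Finset.mul_sum, ← Finset.sum_add_distrib, ← Finset.sum_sub_distrib]
      exact Finset.sum_congr rfl fun l _ => by ring

/-- Rows of the isolated vertex vanish. -/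
theorem row_del (v : V) (B : V → V → ℤ) (w : List V) (hv : v ∉ w) :
    ∀ i, i ≠ v → cRow w (delB v B) v i = 0 := by
  induction w using List.reverseRecOn with
  | nil =>
    intro i hi
    exact Pi.single_eq_of_ne hi _
  | append_singleton w k ih =>
    have hvw : v ∉ w := fun h => hv (by simp [h])
    have hkv : k ≠ v := fun h => hv (by simp [h])
    intro i hi
    unfold cRow at ih ⊢
    rw [M.runR_append, KK.mutR_zero _ _ _ (ih hvw k hkv)]
    exact ih hvw i hi

/-- Colours in the relative situation. -/
theorem colour (v : V) (B : V → V → ℤ) (hs : Skew B) (s w : List V) (hv : v ∉ w)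
    (hg : ∀ i, i ≠ v → ∃ j, 0 < cRow s B j i) (i : V) (hi : i ≠ v) :
    ((∃ l, 0 < cRow w (delB v (runB s B)) l i) → ∃ j, 0 < cRow (s ++ w) B j i) ∧
    ((∃ l, cRow w (delB v (runB s B)) l i < 0) → ∃ j, cRow (s ++ w) B j i < 0) := by
  have hss : Skew (runB s B) := AllAux.skew_run hs
  have hnn : ∀ j l, l ≠ v → 0 ≤ cRow s B j l := by
    intro j l hl
    obtain ⟨j', hj'⟩ := hg l hl
    rcases (sign_coherence V B hs s).1 l with h | h
    · exact h j
    · exact absurd (h j') (not_le.2 hj')
  have happ : ∀ j, cRow (s ++ w) B j i = runR w (runB s B) (cRow s B j) i := by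
    intro j
    unfold cRow
    have : ∀ (s : List V) (B : V → V → ℤ) (r : V → ℤ),
        runR (s ++ w) B r = runR w (runB s B) (runR s B r) := by
      intro s
      induction s with
      | nil => intro B r; rfl
      | cons a s ih => intro B r; exact ih _ _
    rw [this]
  have hsum : ∀ j, cRow (s ++ w) B j i = ∑ l ∈ Finset.univ.erase v,
      cRow s B j l * cRow w (delB v (runB s B)) l i := by
    intro j
    rw [happ j]
    exact run_sum v (runB s B) hss (cRow s B j) (hnn j) w hv i hi
  have hco := (sign_coherence V (delB v (runB s B)) (skew_del hss) w).1 i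
  constructor
  · rintro ⟨l, hl⟩
    have hlv : l ≠ v := by
      rintro rfl
      rw [row_del l (runB s B) w hv i hi] at hl
      exact lt_irrefl _ hl
    have hall : ∀ m, 0 ≤ cRow w (delB v (runB s B)) m i := by
      rcases hco with h | h
      · exact h
      · exact absurd (h l) (not_le.2 hl)
    obtain ⟨j, hj⟩ := hg l hlv
    refine ⟨j, ?_⟩
    rw [hsum j]
    exact Finset.sum_pos' (fun m hm => mul_nonneg (hnn j m (Finset.ne_of_mem_erase hm)) (hall m))
      ⟨l, Finset.mem_erase.2 ⟨hlv, Finset.mem_univ _⟩, mul_pos hj hl⟩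
  · rintro ⟨l, hl⟩
    have hlv : l ≠ v := by
      rintro rfl
      rw [row_del l (runB s B) w hv i hi] at hl
      exact lt_irrefl _ hl
    have hall : ∀ m, cRow w (delB v (runB s B)) m i ≤ 0 := by
      rcases hco with h | h
      · exact absurd (h l) (not_le.2 hl)
      · exact h
    obtain ⟨j, hj⟩ := hg l hlv
    refine ⟨j, ?_⟩
    rw [hsum j]
    have : 0 < ∑ m ∈ Finset.univ.erase v, -(cRow s B j m * cRow w (delB v (runB s B)) m i) :=
      Finset.sum_pos' (fun m hm => by
          have := mul_nonneg (hnn j m (Finset.ne_of_mem_erase hm)) (neg_nonneg.2 (hall m))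
          linarith)
        ⟨l, Finset.mem_erase.2 ⟨hlv, Finset.mem_univ _⟩, by
          have := mul_pos hj (neg_pos.2 hl)
          linarith⟩
    rw [Finset.sum_neg_distrib] at this
    linarith

end RR

end Pool.Agent.R60.FK
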