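import Mathlib
import Pool.Agent.R60.FK.Rel

/-! # The criterion for quivers -/

namespace Pool.Agent.R60.FK

open Pool.Agent.R60.SC

/-- Delete all arrows at `v`; the vertex `v` becomes isolated. -/
def del {V : Type} [DecidableEq V] (v : V) (Q : Quiv V) : Quiv V where
  arr := fun i j => if i = v ∨ j = v then 0 else Q.arr i j
  loopless := fun i => by
    split_ifs
    · rfl
    · exact Q.loopless i
  no_two_cycle := fun i j => by
    by_cases h : i = v ∨ j = v
    · left; rw [if_pos h]
    · rw [if_neg h, if_neg (fun e => h e.symm)]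
      exact Q.no_two_cycle i j

/-- The full subquiver on the vertices other than `v` has a maximal green sequence: some green
sequence of the quiver with `v` isolated avoids `v` and makes all other vertices red. -/
def MGSOff {V : Type} [DecidableEq V] (Q : Quiv V) (v : V) : Prop :=
  ∃ w : List V, v ∉ w ∧ GreenSeq w (del v Q) ∧ ∀ i, i ≠ v → IsRed (afterWord w (del v Q)) i

namespace RQ

variable {V : Type} [Fintype V] [DecidableEq V]

theorem mat_del (v : V) (Q : Quiv V) : matQ (del v Q) = RR.delB v (matQ Q) := by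
  funext i j
  unfold matQ RR.delB
  show (((if i = v ∨ j = v then 0 else Q.arr i j : ℕ)) : ℤ) -
    ((if j = v ∨ i = v then 0 else Q.arr j i : ℕ) : ℤ) = _
  by_cases h : i = v ∨ j = v
  · rw [if_pos h, if_pos h.symm, if_pos h]; rfl
  · rw [if_neg h, if_neg (fun e => h e.symm), if_neg h]

/-- A green sequence after which all vertices other than `v` are green, followed by a maximal
green sequence of the full subquiver on these vertices. -/
theorem last_of (Q : Quiv V) (hno : ¬ ∃ w, Reddening w Q) (v : V) (s : List V)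
    (hs : GreenSeq s Q) (hg : ∀ i, i ≠ v → IsGreen (afterWord s Q) i)
    (hm : MGSOff (mutWord s Q) v) : ∃ w : List V, GreenSeq w Q ∧ LastGreen w Q v := by
  obtain ⟨w, hvw, hgw, hrw⟩ := hm
  have hsk := (m_main V Q).1
  have hg' : ∀ i, i ≠ v → ∃ j, 0 < cRow s (matQ Q) j i :=
    fun i hi => (GQ.green_iff Q s i).1 (hg i hi)
  have hdel : matQ (del v (mutWord s Q)) = RR.delB v (runB s (matQ Q)) := by
    rw [mat_del, GQ.mat_fold]
  have hr : ∀ i, i ≠ v → IsRed (afterWord (s ++ w) Q) i := by
    intro i hi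
    have h1 := (isRed_iff m_main (del v (mutWord s Q)) w i).1 (hrw i hi)
    rw [hdel] at h1
    exact (isRed_iff m_main Q (s ++ w) i).2
      ((RR.colour v (matQ Q) hsk s w hvw hg' i hi).2 h1)
  have h2 : ¬ IsRed (afterWord (s ++ w) Q) v := by
    intro h
    refine hno ⟨s ++ w, fun i => ?_⟩
    by_cases hi : i = v
    · rw [hi]; exact h
    · exact hr i hi
  have h3 : IsGreen (afterWord (s ++ w) Q) v := by
    obtain ⟨j, hj⟩ := (sign_coherence V (matQ Q) hsk (s ++ w)).2.1 v
    have h4 : ¬ cRow (s ++ w) (matQ Q) j v < 0 :=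
      fun h => h2 ((isRed_iff m_main Q (s ++ w) v).2 ⟨j, h⟩)
    exact (GQ.green_iff Q (s ++ w) v).2 ⟨j, by omega⟩
  refine ⟨s ++ w, ?_, h3, h2, hr⟩
  intro p k q hpq
  rcases List.append_eq_append_iff.1 hpq with ⟨a, ha1, ha2⟩ | ⟨a, ha1, ha2⟩
  · -- `p = s ++ a`, `w = a ++ k :: q`
    rw [ha1]
    have hkw : k ∈ w := by rw [ha2]; simp
    have hkv : k ≠ v := fun h => hvw (h ▸ hkw)
    have hva : v ∉ a := fun h => hvw (by rw [ha2]; simp [h])
    have h1 := (GQ.green_iff (del v (mutWord s Q)) a k).1 (hgw a k q ha2)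
    rw [hdel] at h1
    exact (GQ.green_iff Q (s ++ a) k).2 ((RR.colour v (matQ Q) hsk s a hva hg' k hkv).1 h1)
  · -- `s = p ++ a`, `k :: q = a ++ w`
    rcases a with _ | ⟨b, a⟩
    · rw [List.nil_append] at ha2
      rw [List.append_nil] at ha1
      have hkw : k ∈ w := by rw [← ha2]; simp
      have hkv : k ≠ v := fun h => hvw (h ▸ hkw)
      rw [← ha1]
      exact hg k hkv
    · rw [List.cons_append, List.cons.injEq] at ha2
      obtain ⟨rfl, _⟩ := ha2
      exact hs p k a ha1

theorem numRed_redSize (Q : Quiv V) (hno : ¬ ∃ w, Reddening w Q) {w : List V} {v : V}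
    (hg : GreenSeq w Q) (hl : LastGreen w Q v) :
    redSize Q = Fintype.card V - 1 ∧ numRed w Q = redSize Q := by
  have hG : IsGreatest {n : ℕ | ∃ w : List V, GreenSeq w Q ∧ numRed w Q = n}
      (Fintype.card V - 1) := by
    constructor
    · exact ⟨w, hg, GQ.numRed_last hl⟩
    · rintro n ⟨w, _, rfl⟩
      exact GQ.numRed_lt hno w
  have hred : redSize Q = Fintype.card V - 1 := hG.csSup_eq
  exact ⟨hred, (GQ.numRed_last hl).trans hred.symm⟩

end RQ

end Pool.Agent.R60.FK
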