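import Mathlib
import Pool.Agent.R60.FK.RelQ

/-! # Forks beyond a fork: the number of arrows grows -/

namespace Pool.Agent.R60.FK

open Pool.Agent.R60.SC

namespace II

variable {V : Type} [Fintype V] [DecidableEq V]

/-- The number of arrows (counted twice). -/
def tot (B : V → V → ℤ) : ℤ := ∑ i, ∑ j, |B i j|

theorem strict {B : V → V → ℤ} {r k : V} (hs : Skew B) (hF : ForkOn 2 B Finset.univ r)
    (hk : k ≠ r) {i j : V} (h1 : 0 < B i k) (h2 : 0 < B k j) :
    |B i j| < |mutB k B i j| := by
  have hik : i ≠ k := by
    rintro rfl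
    have := hs i i
    omega
  have hjk : j ≠ k := by
    rintro rfl
    have := hs j j
    omega
  have e1 : pos (B i k) = B i k := max_eq_left h1.le
  have e2 : pos (B k j) = B k j := max_eq_left h2.le
  have e3 : pos (-(B i k)) = 0 := max_eq_right (by omega)
  have hB' : mutB k B i j = B i j + B i k * B k j := by
    unfold mutB
    rw [if_neg (by tauto), e1, e2, e3]
    ring
  have g1 : 2 ≤ B i k := by
    have := hs i k
    rcases hF.ab i (Finset.mem_univ _) k (Finset.mem_univ _) hik with h | h
    · exact h
    · omega
  have g2 : 2 ≤ B k j := by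
    have := hs k j
    rcases hF.ab k (Finset.mem_univ _) j (Finset.mem_univ _) (Ne.symm hjk) with h | h
    · exact h
    · omega
  rw [hB']
  by_cases h0 : 0 ≤ B i j
  · rw [abs_of_nonneg h0, abs_of_nonneg (by nlinarith)]
    nlinarith
  · push Not at h0
    have hji : 0 < B j i := by
      have := hs j i
      omega
    have key : - B i j < B k j ∧ - B i j < B i j + B i k * B k j ∨
        - B i j < B i k ∧ - B i j < B i j + B i k * B k j := by
      rcases hF.cyc i (Finset.mem_univ _) k (Finset.mem_univ _) j (Finset.mem_univ _) h1 h2 hji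
        with e | e | e
      · subst e
        obtain ⟨a, b⟩ := hF.big j (Finset.mem_univ _) k (Finset.mem_univ _) hji h1
        have := hs i j
        left
        constructor
        · omega
        · nlinarith
      · exact absurd e hk
      · subst e
        obtain ⟨a, b⟩ := hF.big k (Finset.mem_univ _) i (Finset.mem_univ _) h2 hji
        have := hs i j
        right
        constructor
        · omega
        · nlinarith
    rw [abs_of_neg h0]
    rcases key with ⟨_, h⟩ | ⟨_, h⟩
    · exact lt_of_lt_of_le h (le_abs_self _)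
    · exact lt_of_lt_of_le h (le_abs_self _)

theorem mono {B : V → V → ℤ} {r k : V} (hs : Skew B) (hF : ForkOn 2 B Finset.univ r)
    (hk : k ≠ r) (i j : V) : |B i j| ≤ |mutB k B i j| := by
  by_cases hij : i = k ∨ j = k
  · unfold mutB
    rw [if_pos hij, abs_neg]
  · have hs' : Skew (mutB k B) := AllAux.skew_mut' hs k
    by_cases h1 : 0 < B i k ∧ 0 < B k j
    · exact (strict hs hF hk h1.1 h1.2).le
    · by_cases h2 : 0 < B j k ∧ 0 < B k i
      · have := (strict hs hF hk h2.1 h2.2).le
        rw [hs i j, hs' i j, abs_neg, abs_neg]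
        exact this
      · have hx := hs i k
        have hy := hs j k
        have e1 : pos (B i k) * pos (B k j) = 0 := by
          rcases le_or_gt (B i k) 0 with h | h
          · rw [show pos (B i k) = 0 from max_eq_right h, zero_mul]
          · rw [show pos (B k j) = 0 from max_eq_right (by
              by_contra hc; exact h1 ⟨h, by omega⟩), mul_zero]
        have e2 : pos (-(B i k)) * pos (-(B k j)) = 0 := by
          rcases le_or_gt (-(B i k)) 0 with h | h
          · rw [show pos (-(B i k)) = 0 from max_eq_right h, zero_mul]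
          · rw [show pos (-(B k j)) = 0 from max_eq_right (by
              by_contra hc; exact h2 ⟨by omega, by omega⟩), mul_zero]
        unfold mutB
        rw [if_neg hij, e1, e2]
        simp

theorem tot_lt {B : V → V → ℤ} {r k : V} (hs : Skew B) (hF : ForkOn 2 B Finset.univ r)
    (hk : k ≠ r) : tot B < tot (mutB k B) := by
  have hF' := step_main V 2 B Finset.univ r k le_rfl hs hF (Finset.mem_univ _) hk
  obtain ⟨x, _, hx⟩ := hF'.hp
  obtain ⟨y, _, hy⟩ := hF'.hs
  have hx' : mutB k B x k = - B x k := by
    unfold mutB
    rw [if_pos (Or.inr rfl)]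
  have hy' : mutB k B k y = - B k y := by
    unfold mutB
    rw [if_pos (Or.inl rfl)]
  rw [hx'] at hx
  rw [hy'] at hy
  have h1 : 0 < B y k := by
    have := hs y k
    omega
  have h2 : 0 < B k x := by
    have := hs k x
    omega
  unfold tot
  refine Finset.sum_lt_sum (fun i _ => Finset.sum_le_sum fun j _ => mono hs hF hk i j)
    ⟨y, Finset.mem_univ _, ?_⟩
  exact Finset.sum_lt_sum (fun j _ => mono hs hF hk y j)
    ⟨x, Finset.mem_univ _, strict hs hF hk h1 h2⟩

theorem grow : ∀ (n : ℕ) (B : V → V → ℤ) (k : V), Skew B → ForkOn 2 B Finset.univ k →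
    ∃ w : List V, List.IsChain (· ≠ ·) (k :: w) ∧ tot B + n ≤ tot (runB w B) := by
  intro n
  induction n with
  | zero => intro B k _ _; exact ⟨[], by simp, by simp [runB]⟩
  | succ n ih =>
    intro B k hs hF
    obtain ⟨a, _, ha⟩ := hF.hp
    have hak : a ≠ k := by
      rintro rfl
      have := hs a a
      omega
    have h1 := tot_lt hs hF hak
    obtain ⟨w, hc, hw⟩ := ih (mutB a B) a (AllAux.skew_mut' hs a)
      (step_main V 2 B Finset.univ k a le_rfl hs hF (Finset.mem_univ _) hak)
    refine ⟨a :: w, ?_, ?_⟩
    · rw [List.isChain_cons_cons]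
      exact ⟨Ne.symm hak, hc⟩
    · show tot B + ((n + 1 : ℕ) : ℤ) ≤ tot (runB w (mutB a B))
      push_cast
      omega

end II

end Pool.Agent.R60.FK
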