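import Mathlib
import Pool.Agent.R60.FK.Inf

/-! # Form (ii): assembly -/

namespace Pool.Agent.R60.FK

open Pool.Agent.R60.SC

open GQ in
/-- Beyond some edge of the exchange tree all quivers satisfy form (ii), and there are infinitely
many of them. -/
theorem branches (V : Type) [Fintype V] [DecidableEq V] (Q : Quiv V)
    (hno : ¬ ∃ w, Reddening w Q)
    (hconn : ∀ X : Set V, X.Nonempty → X ≠ Set.univ →
      ∃ x ∈ X, ∃ y ∉ X, 0 < Q.arr x y ∨ 0 < Q.arr y x)
    (hinf : Set.Infinite {Q' : Quiv V | ∃ w : List V, Q' = mutWord w Q}) :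
    Set.Infinite {Q' : Quiv V | (∃ w : List V, Q' = mutWord w Q) ∧ FormII Q'} ∧
    ∃ (w₀ : List V) (k : V), ∀ w₁ : List V, List.IsChain (· ≠ ·) (k :: w₁) →
      FormII (mutWord (w₀ ++ k :: w₁) Q) := by
  have hskew : Skew (matQ Q) := (m_main V Q).1
  have hConn : Conn (matQ Q) := by
    intro X hX hX'
    obtain ⟨x, hx, y, hy, h⟩ := hconn X hX hX'
    refine ⟨x, hx, y, hy, ?_⟩
    unfold matQ
    have := Q.no_two_cycle x y
    omega
  have hMI : MutInf (matQ Q) := by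
    unfold MutInf
    have h1 : {B' : V → V → ℤ | ∃ w : List V, B' = runB w (matQ Q)} = matQ '' {Q' : Quiv V |
        ∃ w : List V, Q' = mutWord w Q} := by
      ext B'
      constructor
      · rintro ⟨w, rfl⟩
        exact ⟨_, ⟨w, rfl⟩, mat_fold w Q⟩
      · rintro ⟨_, ⟨w, rfl⟩, rfl⟩
        exact ⟨w, mat_fold w Q⟩
    rw [h1]
    exact hinf.image (fun a _ b _ h => M.ext_mat a b h)
  obtain ⟨w, r, hF⟩ := wark V (matQ Q) hskew hConn hMI
  obtain ⟨k, _, hk⟩ := hF.hp
  have hkr : k ≠ r := by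
    rintro rfl
    have := AllAux.skew_run hskew (w := w) k k
    omega
  have hsw : Skew (runB w (matQ Q)) := AllAux.skew_run hskew
  have hF1 := step_main V 2 (runB w (matQ Q)) Finset.univ r k le_rfl hsw hF
    (Finset.mem_univ _) hkr
  have hs1 : Skew (mutB k (runB w (matQ Q))) := AllAux.skew_mut' hsw k
  have e : ∀ w₁ : List V, matQ (mutWord (w ++ k :: w₁) Q) =
      runB w₁ (mutB k (runB w (matQ Q))) := by
    intro w₁
    unfold mutWord
    rw [List.foldl_append]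
    show matQ (mutWord (k :: w₁) (mutWord w Q)) = _
    rw [mat_fold, mat_fold]
    rfl
  have key : ∀ w₁ : List V, List.IsChain (· ≠ ·) (k :: w₁) →
      FormII (mutWord (w ++ k :: w₁) Q) := by
    intro w₁ hc
    obtain ⟨r', hr'⟩ := branch w₁ (mutB k (runB w (matQ Q))) k hs1 hF1 hc
    exact forkM_formII _ r' (by rw [e]; exact hr') (noRed_word _ Q hno)
  refine ⟨?_, w, k, key⟩
  intro hfin
  obtain ⟨b, hb⟩ := (hfin.image (fun Q' : Quiv V => II.tot (matQ Q'))).bddAbove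
  obtain ⟨n, hn⟩ : ∃ n : ℕ, b - II.tot (mutB k (runB w (matQ Q))) < n :=
    ⟨(b - II.tot (mutB k (runB w (matQ Q)))).toNat + 1, by
      have := Int.self_le_toNat (b - II.tot (mutB k (runB w (matQ Q))))
      push_cast
      omega⟩
  obtain ⟨w₁, hc, hw⟩ := II.grow n _ k hs1 hF1
  have h1 : II.tot (matQ (mutWord (w ++ k :: w₁) Q)) ≤ b :=
    hb ⟨mutWord (w ++ k :: w₁) Q, ⟨⟨_, rfl⟩, key w₁ hc⟩, rfl⟩
  rw [e] at h1
  omega

end Pool.Agent.R60.FK
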