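import Mathlib
import Pool.Agent.R60.FK.FormsII

/-! # Forks at the level of quivers: from matrices back to quivers -/

namespace Pool.Agent.R60.FK

open Pool.Agent.R60.SC

open GQ in
/-- A quiver whose matrix is a fork is a fork. -/
theorem isFork_of {V : Type} [Fintype V] [DecidableEq V] (Q : Quiv V) (r : V)
    (hF : ForkOn 2 (matQ Q) Finset.univ r) : IsFork Q r := by
  have hm : ∀ x y, matQ Q x y = (Q.arr x y : ℤ) - (Q.arr y x : ℤ) := fun _ _ => rfl
  have h2 := Q.no_two_cycle
  refine ⟨?_, ?_, ?_, ?_, ?_⟩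
  · intro x y hxy
    have h := hF.ab x (Finset.mem_univ _) y (Finset.mem_univ _) hxy
    rw [hm, hm] at h
    have := h2 x y
    omega
  · obtain ⟨x, _, hx⟩ := hF.hp
    rw [hm] at hx
    exact ⟨x, by omega⟩
  · obtain ⟨x, _, hx⟩ := hF.hs
    rw [hm] at hx
    exact ⟨x, by omega⟩
  · intro x y hx hy
    have e1 := h2 x r
    have e2 := h2 r y
    have e3 := h2 y x
    have h := hF.big x (Finset.mem_univ _) y (Finset.mem_univ _) (by rw [hm]; omega)
      (by rw [hm]; omega)
    rw [hm, hm, hm] at h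
    omega
  · obtain ⟨l, hn, hml, hp⟩ := GG.acy_fork (matQ Q) (m_main V Q).1 r hF
    refine ⟨fun x => l.idxOf x, ?_⟩
    intro x y hx hy hxy
    have hxl : x ∈ l := (hml x).2 hx
    have hyl : y ∈ l := (hml y).2 hy
    have hxy' : x ≠ y := by
      rintro rfl
      have := Q.loopless x
      omega
    show l.idxOf x < l.idxOf y
    by_contra hcon
    push Not at hcon
    have hlt : l.idxOf y < l.idxOf x := by
      rcases lt_or_eq_of_le hcon with h | h
      · exact h
      · exact absurd ((List.idxOf_inj hyl).1 h).symm hxy'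
    have hx1 : l.idxOf x < l.length := List.idxOf_lt_length_iff.2 hxl
    have hy1 : l.idxOf y < l.length := List.idxOf_lt_length_iff.2 hyl
    have h3 := (List.pairwise_iff_getElem.1 hp) _ _ hy1 hx1 hlt
    rw [List.getElem_idxOf hy1, List.getElem_idxOf hx1] at h3
    have h4 := h3.1
    rw [hm] at h4
    have := h2 x y
    omega

open GQ in
/-- In the mutation class of a connected mutation-infinite quiver, all quivers beyond some edge of
the exchange tree are forks, and there are infinitely many forks. -/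
theorem fork_branch (V : Type) [Fintype V] [DecidableEq V] (Q : Quiv V)
    (hconn : ∀ X : Set V, X.Nonempty → X ≠ Set.univ →
      ∃ x ∈ X, ∃ y ∉ X, 0 < Q.arr x y ∨ 0 < Q.arr y x)
    (hinf : Set.Infinite {Q' : Quiv V | ∃ w : List V, Q' = mutWord w Q}) :
    (∃ (w₀ : List V) (k : V), ∀ w₁ : List V, List.IsChain (· ≠ ·) (k :: w₁) →
      ∃ r, IsFork (mutWord (w₀ ++ k :: w₁) Q) r) ∧
    Set.Infinite {Q' : Quiv V | (∃ w : List V, Q' = mutWord w Q) ∧ ∃ r, IsFork Q' r} := by
  have hskew : Skew (matQ Q) := (m_main V Q).1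
  have hConn : Conn (matQ Q) := by
    intro X hX hX'
    obtain ⟨x, hx, y, hy, h⟩ := hconn X hX hX'
    refine ⟨x, hx, y, hy, ?_⟩
    unfold matQ
    have := Q.no_two_cycle x y
    omega
  have hMI : MutInf (matQ Q) := by
    unfold MutInf
    have h1 : {B' : V → V → ℤ | ∃ w : List V, B' = runB w (matQ Q)} = matQ '' {Q' : Quiv V |
        ∃ w : List V, Q' = mutWord w Q} := by
      ext B'
      constructor
      · rintro ⟨w, rfl⟩
        exact ⟨_, ⟨w, rfl⟩, mat_fold w Q⟩
      · rintro ⟨_, ⟨w, rfl⟩, rfl⟩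
        exact ⟨w, mat_fold w Q⟩
    rw [h1]
    exact hinf.image (fun a _ b _ h => M.ext_mat a b h)
  obtain ⟨w, r, hF⟩ := wark V (matQ Q) hskew hConn hMI
  obtain ⟨k, _, hk⟩ := hF.hp
  have hkr : k ≠ r := by
    rintro rfl
    have := AllAux.skew_run hskew (w := w) k k
    omega
  have hsw : Skew (runB w (matQ Q)) := AllAux.skew_run hskew
  have hF1 := step_main V 2 (runB w (matQ Q)) Finset.univ r k le_rfl hsw hF
    (Finset.mem_univ _) hkr
  have hs1 : Skew (mutB k (runB w (matQ Q))) := AllAux.skew_mut' hsw k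
  have e : ∀ w₁ : List V, matQ (mutWord (w ++ k :: w₁) Q) =
      runB w₁ (mutB k (runB w (matQ Q))) := by
    intro w₁
    unfold mutWord
    rw [List.foldl_append]
    show matQ (mutWord (k :: w₁) (mutWord w Q)) = _
    rw [mat_fold, mat_fold]
    rfl
  have key : ∀ w₁ : List V, List.IsChain (· ≠ ·) (k :: w₁) →
      ∃ r, IsFork (mutWord (w ++ k :: w₁) Q) r := by
    intro w₁ hc
    obtain ⟨r', hr'⟩ := branch w₁ (mutB k (runB w (matQ Q))) k hs1 hF1 hc
    exact ⟨r', isFork_of _ r' (by rw [e]; exact hr')⟩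
  refine ⟨⟨w, k, key⟩, ?_⟩
  intro hfin
  obtain ⟨b, hb⟩ := (hfin.image (fun Q' : Quiv V => II.tot (matQ Q'))).bddAbove
  obtain ⟨n, hn⟩ : ∃ n : ℕ, b - II.tot (mutB k (runB w (matQ Q))) < n :=
    ⟨(b - II.tot (mutB k (runB w (matQ Q)))).toNat + 1, by
      have := Int.self_le_toNat (b - II.tot (mutB k (runB w (matQ Q))))
      push_cast
      omega⟩
  obtain ⟨w₁, hc, hw⟩ := II.grow n _ k hs1 hF1
  have h1 : II.tot (matQ (mutWord (w ++ k :: w₁) Q)) ≤ b :=
    hb ⟨mutWord (w ++ k :: w₁) Q, ⟨⟨_, rfl⟩, key w₁ hc⟩, rfl⟩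
  rw [e] at h1
  omega

end Pool.Agent.R60.FK
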